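import Pool.Agent.H65FJ.Tz

/-!
# Semidirect products of a graph product with a group which permutes the vertex groups
-/

set_option autoImplicit false

namespace Pool.Agent.H65FJ

open Pool.Agent.Y110.FJ
open Pool.Agent.Y462.SS (Closed)

variable {C : ∀ (G : Type) [Group G], Prop}

open Classical in
theorem of_inj {V : Type} {Λ : SimpleGraph V} {A : V → Type} [∀ v, Group (A v)] (v : V) :
    Function.Injective (GrP.of Λ A v) := by
  have hne : ∀ w, w ≠ v → Function.update (fun w => (1 : A w →* A v)) v (MonoidHom.id _) w = 1 :=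
    fun w hw => Function.update_of_ne hw _ _
  obtain ⟨k, hk⟩ := exists_lift (Λ := Λ) (A := A) (H := A v)
    (Function.update (fun w => (1 : A w →* A v)) v (MonoidHom.id _)) (by
    intro x y hxy a b
    by_cases hx : x = v
    · have hy : y ≠ v := by
        rintro rfl
        rw [hx] at hxy
        exact Λ.loopless.irrefl _ hxy
      rw [hne y hy, MonoidHom.one_apply, mul_one, one_mul]
    · rw [hne x hx, MonoidHom.one_apply, mul_one, one_mul])
  intro a b hab
  have h1 := congrArg k hab
  rw [hk, hk, Function.update_self] at h1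
  exact h1

/-- graph products of groups in `C` are in `C` -/
theorem grp_mem (hC : ClosedE C) {V : Type} {Λ : SimpleGraph V} {A : V → Type} [∀ v, Group (A v)]
    (hA : ∀ v, C (A v)) : C (GrP Λ A) := by
  have k1 : ∀ v (a : A v), ∃ b, (1 : MulAut (GrP Λ A)) (GrP.of Λ A v a) = GrP.of Λ A v b :=
    fun v a => ⟨a, rfl⟩
  have k2 : ∀ v (a : A v), ∃ b, (1 : MulAut (GrP Λ A))⁻¹ (GrP.of Λ A v a) = GrP.of Λ A v b :=
    fun v a => ⟨a, rfl⟩
  refine hC.base.of_injective _ (MT (GrP Λ A) 1) SemidirectProduct.inl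
    SemidirectProduct.inl_injective ?_
  refine gz hC (grp_gz 1 k1 k2) (fun v => ?_)
  refine vert hC.base 1 v (A v × Multiplicative ℤ) (hC.base.prod _ _ (hA v) hC.base.int)
      (MonoidHom.inl (A v) (Multiplicative ℤ)) (1, Multiplicative.ofAdd 1) k1 k2 ?_ ?_
  · intro a
    refine ⟨a, rfl, ?_⟩
    apply Prod.ext
    · show a = 1 * a * 1⁻¹
      simp
    · show (1 : Multiplicative ℤ) = Multiplicative.ofAdd 1 * 1 * (Multiplicative.ofAdd 1)⁻¹
      simp
  · intro a n han
    have h4 : a * (1 : A v) ^ n = 1 := congrArg Prod.fst han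
    have h5 : (1 : Multiplicative ℤ) * (Multiplicative.ofAdd (1 : ℤ)) ^ n = 1 :=
      congrArg Prod.snd han
    rw [one_mul, ← ofAdd_zsmul, smul_eq_mul, mul_one] at h5
    rw [one_zpow, mul_one] at h4
    exact ⟨h4, h5⟩

/-- **Semidirect products of a graph product with a group which permutes the vertex groups.** -/
theorem refl (hC : ClosedE C) {V : Type} {Λ : SimpleGraph V} {A : V → Type} [∀ v, Group (A v)]
    {Q : Type} [Group Q] [MulAction Q V] (hΛ : ∀ (q : Q) v w, Λ.Adj v w → Λ.Adj (q • v) (q • w))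
    (α : Q →* MulAut (GrP Λ A))
    (hα : ∀ q v a, ∃ b, α q (GrP.of Λ A v a) = GrP.of Λ A (q • v) b)
    (hQ : C Q) (hA : ∀ v, C ↥(Subgroup.closure
      ((SemidirectProduct.inl '' Set.range (GrP.of Λ A v)) ∪
        (SemidirectProduct.inr '' {q : Q | q • v = v}) : Set (GrP Λ A ⋊[α] Q)))) :
    C (GrP Λ A ⋊[α] Q) := by
  let VS : V → Subgroup (GrP Λ A ⋊[α] Q) := fun v => Subgroup.closure
      ((SemidirectProduct.inl '' Set.range (GrP.of Λ A v)) ∪
        (SemidirectProduct.inr '' {q : Q | q • v = v}) : Set (GrP Λ A ⋊[α] Q))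
  have hVS1 : ∀ v, ∀ a ∈ Dat.Ag Λ A v, (SemidirectProduct.inl a : GrP Λ A ⋊[α] Q) ∈ VS v := by
    rintro v _ ⟨a, rfl⟩
    exact Subgroup.subset_closure (Or.inl ⟨_, ⟨a, rfl⟩, rfl⟩)
  have hVS2 : ∀ v (q : Q), q • v = v → (SemidirectProduct.inr q : GrP Λ A ⋊[α] Q) ∈ VS v :=
    fun v q hq => Subgroup.subset_closure (Or.inr ⟨q, hq, rfl⟩)
  have hAg : ∀ v, C ↥(Dat.Ag Λ A v) := by
    intro v
    refine hC.base.of_injective _ (VS v) (((SemidirectProduct.inl : GrP Λ A →* _).comp
      (Subgroup.subtype _)).codRestrict (VS v) (fun a => hVS1 v a a.2)) ?_ (hA v)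
    intro x y hxy
    exact Subtype.ext (SemidirectProduct.inl_injective (congrArg Subtype.val hxy))
  have hAv : ∀ v, C (A v) := fun v => hC.base.of_injective _ _
    (GrP.of Λ A v).rangeRestrict (fun a b hab => of_inj v (congrArg Subtype.val hab)) (hAg v)
  have hG : C (GrP Λ A) := grp_mem hC hAv
  let ρ : GrP Λ A ⋊[α] Q →* Q := SemidirectProduct.rightHom
  have hN : ρ.ker = (SemidirectProduct.inl : GrP Λ A →* GrP Λ A ⋊[α] Q).range :=
    SemidirectProduct.range_inl_eq_ker_rightHom.symm
  refine Pool.Agent.Y529.FJ.t_ext C hC _ ρ.ker ?_ ?_ ?_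
  · refine of_eq hN.symm (hC.base.of_injective _ _
      (MonoidHom.ofInjective SemidirectProduct.inl_injective).symm.toMonoidHom
      (MonoidHom.ofInjective SemidirectProduct.inl_injective).symm.injective hG)
  · exact hC.base.of_injective _ _ (QuotientGroup.kerLift ρ) (QuotientGroup.kerLift_injective ρ) hQ
  · intro g hg
    let q : Q := g.right
    have hq : ∀ k : ℤ, q ^ k = 1 → k = 0 := by
      have hq' : ∀ k : ℕ, 0 < k → q ^ k ≠ 1 := by
        intro k hk h
        apply hg k hk
        rw [MonoidHom.mem_ker, map_pow]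
        exact h
      intro k hk
      rcases Int.eq_nat_or_neg k with ⟨n, rfl | rfl⟩
      · rcases Nat.eq_zero_or_pos n with rfl | hn
        · rfl
        · exact absurd (by simpa using hk) (hq' n hn)
      · rcases Nat.eq_zero_or_pos n with rfl | hn
        · rfl
        · exact absurd (by simpa using hk) (hq' n hn)
    obtain ⟨Ψ, h1, h2⟩ := mt_lift (α q) (SemidirectProduct.inl : GrP Λ A →* GrP Λ A ⋊[α] Q)
      (SemidirectProduct.inr q) (fun x => by rw [SemidirectProduct.inl_aut, ← map_inv])
    have hinj : Function.Injective Ψ := by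
      rw [injective_iff_map_eq_one]
      intro z hz
      have h3 : z = SemidirectProduct.inl z.left * (st (α q)) ^ (Multiplicative.toAdd z.right) := by
        rw [st_zpow]
        exact (SemidirectProduct.inl_left_mul_inr_right z).symm
      rw [h3, map_mul, map_zpow, h1, h2, ← map_zpow] at hz
      have h4 := congrArg (fun z => z.left) hz
      have h5 := congrArg (fun z => z.right) hz
      simp only [SemidirectProduct.mul_left, SemidirectProduct.left_inl,
        SemidirectProduct.right_inl, SemidirectProduct.left_inr, map_one, mul_one,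
        SemidirectProduct.one_left] at h4
      simp only [SemidirectProduct.mul_right, SemidirectProduct.right_inl,
        SemidirectProduct.right_inr, one_mul, SemidirectProduct.one_right] at h5
      rw [h3, h4, hq _ h5]
      simp
    have hMT : C (MT (GrP Λ A) (α q)) := by
      let D : Dat Λ A :=
        { σ := α q
          s := MulAction.toPerm q
          hσ := fun v a => hα q v a
          hσ' := fun v a => by
            obtain ⟨b, hb⟩ := hα q⁻¹ v a
            rw [map_inv] at hb
            exact ⟨b, hb⟩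
          hΛ := fun v w => ⟨fun h => by
            have := hΛ q⁻¹ _ _ h
            simpa using this, hΛ q v w⟩ }
      refine D.torus hC hAg ?_
      intro v c hc hcv
      have hcv' : q ^ c • v = v := by
        have h3 : (MulAction.toPermHom Q V q) ^ c = MulAction.toPermHom Q V (q ^ c) :=
          (map_pow _ _ _).symm
        have h4 : ((MulAction.toPermHom Q V q) ^ c) v = v := hcv
        rw [h3] at h4
        exact h4
      have hmem : ∀ x ∈ Subgroup.closure
          ((SemidirectProduct.inl '' (Dat.Ag Λ A v : Set (GrP Λ A))) ∪ {(st (α q)) ^ c} :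
          Set (MT (GrP Λ A) (α q))), Ψ x ∈ VS v := by
        have h3 : Subgroup.closure
          ((SemidirectProduct.inl '' (Dat.Ag Λ A v : Set (GrP Λ A))) ∪ {(st (α q)) ^ c} :
          Set (MT (GrP Λ A) (α q))) ≤ (VS v).comap Ψ := by
          rw [Subgroup.closure_le]
          rintro x (⟨y, hy, rfl⟩ | hx)
          · show Ψ _ ∈ VS v
            rw [h1]
            exact hVS1 v y hy
          · rw [Set.mem_singleton_iff.1 hx]
            show Ψ _ ∈ VS v
            rw [map_pow, h2, ← map_pow]
            exact hVS2 v _ hcv'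
        exact h3
      refine hC.base.of_injective _ (VS v) ((Ψ.comp (Subgroup.subtype _)).codRestrict (VS v)
        (fun x => hmem x.1 x.2)) ?_ (hA v)
      intro x y hxy
      exact Subtype.ext (hinj (congrArg Subtype.val hxy))
    have hle : ρ.ker ⊔ Subgroup.zpowers g ≤ Ψ.range := by
      refine sup_le ?_ ?_
      · rw [hN]
        rintro _ ⟨x, rfl⟩
        exact ⟨SemidirectProduct.inl x, h1 x⟩
      · rw [Subgroup.zpowers_le]
        refine ⟨SemidirectProduct.inl g.left * st (α q), ?_⟩
        rw [map_mul, h1, h2]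
        exact SemidirectProduct.inl_left_mul_inr_right g
    exact hC.base.of_injective _ _ ((MonoidHom.ofInjective hinj).symm.toMonoidHom.comp
      (Subgroup.inclusion hle)) ((MonoidHom.ofInjective hinj).symm.injective.comp
        (Subgroup.inclusion_injective hle)) hMT

/-! ### graph-wreath products -/

section gw

variable {V : Type} {Λ : SimpleGraph V} {A : Type} [Group A] {Q : Type} [Group Q] [MulAction Q V]

/-- the permutation action on a graph product of copies of a group -/
theorem exists_perm (hΛ : ∀ (q : Q) v w, Λ.Adj v w → Λ.Adj (q • v) (q • w)) :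
    ∃ α : Q →* MulAut (GrP Λ (fun _ => A)), ∀ (q : Q) v a,
      α q (GrP.of Λ (fun _ => A) v a) = GrP.of Λ (fun _ => A) (q • v) a := by
  have h : ∀ q : Q, ∃ f : GrP Λ (fun _ => A) →* GrP Λ (fun _ => A), ∀ v a,
      f (GrP.of Λ (fun _ => A) v a) = GrP.of Λ (fun _ => A) (q • v) a := fun q =>
    exists_lift (fun v => GrP.of Λ (fun _ => A) (q • v))
      (fun v w hvw a b => of_comm (A := fun _ => A) (hΛ q v w hvw) a b)
  choose f hf using h
  have hmul : ∀ q r, (f q).comp (f r) = f (q * r) := by
    intro q r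
    apply grp_ext
    intro v a
    show f q (f r (GrP.of Λ (fun _ => A) v a)) = _
    rw [hf, hf, hf, mul_smul]
  have hone : f 1 = MonoidHom.id _ := by
    apply grp_ext
    intro v a
    rw [hf, one_smul]; rfl
  refine ⟨{ toFun := fun q => MonoidHom.toMulEquiv (f q) (f q⁻¹)
              (by rw [hmul, inv_mul_cancel, hone]) (by rw [hmul, mul_inv_cancel, hone])
            map_one' := ?_
            map_mul' := ?_ }, fun q v a => hf q v a⟩
  · apply MulEquiv.ext
    intro x
    exact DFunLike.congr_fun hone x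
  · intro q r
    apply MulEquiv.ext
    intro x
    exact (DFunLike.congr_fun (hmul q r) x).symm

open Classical in
/-- **Graph-wreath products.** -/
theorem graph_wreath {C : ∀ (G : Type) [Group G], Prop} (hC : ClosedE C)
    (hΛ : ∀ (q : Q) v w, Λ.Adj v w → Λ.Adj (q • v) (q • w))
    (α : Q →* MulAut (GrP Λ (fun _ => A)))
    (hα : ∀ (q : Q) v a, α q (GrP.of Λ (fun _ => A) v a) = GrP.of Λ (fun _ => A) (q • v) a)
    (hA : C A) (hQ : C Q) : C (GrP Λ (fun _ => A) ⋊[α] Q) := by
  refine refl hC hΛ α (fun q v a => ⟨a, hα q v a⟩) hQ (fun v => ?_)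
  -- the retraction to the vertex group
  have hne : ∀ w, w ≠ v → Function.update (fun _ => (1 : A →* A)) v (MonoidHom.id A) w = 1 :=
    fun w hw => Function.update_of_ne hw _ _
  obtain ⟨r, hr⟩ := exists_lift (Λ := Λ) (A := fun _ => A) (H := A)
    (Function.update (fun _ => (1 : A →* A)) v (MonoidHom.id A)) (by
    intro x y hxy a b
    by_cases hx : x = v
    · have hy : y ≠ v := by
        rintro rfl
        rw [hx] at hxy
        exact Λ.loopless.irrefl _ hxy
      rw [hne y hy, MonoidHom.one_apply, mul_one, one_mul]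
    · rw [hne x hx, MonoidHom.one_apply, mul_one, one_mul])
  have hrv : ∀ a, r (GrP.of Λ (fun _ => A) v a) = a := by
    intro a; rw [hr, Function.update_self]; rfl
  have hrw : ∀ w, w ≠ v → ∀ a, r (GrP.of Λ (fun _ => A) w a) = 1 := by
    intro w hw a; rw [hr, hne w hw]; rfl
  have hrq : ∀ q : Q, q • v = v → ∀ x, r (α q x) = r x := by
    intro q hq
    have h3 : r.comp (α q).toMonoidHom = r := by
      apply grp_ext
      intro w a
      show r (α q (GrP.of Λ (fun _ => A) w a)) = _
      rw [hα]
      by_cases hw : w = v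
      · rw [hw, hq]
      · rw [hrw w hw, hrw]
        intro h
        apply hw
        rw [← hq] at h
        exact (MulAction.injective q) h
    exact fun x => DFunLike.congr_fun h3 x
  let K : Subgroup (GrP Λ (fun _ => A) ⋊[α] Q) :=
    { carrier := {x | x.left ∈ (GrP.of Λ (fun _ => A) v).range ∧ x.right • v = v}
      one_mem' := ⟨one_mem _, one_smul _ _⟩
      mul_mem' := by
        rintro x y ⟨⟨a, ha⟩, hx⟩ ⟨⟨b, hb⟩, hy⟩
        refine ⟨?_, ?_⟩
        · refine ⟨a * b, ?_⟩
          rw [SemidirectProduct.mul_left, ← ha, ← hb, hα, hx, map_mul]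
        · show (x.right * y.right) • v = v
          rw [mul_smul, hy, hx]
      inv_mem' := by
        rintro x ⟨⟨a, ha⟩, hx⟩
        have hx' : x.right⁻¹ • v = v := by rw [inv_smul_eq_iff]; exact hx.symm
        refine ⟨?_, ?_⟩
        · refine ⟨a⁻¹, ?_⟩
          rw [SemidirectProduct.inv_left, ← ha, ← map_inv, hα, hx']
        · exact hx' }
  have hle : Subgroup.closure
      ((SemidirectProduct.inl '' Set.range (GrP.of Λ (fun _ => A) v)) ∪
        (SemidirectProduct.inr '' {q : Q | q • v = v}) : Set (GrP Λ (fun _ => A) ⋊[α] Q)) ≤ K := by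
    rw [Subgroup.closure_le]
    rintro x (⟨_, ⟨a, rfl⟩, rfl⟩ | ⟨q, hq, rfl⟩)
    · exact ⟨⟨a, rfl⟩, one_smul _ _⟩
    · exact ⟨one_mem _, hq⟩
  let f : K →* A × Q :=
    { toFun := fun x => (r x.1.left, x.1.right)
      map_one' := Prod.ext (map_one r) rfl
      map_mul' := fun x y => by
        apply Prod.ext
        · show r (x.1.left * α x.1.right y.1.left) = r x.1.left * r y.1.left
          rw [map_mul, hrq _ x.2.2]
        · rfl }
  refine hC.base.of_injective _ _ (f.comp (Subgroup.inclusion hle)) ?_ (hC.base.prod _ _ hA hQ)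
  suffices hf : Function.Injective f from hf.comp (Subgroup.inclusion_injective hle)
  rintro ⟨x, ⟨⟨a, ha⟩, hx⟩⟩ ⟨y, ⟨⟨b, hb⟩, hy⟩⟩ hxy
  have h1 : r x.left = r y.left := congrArg Prod.fst hxy
  have h2 : x.right = y.right := congrArg Prod.snd hxy
  rw [← ha, ← hb, hrv, hrv] at h1
  apply Subtype.ext
  apply SemidirectProduct.ext _ h2
  rw [← ha, ← hb, h1]

end gw

/-! ### the statements -/

section st

/-- the graph product of the groups `A v` over the graph `Λ` -/
def GPr {V : Type} (Λ : SimpleGraph V) (A : V → Type) [∀ v, Group (A v)] : Type := GrP Λ A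

instance instGPr {V : Type} (Λ : SimpleGraph V) (A : V → Type) [∀ v, Group (A v)] :
    Group (GPr Λ A) := inferInstanceAs (Group (GrP Λ A))

/-- the inclusion of a vertex group -/
def GPr.of {V : Type} (Λ : SimpleGraph V) (A : V → Type) [∀ v, Group (A v)] (v : V) :
    A v →* GPr Λ A := GrP.of Λ A v

variable {V : Type} (Λ : SimpleGraph V) (A : V → Type) [∀ v, Group (A v)] {Q : Type} [Group Q]
  [MulAction Q V]

/-- `Q` acts on the graph `Λ` by automorphisms -/
def ActsOn (Q : Type) [Group Q] [MulAction Q V] : Prop :=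
  ∀ (q : Q) (v w : V), Λ.Adj v w → Λ.Adj (q • v) (q • w)

/-- `Q` acts on the graph product of the groups `A v`, and `q` maps the vertex group of `v` to the
vertex group of `q v` -/
def Permutes (α : Q →* MulAut (GPr Λ A)) : Prop :=
  ∀ (q : Q) (v : V) (a : A v), ∃ b : A (q • v), α q (GPr.of Λ A v a) = GPr.of Λ A (q • v) b

/-- the semidirect product -/
def SD (α : Q →* MulAut (GPr Λ A)) : Type := GPr Λ A ⋊[α] Q

instance instSD (α : Q →* MulAut (GPr Λ A)) : Group (SD Λ A α) :=
  inferInstanceAs (Group (GPr Λ A ⋊[α] Q))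

/-- the subgroup of the semidirect product which is generated by the vertex group of `v` and the
stabilizer of `v` -/
def VertStab (α : Q →* MulAut (GPr Λ A)) (v : V) : Subgroup (SD Λ A α) :=
  Subgroup.closure {x : GPr Λ A ⋊[α] Q | (∃ a, x = SemidirectProduct.inl (GPr.of Λ A v a)) ∨
    ∃ q : Q, q • v = v ∧ x = SemidirectProduct.inr q}

/-- `Q` acts on the graph product of copies of `A` by permuting the copies -/
def PermutesCopies (A : Type) [Group A] (α : Q →* MulAut (GPr Λ (fun _ => A))) : Prop :=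
  ∀ (q : Q) (v : V) (a : A),
    α q (GPr.of Λ (fun _ => A) v a) = GPr.of Λ (fun _ => A) (q • v) a

theorem refl' {C : ∀ (G : Type) [Group G], Prop} (hC : ClosedE C) (hΛ : ActsOn Λ Q)
    (α : Q →* MulAut (GPr Λ A)) (hα : Permutes Λ A α) (hQ : C Q)
    (h : ∀ v, C ↥(VertStab Λ A α v)) : C (SD Λ A α) := by
  refine refl (Λ := Λ) (A := A) hC hΛ α hα hQ (fun v => of_eq ?_ (h v))
  show Subgroup.closure _ = Subgroup.closure _
  congr 1
  ext x
  constructor
  · rintro (⟨a, rfl⟩ | ⟨q, hq, rfl⟩)
    · exact Or.inl ⟨_, ⟨a, rfl⟩, rfl⟩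
    · exact Or.inr ⟨q, hq, rfl⟩
  · rintro (⟨_, ⟨a, rfl⟩, rfl⟩ | ⟨q, hq, rfl⟩)
    · exact Or.inl ⟨a, rfl⟩
    · exact Or.inr ⟨q, hq, rfl⟩

theorem graph_wreath' {C : ∀ (G : Type) [Group G], Prop} (hC : ClosedE C) (A : Type) [Group A]
    (hΛ : ActsOn Λ Q) (hA : C A) (hQ : C Q) :
    ∃ α : Q →* MulAut (GPr Λ (fun _ => A)), PermutesCopies Λ A α ∧ C (SD Λ (fun _ => A) α) := by
  obtain ⟨α, hα⟩ := exists_perm (A := A) hΛ
  exact ⟨α, hα, graph_wreath hC hΛ α hα hA hQ⟩

end st

end Pool.Agent.H65FJ
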