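import Pool.Agent.Y417.FJ.Am
import Pool.Agent.Y961.FJ.Perm
import Pool.Agent.Y529.FJ.Ext

/-!
# HNN extensions with a homomorphism to a group in `C` which is injective on the base

The HNN extension embeds in `F(P / f A) ⋊ P`.
-/

set_option autoImplicit false

namespace Pool.Agent.H65FJ

open Pool.Agent.Y110.FJ Pool.Agent.Y417.FJ
open Pool.Agent.Y462.SS (Closed)

theorem perm : S_PERM := Pool.Agent.Y961.FJ.t_perm Pool.Agent.Y529.FJ.t_ext

theorem am : S_AM := t_am perm

open HNNExtension in
theorem hnn : S_HNN := by
  intro C hC M P _ _ A B φ f hf hCP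
  classical
  let fA : Subgroup P := A.map (f.comp HNNExtension.of)
  let X : Type := P ⧸ fA
  let x1 : X := ((1 : P) : P ⧸ fA)
  have hx1 : ∀ p : P, p • x1 = x1 ↔ p ∈ fA := by
    intro p
    show ((p * 1 : P) : P ⧸ fA) = ((1 : P) : P ⧸ fA) ↔ _
    rw [mul_one, eq_comm, QuotientGroup.eq]
    simp
  let z : FreeGroup X ⋊[permAut X P] P := SemidirectProduct.inl (FreeGroup.of x1)
  have hz : ∀ p : P, p ∈ fA →
      z * SemidirectProduct.inr p = (SemidirectProduct.inr p : FreeGroup X ⋊[permAut X P] P) * z := by
    intro p hp
    have h1 : (permAut X P p) (FreeGroup.of x1) = FreeGroup.of x1 := by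
      have h2 : (permAut X P p) (FreeGroup.of x1) = FreeGroup.of (p • x1) :=
        permAut_mk p [((x1, true) : X × Bool)]
      rw [h2, (hx1 p).2 hp]
    have h3 : (SemidirectProduct.inr p : FreeGroup X ⋊[permAut X P] P) * z *
        (SemidirectProduct.inr p)⁻¹ = z := by
      rw [← map_inv, ← SemidirectProduct.inl_aut, h1]
    rw [mul_inv_eq_iff_eq_mul] at h3
    exact h3.symm
  let m : M →* P := f.comp HNNExtension.of
  have hft : ∀ a : A, f t * m a = m (φ a) * f t := by
    intro a
    show f t * f (of (a : M)) = f (of ((φ a : B) : M)) * f t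
    rw [← map_mul, t_mul_of, map_mul]
  let Θ : HNNExtension M A B φ →* FreeGroup X ⋊[permAut X P] P :=
    HNNExtension.lift (SemidirectProduct.inr.comp m) (SemidirectProduct.inr (f t) * z) (by
      intro a
      show SemidirectProduct.inr (f t) * z * SemidirectProduct.inr (m a) =
        SemidirectProduct.inr (m (φ a)) * (SemidirectProduct.inr (f t) * z)
      rw [mul_assoc, hz (m a) ⟨a, a.2, rfl⟩, ← mul_assoc, ← mul_assoc, ← map_mul, ← map_mul, hft])
  have hΘo : ∀ g : M, Θ (of g) = SemidirectProduct.inr (m g) := fun g => lift_of _ _ _ _
  have hΘt : Θ t = SemidirectProduct.inr (f t) * z := lift_t _ _ _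
  have hright : ∀ g, (Θ g).right = f g := by
    intro g
    induction g using HNNExtension.induction_on with
    | of g => rw [hΘo, SemidirectProduct.right_inr]; rfl
    | t => rw [hΘt, SemidirectProduct.mul_right, SemidirectProduct.right_inr,
        SemidirectProduct.right_inl, mul_one]
    | mul x y hx hy => rw [map_mul, map_mul, SemidirectProduct.mul_right, hx, hy]
    | inv x hx => rw [map_inv, map_inv, SemidirectProduct.inv_right, hx]
  have hleft : ∀ g h, (Θ (g * h)).left = (Θ g).left * permAut X P (f g) (Θ h).left := by
    intro g h
    rw [map_mul, SemidirectProduct.mul_left, hright]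
  let lt : ℤˣ → X × Bool := fun u => if u = 1 then (f t • x1, true) else (x1, false)
  have hlt : ∀ u : ℤˣ, (Θ (t ^ (u : ℤ))).left = FreeGroup.mk [lt u] := by
    intro u
    rcases Int.units_eq_one_or u with rfl | rfl
    · have h1 : (permAut X P (f t)) (FreeGroup.of x1) = FreeGroup.of (f t • x1) :=
        permAut_mk (f t) [((x1, true) : X × Bool)]
      simp only [Units.val_one, zpow_one, hΘt, z, SemidirectProduct.mul_left,
        SemidirectProduct.left_inr, SemidirectProduct.right_inr, SemidirectProduct.left_inl, one_mul,
        h1, lt, if_true]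
      rfl
    · have h1 : (Θ t⁻¹).left = (FreeGroup.of x1)⁻¹ := by
        rw [map_inv, hΘt, mul_inv_rev, SemidirectProduct.mul_left]
        simp [z]
      have h2 : ¬ ((-1 : ℤˣ) = 1) := by decide
      simp only [Units.val_neg, Units.val_one, zpow_neg, zpow_one, h1, lt, h2, if_false]
      rw [FreeGroup.of, FreeGroup.inv_mk]
      rfl
  -- the words
  have key : ∀ l : List (ℤˣ × M),
      l.IsChain (fun a b => a.2 ∈ toSubgroup A B a.1 → a.1 = b.1) → l ≠ [] →
      ∃ (u : ℤˣ) (L : List (X × Bool)), (l.head?.map Prod.fst = some u) ∧
        FreeGroup.IsReduced (lt u :: L) ∧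
        (Θ ((l.map (fun x => t ^ (x.1 : ℤ) * of x.2)).prod)).left = FreeGroup.mk (lt u :: L) := by
    intro l
    induction l with
    | nil => intro _ h; exact absurd rfl h
    | cons a l ih =>
      intro hch _
      obtain ⟨u, g⟩ := a
      rw [List.isChain_cons] at hch
      obtain ⟨hch1, hch2⟩ := hch
      rw [List.map_cons, List.prod_cons]
      by_cases hl : l = []
      · subst hl
        refine ⟨u, [], rfl, FreeGroup.IsReduced.singleton, ?_⟩
        rw [List.map_nil, List.prod_nil, mul_one, hleft, hΘo, SemidirectProduct.left_inr, map_one,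
          mul_one, hlt]
      · obtain ⟨u', L, hu', hred, hL⟩ := ih hch2 hl
        refine ⟨u, (lt u' :: L).map (fun q => ((f (t ^ (u : ℤ) * of g)) • q.1, q.2)), rfl, ?_, ?_⟩
        · rw [List.map_cons, FreeGroup.isReduced_cons_cons]
          refine ⟨?_, ?_⟩
          · intro heq
            obtain ⟨b, hb, hbu⟩ : ∃ b, l.head? = some b ∧ b.1 = u' := by
              rw [Option.map_eq_some_iff] at hu'
              exact hu'
            have hch3 := hch1 b hb
            rw [hbu] at hch3
            rcases Int.units_eq_one_or u with rfl | rfl
            · rcases Int.units_eq_one_or u' with rfl | rfl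
              · rfl
              · exfalso
                have h2 : ¬ ((-1 : ℤˣ) = 1) := by decide
                have h1 : f t • x1 = (f (t ^ (((1 : ℤˣ)) : ℤ) * of g)) • x1 := by
                  simpa [lt] using heq
                rw [Units.val_one, zpow_one, map_mul, mul_smul] at h1
                have h3 := (hx1 _).1 (MulAction.injective (f t) h1).symm
                obtain ⟨a, ha, hag⟩ := h3
                have h4 : a = g := hf hag
                have h5 : g ∈ toSubgroup A B 1 := by
                  rw [toSubgroup_one, ← h4]; exact ha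
                exact h2 (hch3 h5).symm
            · rcases Int.units_eq_one_or u' with rfl | rfl
              · exfalso
                have h2 : ¬ ((-1 : ℤˣ) = 1) := by decide
                have h1 : x1 = (f (t ^ (((-1 : ℤˣ)) : ℤ) * of g)) • (f t • x1) := by
                  simpa [lt] using heq
                rw [Units.val_neg, Units.val_one, zpow_neg, zpow_one, map_mul, map_inv,
                  ← mul_smul] at h1
                have h3 := (hx1 _).1 h1.symm
                obtain ⟨a, ha, hag⟩ := h3
                have h4 : m ((φ ⟨a, ha⟩ : B) : M) = f (of g) := by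
                  have h5 := hft ⟨a, ha⟩
                  have h6 : m a = (f t)⁻¹ * f (of g) * f t := hag
                  rw [h6] at h5
                  have h7 : f t * ((f t)⁻¹ * f (of g) * f t) = f (of g) * f t := by group
                  rw [h7] at h5
                  exact (mul_right_cancel h5).symm
                have h8 : ((φ ⟨a, ha⟩ : B) : M) = g := hf h4
                have h9 : g ∈ toSubgroup A B (-1) := by
                  rw [toSubgroup_neg_one, ← h8]; exact (φ ⟨a, ha⟩).2
                exact h2 (hch3 h9)
              · rfl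
          · have h1 := reduced_map (f (t ^ (u : ℤ) * of g)) _ hred
            rwa [List.map_cons] at h1
        · rw [hleft, hL, permAut_mk, hleft, hΘo, SemidirectProduct.left_inr, map_one, mul_one, hlt,
            FreeGroup.mul_mk]
          rfl
  have hinj : Function.Injective Θ := by
    rw [injective_iff_map_eq_one]
    intro x hx
    obtain ⟨d⟩ := NormalWord.TransversalPair.nonempty M A B
    obtain ⟨w, hw⟩ : ∃ w : NormalWord d, w.prod φ = x :=
      ⟨x • NormalWord.empty, by simp⟩
    have hprod : x = of w.head * (w.toList.map (fun x => t ^ (x.1 : ℤ) * of x.2)).prod := hw.symm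
    by_cases hl : w.toList = []
    · rw [hl, List.map_nil, List.prod_nil, mul_one] at hprod
      have h1 := hright x
      rw [hx, hprod] at h1
      have h2 : (f.comp of) w.head = 1 := h1.symm
      rw [hprod, hf (h2.trans (map_one _).symm), map_one]
    · exfalso
      obtain ⟨u, L, _, hred, hL⟩ := key w.toList w.chain hl
      have h1 := hleft (of w.head) ((w.toList.map (fun x => t ^ (x.1 : ℤ) * of x.2)).prod)
      rw [← hprod, hx, hL, hΘo, SemidirectProduct.left_inr, one_mul, permAut_mk] at h1
      have h2 := reduced_map (f (of w.head)) _ hred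
      have h3 : (1 : FreeGroup X).toWord =
          ((lt u :: L).map fun q => (f (of w.head) • q.1, q.2)) := by
        have h4 : (FreeGroup.mk ((lt u :: L).map fun q => (f (of w.head) • q.1, q.2))).toWord
            = ((lt u :: L).map fun q => (f (of w.head) • q.1, q.2)) := by
          rw [FreeGroup.toWord_mk]
          exact h2.reduce_eq
        rw [← h4]
        exact congrArg _ h1
      simp at h3
  exact hC.base.of_injective _ _ Θ hinj (perm C hC X P hCP)

end Pool.Agent.H65FJ
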