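import Pool.Agent.H65FJ.Hnn
import Pool.Agent.Y430.SS.Lf

/-!
# The criterion for extensions

`N ⊔ ⟨g⟩` is the directed colimit of the HNN extensions given by the conjugation with `g` on the
subgroups generated by finite sets.
-/

set_option autoImplicit false

namespace Pool.Agent.H65FJ

open Pool.Agent.Y110.FJ
open Pool.Agent.Y462.SS (Closed)

section col

variable {G : Type} [Group G] (g : G)

/-- the base group -/
def SS (E : Set G) : Subgroup G := Subgroup.closure (E ∪ (fun x => g * x * g⁻¹) '' E)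

variable {g} in
theorem cl_le {E : Set G} {x : G} (hx : x ∈ Subgroup.closure E) : x ∈ SS g E :=
  Subgroup.closure_mono Set.subset_union_left hx

variable {g} in
theorem conj_mem {E : Set G} {x : G} (hx : x ∈ Subgroup.closure E) : g * x * g⁻¹ ∈ SS g E := by
  have h1 : (Subgroup.closure E).map (MulAut.conj g).toMonoidHom ≤ SS g E := by
    rw [MonoidHom.map_closure]
    exact Subgroup.closure_mono Set.subset_union_right
  exact h1 ⟨x, hx, rfl⟩

theorem SS_mono {E F : Set G} (h : E ⊆ F) : SS g E ≤ SS g F :=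
  Subgroup.closure_mono (Set.union_subset_union h (Set.image_mono h))

theorem SS_le {E : Set G} {N : Subgroup G} [N.Normal] (hE : E ⊆ N) : SS g E ≤ N := by
  refine (Subgroup.closure_le N).2 (Set.union_subset hE ?_)
  rintro _ ⟨x, hx, rfl⟩
  exact ‹N.Normal›.conj_mem x (hE hx) g

def AA (E : Set G) : Subgroup (SS g E) := (Subgroup.closure E).subgroupOf _

def BB (E : Set G) : Subgroup (SS g E) :=
  ((Subgroup.closure E).map (MulAut.conj g).toMonoidHom).subgroupOf _

theorem BB_inv {E : Set G} (b : BB g E) : g⁻¹ * ((b : SS g E) : G) * g ∈ Subgroup.closure E := by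
  obtain ⟨a, ha, hab⟩ := b.2
  have h1 : ((b : SS g E) : G) = g * a * g⁻¹ := hab.symm
  rw [h1]
  have h2 : g⁻¹ * (g * a * g⁻¹) * g = a := by group
  rwa [h2]

/-- conjugation with `g` -/
def ph (E : Set G) : AA g E ≃* BB g E where
  toFun a := ⟨⟨g * ((a : SS g E) : G) * g⁻¹, conj_mem a.2⟩, ⟨((a : SS g E) : G), a.2, rfl⟩⟩
  invFun b := ⟨⟨g⁻¹ * ((b : SS g E) : G) * g, cl_le (BB_inv g b)⟩, BB_inv g b⟩
  left_inv a := by
    apply Subtype.ext; apply Subtype.ext
    show g⁻¹ * (g * ((a : SS g E) : G) * g⁻¹) * g = _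
    group
  right_inv b := by
    apply Subtype.ext; apply Subtype.ext
    show g * (g⁻¹ * ((b : SS g E) : G) * g) * g⁻¹ = _
    group
  map_mul' a b := by
    apply Subtype.ext; apply Subtype.ext
    show g * (((a : SS g E) : G) * ((b : SS g E) : G)) * g⁻¹ =
      (g * ((a : SS g E) : G) * g⁻¹) * (g * ((b : SS g E) : G) * g⁻¹)
    group

/-- the HNN extension -/
abbrev HH (E : Set G) : Type := HNNExtension (SS g E) (AA g E) (BB g E) (ph g E)

theorem tconj {E : Set G} {x : G} (hx : x ∈ Subgroup.closure E) :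
    (HNNExtension.t : HH g E) * HNNExtension.of ⟨x, cl_le hx⟩ =
      HNNExtension.of ⟨g * x * g⁻¹, conj_mem hx⟩ * HNNExtension.t :=
  HNNExtension.t_mul_of (⟨⟨x, cl_le hx⟩, hx⟩ : AA g E)

/-- the structure maps -/
noncomputable def upp {E F : Set G} (h : E ⊆ F) : HH g E →* HH g F :=
  HNNExtension.lift (HNNExtension.of.comp (Subgroup.inclusion (SS_mono g h))) HNNExtension.t (by
    rintro ⟨⟨a, ha'⟩, ha⟩
    exact tconj g (Subgroup.closure_mono h ha))

theorem upp_of {E F : Set G} (h : E ⊆ F) (x : SS g E) :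
    upp g h (HNNExtension.of x) = HNNExtension.of (Subgroup.inclusion (SS_mono g h) x) :=
  HNNExtension.lift_of _ _ _ _

theorem upp_t {E F : Set G} (h : E ⊆ F) : upp g h HNNExtension.t = HNNExtension.t :=
  HNNExtension.lift_t _ _ _

theorem upp_refl {E : Set G} (x : HH g E) : upp g (le_refl E) x = x := by
  have : upp g (le_refl E) = MonoidHom.id _ := by
    apply HNNExtension.hom_ext
    · ext x
      exact upp_of g (le_refl E) x
    · exact upp_t g (le_refl E)
  rw [this]; rfl

theorem upp_upp {E F K : Set G} (h : E ⊆ F) (h' : F ⊆ K) (x : HH g E) :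
    upp g h' (upp g h x) = upp g (h.trans h') x := by
  have : (upp g h').comp (upp g h) = upp g (h.trans h') := by
    apply HNNExtension.hom_ext
    · apply MonoidHom.ext
      intro x
      show upp g h' (upp g h (HNNExtension.of x)) = upp g (h.trans h') (HNNExtension.of x)
      rw [upp_of, upp_of, upp_of]
      rfl
    · show upp g h' (upp g h HNNExtension.t) = upp g (h.trans h') HNNExtension.t
      rw [upp_t, upp_t, upp_t]
  exact DFunLike.congr_fun this x

/-- elements of the form `n t ^ k` -/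
def Good (E : Set G) (x : HH g E) : Prop :=
  ∃ (n : SS g E) (k : ℤ), x = HNNExtension.of n * HNNExtension.t ^ k

theorem good_upp {E F : Set G} (h : E ⊆ F) (x : HH g E) (hx : Good g E x) :
    Good g F (upp g h x) := by
  obtain ⟨n, k, rfl⟩ := hx
  refine ⟨Subgroup.inclusion (SS_mono g h) n, k, ?_⟩
  rw [map_mul, map_zpow, upp_of, upp_t]

theorem tconj' {E : Set G} {x : G} (hx : x ∈ Subgroup.closure E)
    (hx' : g⁻¹ * x * g ∈ Subgroup.closure E) :
    (HNNExtension.t : HH g E)⁻¹ * HNNExtension.of ⟨x, cl_le hx⟩ =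
      HNNExtension.of ⟨g⁻¹ * x * g, cl_le hx'⟩ * HNNExtension.t⁻¹ := by
  have h := tconj g hx'
  have h2 : (⟨g * (g⁻¹ * x * g) * g⁻¹, conj_mem hx'⟩ : SS g E) = ⟨x, cl_le hx⟩ := by
    apply Subtype.ext
    show g * (g⁻¹ * x * g) * g⁻¹ = x
    group
  rw [h2] at h
  rw [inv_mul_eq_iff_eq_mul, ← mul_assoc, h, mul_inv_cancel_right]

variable (N : Subgroup G) [N.Normal]

/-- finite subsets of `N` -/
abbrev Ix : Type := {E : Finset G // (E : Set G) ⊆ N}

/-- moving powers of `t` -/
theorem mv (E : Ix N) (x : G) (hx : x ∈ SS g (E.1 : Set G)) (k : ℤ) :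
    ∃ (F : Ix N) (h : E ≤ F) (y : SS g (F.1 : Set G)),
      (HNNExtension.t : HH g (F.1 : Set G)) ^ k *
        HNNExtension.of ⟨x, SS_mono g (Finset.coe_subset.2 h) hx⟩ =
      HNNExtension.of y * HNNExtension.t ^ k := by
  classical
  have step : ∀ (ε : Bool) (E : Ix N) (x : G) (hx : x ∈ SS g (E.1 : Set G)),
      ∃ (F : Ix N) (h : E ≤ F) (y : G) (hy : y ∈ SS g (F.1 : Set G)), y ∈ N ∧
      (HNNExtension.t : HH g (F.1 : Set G)) ^ (if ε then (1 : ℤ) else -1) *
        HNNExtension.of ⟨x, SS_mono g (Finset.coe_subset.2 h) hx⟩ =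
      HNNExtension.of ⟨y, hy⟩ * HNNExtension.t ^ (if ε then (1 : ℤ) else -1) := by
    intro ε E x hx
    have hxN : x ∈ N := SS_le g E.2 hx
    have hxN' : g⁻¹ * x * g ∈ N := by
      have := ‹N.Normal›.conj_mem x hxN g⁻¹
      rwa [inv_inv] at this
    let F : Ix N := ⟨insert x (insert (g⁻¹ * x * g) E.1), by
      intro z hz
      rw [Finset.mem_coe, Finset.mem_insert, Finset.mem_insert] at hz
      rcases hz with rfl | rfl | hz
      · exact hxN
      · exact hxN'
      · exact E.2 hz⟩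
    have hF : E ≤ F := by
      show E.1 ⊆ insert x (insert (g⁻¹ * x * g) E.1)
      exact (Finset.subset_insert _ _).trans (Finset.subset_insert _ _)
    have h1 : x ∈ Subgroup.closure (F.1 : Set G) := Subgroup.subset_closure (by simp [F])
    have h2 : g⁻¹ * x * g ∈ Subgroup.closure (F.1 : Set G) := Subgroup.subset_closure (by simp [F])
    cases ε with
    | true =>
      refine ⟨F, hF, g * x * g⁻¹, conj_mem h1, ‹N.Normal›.conj_mem x hxN g, ?_⟩
      simp only [if_true, zpow_one]
      exact tconj g h1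
    | false =>
      refine ⟨F, hF, g⁻¹ * x * g, cl_le h2, hxN', ?_⟩
      simp only [Bool.false_eq_true, if_false, zpow_neg, zpow_one]
      exact tconj' g h1 h2
  have nat : ∀ (ε : Bool) (n : ℕ) (E : Ix N) (x : G) (hx : x ∈ SS g (E.1 : Set G)),
      ∃ (F : Ix N) (h : E ≤ F) (y : SS g (F.1 : Set G)),
      (HNNExtension.t : HH g (F.1 : Set G)) ^ ((if ε then (1 : ℤ) else -1) * n) *
        HNNExtension.of ⟨x, SS_mono g (Finset.coe_subset.2 h) hx⟩ =
      HNNExtension.of y * HNNExtension.t ^ ((if ε then (1 : ℤ) else -1) * n) := by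
    intro ε n
    induction n with
    | zero =>
      intro E x hx
      exact ⟨E, le_refl _, ⟨x, hx⟩, by simp⟩
    | succ n ih =>
      intro E x hx
      obtain ⟨F, hF, y, hy, _, h1⟩ := step ε E x hx
      obtain ⟨K, hK, w, h2⟩ := ih F y hy
      refine ⟨K, hF.trans hK, w, ?_⟩
      have h3 : ((if ε then (1 : ℤ) else -1) * ((n + 1 : ℕ) : ℤ)) =
          ((if ε then (1 : ℤ) else -1) * (n : ℤ)) + (if ε then (1 : ℤ) else -1) := by
        push_cast; ring
      have h4 := congrArg (upp g (Finset.coe_subset.2 hK)) h1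
      rw [map_mul, map_mul, map_zpow, upp_t, upp_of, upp_of] at h4
      rw [h3, zpow_add, mul_assoc]
      have h5 : Subgroup.inclusion (SS_mono g (Finset.coe_subset.2 hK))
          (⟨x, SS_mono g (Finset.coe_subset.2 hF) hx⟩ : SS g (F.1 : Set G)) =
          ⟨x, SS_mono g (Finset.coe_subset.2 (hF.trans hK)) hx⟩ := rfl
      rw [h5] at h4
      rw [h4, ← mul_assoc]
      have h6 : Subgroup.inclusion (SS_mono g (Finset.coe_subset.2 hK))
          (⟨y, hy⟩ : SS g (F.1 : Set G)) = ⟨y, SS_mono g (Finset.coe_subset.2 hK) hy⟩ := rfl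
      rw [h6, h2, mul_assoc]
  rcases Int.eq_nat_or_neg k with ⟨n, rfl | rfl⟩
  · obtain ⟨F, h, y, h1⟩ := nat true n E x hx
    refine ⟨F, h, y, ?_⟩
    simpa only [if_true, one_mul] using h1
  · obtain ⟨F, h, y, h1⟩ := nat false n E x hx
    refine ⟨F, h, y, ?_⟩
    simpa only [Bool.false_eq_true, if_false, neg_mul, one_mul] using h1

theorem up_good (E : Ix N) (x : HH g (E.1 : Set G)) :
    ∃ (F : Ix N) (h : E ≤ F), Good g (F.1 : Set G) (upp g (Finset.coe_subset.2 h) x) := by
  classical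
  induction x using HNNExtension.induction_on with
  | of s => exact ⟨E, le_refl _, s, 0, by rw [upp_refl, zpow_zero, mul_one]⟩
  | t => exact ⟨E, le_refl _, 1, 1, by rw [upp_refl, zpow_one, map_one, one_mul]⟩
  | mul x y hx hy =>
    obtain ⟨F1, h1, n1, k1, e1⟩ := hx
    obtain ⟨F2, h2, n2, k2, e2⟩ := hy
    let K : Ix N := ⟨F1.1 ∪ F2.1, by
      rw [Finset.coe_union]; exact Set.union_subset F1.2 F2.2⟩
    have hK1 : F1 ≤ K := Finset.subset_union_left
    have hK2 : F2 ≤ K := Finset.subset_union_right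
    obtain ⟨R, hR, y', e3⟩ := mv g N K (n2 : G) (SS_mono g (Finset.coe_subset.2 hK2) n2.2) k1
    refine ⟨R, (h1.trans hK1).trans hR,
      Subgroup.inclusion (SS_mono g (Finset.coe_subset.2 (hK1.trans hR))) n1 * y', k1 + k2, ?_⟩
    have a1 := congrArg (upp g (Finset.coe_subset.2 (hK1.trans hR))) e1
    have a2 := congrArg (upp g (Finset.coe_subset.2 (hK2.trans hR))) e2
    rw [upp_upp, map_mul, map_zpow, upp_t, upp_of] at a1 a2
    rw [map_mul]
    have b1 : upp g (Finset.coe_subset.2 ((h1.trans hK1).trans hR)) x =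
        HNNExtension.of (Subgroup.inclusion (SS_mono g (Finset.coe_subset.2 (hK1.trans hR))) n1) *
          HNNExtension.t ^ k1 := a1
    have b2 : upp g (Finset.coe_subset.2 ((h1.trans hK1).trans hR)) y =
        HNNExtension.of (⟨(n2 : G), SS_mono g (Finset.coe_subset.2 hR)
          (SS_mono g (Finset.coe_subset.2 hK2) n2.2)⟩) * HNNExtension.t ^ k2 := a2
    rw [b1, b2, map_mul, zpow_add]
    rw [mul_assoc, ← mul_assoc (HNNExtension.t ^ k1), e3]
    simp only [mul_assoc]
  | inv x hx =>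
    obtain ⟨F1, h1, n1, k1, e1⟩ := hx
    obtain ⟨R, hR, y', e3⟩ := mv g N F1 ((n1⁻¹ : SS g (F1.1 : Set G)) : G) (n1⁻¹).2 (-k1)
    refine ⟨R, h1.trans hR, y', -k1, ?_⟩
    have a1 := congrArg (upp g (Finset.coe_subset.2 hR)) e1
    rw [upp_upp, map_mul, map_zpow, upp_t, upp_of] at a1
    have b1 : upp g (Finset.coe_subset.2 (h1.trans hR)) x =
        HNNExtension.of (Subgroup.inclusion (SS_mono g (Finset.coe_subset.2 hR)) n1) *
          HNNExtension.t ^ k1 := a1
    rw [map_inv, b1, mul_inv_rev, ← zpow_neg, ← map_inv, ← map_inv]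
    exact e3

theorem t_col : S_COL := by
  intro C hC G _ N _ g hg hE
  classical
  have hSL : ∀ E : Ix N, SS g (E.1 : Set G) ≤ N ⊔ Subgroup.zpowers g := fun E =>
    (SS_le g E.2).trans le_sup_left
  let gL : ↥(N ⊔ Subgroup.zpowers g) := ⟨g, Subgroup.mem_sup_right (Subgroup.mem_zpowers g)⟩
  let π : ∀ E : Ix N, HH g (E.1 : Set G) →* ↥(N ⊔ Subgroup.zpowers g) := fun E =>
    HNNExtension.lift (Subgroup.inclusion (hSL E)) gL (by
      rintro ⟨⟨a, ha'⟩, ha⟩
      apply Subtype.ext
      show g * a = g * a * g⁻¹ * g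
      group)
  have hπo : ∀ (E : Ix N) x, π E (HNNExtension.of x) = Subgroup.inclusion (hSL E) x :=
    fun E x => HNNExtension.lift_of _ _ _ _
  have hπt : ∀ (E : Ix N), π E HNNExtension.t = gL := fun E => HNNExtension.lift_t _ _ _
  have hπu : ∀ (E F : Ix N) (h : E ≤ F) (x : HH g (E.1 : Set G)),
      π F (upp g (Finset.coe_subset.2 h) x) = π E x := by
    intro E F h x
    have : (π F).comp (upp g (Finset.coe_subset.2 h)) = π E := by
      apply HNNExtension.hom_ext
      · apply MonoidHom.ext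
        intro x
        show π F (upp g (Finset.coe_subset.2 h) (HNNExtension.of x)) = π E (HNNExtension.of x)
        rw [upp_of, hπo, hπo]
        rfl
      · show π F (upp g (Finset.coe_subset.2 h) HNNExtension.t) = π E HNNExtension.t
        rw [upp_t, hπt, hπt]
    exact DFunLike.congr_fun this x
  have : Nonempty (Ix N) := ⟨⟨∅, by simp⟩⟩
  refine hC.base.colim (Ix N) ?_ (fun E => HH g (E.1 : Set G))
    (fun E F h => upp g (Finset.coe_subset.2 h)) _ π ?_ ?_ hπu ?_ ?_ ?_
  · intro E F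
    exact ⟨⟨E.1 ∪ F.1, by rw [Finset.coe_union]; exact Set.union_subset E.2 F.2⟩,
      Finset.subset_union_left, Finset.subset_union_right⟩
  · intro E h x
    exact upp_refl g x
  · intro E F K h h' x
    exact upp_upp g _ _ x
  · rintro ⟨y, hy⟩
    obtain ⟨n, hn, z, hz, rfl⟩ := Subgroup.mem_sup_of_normal_left.1 hy
    obtain ⟨k, rfl⟩ := Subgroup.mem_zpowers_iff.1 hz
    refine ⟨⟨{n}, by simpa using hn⟩, HNNExtension.of ⟨n, cl_le (Subgroup.subset_closure (by simp))⟩ *
      HNNExtension.t ^ k, ?_⟩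
    rw [map_mul, map_zpow, hπo, hπt]
    apply Subtype.ext
    rfl
  · intro E x hx
    obtain ⟨F, h, n, k, e⟩ := up_good g N E x
    refine ⟨F, h, ?_⟩
    have h1 := hπu E F h x
    rw [hx, e, map_mul, map_zpow, hπo, hπt] at h1
    have h2 : (n : G) * g ^ k = 1 := congrArg Subtype.val h1
    have hn : (n : G) ∈ N := SS_le g F.2 n.2
    have h4 : g ^ k = (n : G)⁻¹ := by rw [← mul_right_inj (n : G), h2, mul_inv_cancel]
    have h3 : g ^ k ∈ N := by rw [h4]; exact N.inv_mem hn
    have hk : k = 0 := by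
      rcases Int.eq_nat_or_neg k with ⟨m, rfl | rfl⟩
      · rcases Nat.eq_zero_or_pos m with rfl | hm
        · rfl
        · exact absurd (by simpa using h3) (hg m hm)
      · rcases Nat.eq_zero_or_pos m with rfl | hm
        · rfl
        · exact absurd (by simpa using h3) (hg m hm)
    subst hk
    rw [zpow_zero, mul_one] at h2
    have hn1 : n = 1 := Subtype.ext h2
    rw [e, hn1, map_one, zpow_zero, mul_one]
  · intro E
    obtain ⟨P, _, f0, p, hCP, hf0, hfp0⟩ := hE (E.1 : Set G) E.1.finite_toSet E.2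
    obtain ⟨f, hf, hfp⟩ : ∃ f : SS g (E.1 : Set G) →* P, Function.Injective f ∧
        ∀ x y : SS g (E.1 : Set G), (x : G) ∈ (E.1 : Set G) → (y : G) = g * (x : G) * g⁻¹ →
          f y = p * f x * p⁻¹ := ⟨f0, hf0, hfp0⟩
    have hrel : ∀ a (ha : a ∈ Subgroup.closure (E.1 : Set G)),
        f ⟨g * a * g⁻¹, conj_mem ha⟩ = p * f ⟨a, cl_le ha⟩ * p⁻¹ := by
      intro a ha
      induction ha using Subgroup.closure_induction with
      | mem x hx => exact hfp _ _ hx rfl
      | one =>
        have h1 : (⟨g * 1 * g⁻¹, conj_mem (one_mem _)⟩ : SS g (E.1 : Set G)) = 1 :=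
          Subtype.ext (by simp)
        have h2 : (⟨1, cl_le (one_mem _)⟩ : SS g (E.1 : Set G)) = 1 := rfl
        rw [h1, h2, map_one, mul_one, mul_inv_cancel]
      | mul x y hx hy ihx ihy =>
        have h1 : (⟨g * (x * y) * g⁻¹, conj_mem (mul_mem hx hy)⟩ : SS g (E.1 : Set G)) =
            ⟨g * x * g⁻¹, conj_mem hx⟩ * ⟨g * y * g⁻¹, conj_mem hy⟩ :=
          Subtype.ext (by show g * (x * y) * g⁻¹ = g * x * g⁻¹ * (g * y * g⁻¹); group)
        have h2 : (⟨x * y, cl_le (mul_mem hx hy)⟩ : SS g (E.1 : Set G)) =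
            ⟨x, cl_le hx⟩ * ⟨y, cl_le hy⟩ := rfl
        rw [h1, h2, map_mul, map_mul, ihx, ihy]
        group
      | inv x hx ih =>
        have h1 : (⟨g * x⁻¹ * g⁻¹, conj_mem (inv_mem hx)⟩ : SS g (E.1 : Set G)) =
            (⟨g * x * g⁻¹, conj_mem hx⟩)⁻¹ :=
          Subtype.ext (by show g * x⁻¹ * g⁻¹ = (g * x * g⁻¹)⁻¹; group)
        have h2 : (⟨x⁻¹, cl_le (inv_mem hx)⟩ : SS g (E.1 : Set G)) = (⟨x, cl_le hx⟩)⁻¹ := rfl
        rw [h1, h2, map_inv, map_inv, ih]
        group
    have hF : ∀ a : AA g (E.1 : Set G), p * f (a : SS g (E.1 : Set G)) =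
        f ((ph g (E.1 : Set G) a : BB g (E.1 : Set G)) : SS g (E.1 : Set G)) * p := by
      rintro ⟨⟨a, ha'⟩, ha⟩
      have h1 := hrel a ha
      show p * f ⟨a, ha'⟩ = f ⟨g * a * g⁻¹, conj_mem ha⟩ * p
      rw [h1, inv_mul_cancel_right]
    refine hnn C hC _ P _ _ _ (HNNExtension.lift f p hF) ?_ hCP
    intro x y hxy
    apply hf
    have h1 : HNNExtension.lift f p hF (HNNExtension.of x) =
      HNNExtension.lift f p hF (HNNExtension.of y) := hxy
    rwa [HNNExtension.lift_of, HNNExtension.lift_of] at h1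

theorem crit : S_CRIT := by
  intro C hC G _ N _ hQ hE
  classical
  have hN : C N := by
    refine Pool.Agent.Y430.SS.of_directed hC.base N (Finset N) (fun i j => ?_)
      (fun s => Subgroup.closure (s : Set N))
      (fun s t h => Subgroup.closure_mono (by exact_mod_cast h))
      (fun g => ⟨{g}, Subgroup.subset_closure (by simp)⟩) ?_
    · exact ⟨i ∪ j, Finset.subset_union_left, Finset.subset_union_right⟩
    · intro s
      obtain ⟨P, _, f, p, hCP, hf, _⟩ := hE 1 ((Subtype.val : N → G) '' (s : Set N))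
        (s.finite_toSet.image _) (by rintro _ ⟨x, _, rfl⟩; exact x.2)
      have hle : (Subgroup.closure (s : Set N)).map N.subtype ≤
          Subgroup.closure (((Subtype.val : N → G) '' (s : Set N)) ∪
            (fun x => 1 * x * 1⁻¹) '' ((Subtype.val : N → G) '' (s : Set N))) := by
        rw [MonoidHom.map_closure]
        exact Subgroup.closure_mono Set.subset_union_left
      let e : Subgroup.closure (s : Set N) →* P :=
        f.comp ((Subgroup.inclusion hle).comp
          ((Subgroup.equivMapOfInjective _ N.subtype N.subtype_injective).toMonoidHom))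
      refine hC.base.of_injective _ P e ?_ hCP
      exact hf.comp ((Subgroup.inclusion_injective hle).comp
        (Subgroup.equivMapOfInjective _ N.subtype N.subtype_injective).injective)
  exact Pool.Agent.Y529.FJ.t_ext C hC G N hN hQ (fun g hg => t_col C hC G N g hg (hE g))

end col

end Pool.Agent.H65FJ
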