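import Pool.Agent.H65FJ.Col
import Pool.Agent.Y812.SS.Wr

/-!
# Corollaries of the criterion
-/

set_option autoImplicit false

namespace Pool.Agent.H65FJ

open Pool.Agent.Y110.FJ
open Pool.Agent.Y462.SS (Closed)

variable {C : ∀ (G : Type) [Group G], Prop}

/-- transport along an isomorphism of the types of two equal subgroups -/
theorem of_eq {G : Type} [Group G] {H K : Subgroup G} (h : H = K) (hH : C ↥H) :
    C ↥K := by
  subst h; exact hH

/-- finitely generated subgroups suffice -/
theorem of_fg (hC : Closed C) (N : Type) [Group N]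
    (h : ∀ s : Finset N, C ↥(Subgroup.closure (s : Set N))) : C N := by
  classical
  exact Pool.Agent.Y430.SS.of_directed hC N (Finset N)
    (fun i j => ⟨i ∪ j, Finset.subset_union_left, Finset.subset_union_right⟩)
    (fun s => Subgroup.closure (s : Set N))
    (fun s t h => Subgroup.closure_mono (by exact_mod_cast h))
    (fun g => ⟨{g}, Subgroup.subset_closure (by simp)⟩) h

/-- the criterion with representatives of the cosets of `N` -/
theorem crit' (hC : ClosedE C) (G : Type) [Group G] (N : Subgroup G) [N.Normal] (hQ : C (G ⧸ N))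
    (hE : ∀ g : G, ∃ n ∈ N, ∀ E : Set G, E.Finite → E ⊆ N → Realized C (n * g) E) : C G := by
  classical
  have hN : C N := by
    refine of_fg hC.base N ?_
    intro s
    obtain ⟨n, hn, h⟩ := hE 1
    obtain ⟨P, _, f, p, hCP, hf, _⟩ := h ((Subtype.val : N → G) '' (s : Set N))
      (s.finite_toSet.image _) (by rintro _ ⟨x, _, rfl⟩; exact x.2)
    have hle : (Subgroup.closure (s : Set N)).map N.subtype ≤
        Subgroup.closure (((Subtype.val : N → G) '' (s : Set N)) ∪
          (fun x => n * 1 * x * (n * 1)⁻¹) '' ((Subtype.val : N → G) '' (s : Set N))) := by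
      rw [MonoidHom.map_closure]
      exact Subgroup.closure_mono Set.subset_union_left
    let e : Subgroup.closure (s : Set N) →* P :=
      f.comp ((Subgroup.inclusion hle).comp
        ((Subgroup.equivMapOfInjective _ N.subtype N.subtype_injective).toMonoidHom))
    refine hC.base.of_injective _ P e ?_ hCP
    exact hf.comp ((Subgroup.inclusion_injective hle).comp
      (Subgroup.equivMapOfInjective _ N.subtype N.subtype_injective).injective)
  refine Pool.Agent.Y529.FJ.t_ext C hC G N hN hQ (fun g hg => ?_)
  obtain ⟨n, hn, h⟩ := hE g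
  have h1 : N ⊔ Subgroup.zpowers (n * g) = N ⊔ Subgroup.zpowers g := by
    apply le_antisymm
    · refine sup_le le_sup_left ?_
      rw [Subgroup.zpowers_le]
      exact mul_mem (Subgroup.mem_sup_left hn)
        (Subgroup.mem_sup_right (Subgroup.mem_zpowers g))
    · refine sup_le le_sup_left ?_
      rw [Subgroup.zpowers_le]
      have h2 : g = n⁻¹ * (n * g) := by group
      rw [h2]
      exact mul_mem (Subgroup.mem_sup_left (inv_mem hn))
        (Subgroup.mem_sup_right (by
          have h3 : n * (n⁻¹ * (n * g)) = n * g := by group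
          rw [h3]; exact Subgroup.mem_zpowers _))
  refine of_eq h1 (t_col C hC G N (n * g) ?_ h)
  intro k hk hk'
  apply hg k hk
  have h3 : ((QuotientGroup.mk' N) (n * g)) ^ k = 1 := by
    rw [← map_pow]; exact (QuotientGroup.eq_one_iff _).2 hk'
  have h4 : (QuotientGroup.mk' N) (n * g) = (QuotientGroup.mk' N) g := by
    rw [map_mul]
    have : (QuotientGroup.mk' N) n = 1 := (QuotientGroup.eq_one_iff _).2 hn
    rw [this, one_mul]
  rw [h4, ← map_pow] at h3
  exact (QuotientGroup.eq_one_iff _).1 h3

open Pool.Agent.Y462.SS in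
/-- an automorphism of finite order modulo inner automorphisms is inner in a group in `C` -/
theorem fin_inner (hC : Closed C) (M : Type) [Group M] (hM : C M) (σ : MulAut M) (k : ℕ)
    (hk : 0 < k) (m : M) (hσ : σ ^ k = MulAut.conj m) :
    ∃ (P : Type) (_ : Group P) (ι : M →* P) (p : P), C P ∧ Function.Injective ι ∧
      ∀ x, ι (σ x) = p * ι x * p⁻¹ := by
  obtain ⟨n, rfl⟩ : ∃ n, k = n + 1 := ⟨k - 1, by omega⟩
  let ι : M →* Wr (Fin (n + 1)) M :=
    { toFun := fun x => ⟨fun i => (σ⁻¹ ^ (i : ℕ)) x, 1⟩
      map_one' := by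
        apply Wr.ext
        · funext i
          exact map_one _
        · rfl
      map_mul' := fun x y => by
        apply Wr.ext
        · funext i
          exact map_mul _ _ _
        · exact (mul_one 1).symm }
  let q : Wr (Fin (n + 1)) M := ⟨fun i => if i = Fin.last n then σ m else 1, finRotate (n + 1)⟩
  refine ⟨Wr (Fin (n + 1)) M, inferInstance, ι, q, Pool.Agent.Y812.SS.t_wr C hC _ _
    inferInstance hM, ?_, ?_⟩
  · intro x y hxy
    have h1 := congrFun (congrArg Wr.s hxy) 0
    simpa [ι] using h1
  · intro x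
    rw [eq_mul_inv_iff_mul_eq]
    apply Wr.ext
    · funext i
      show (σ⁻¹ ^ ((finRotate (n + 1) i : Fin (n + 1)) : ℕ)) (σ x) * (if i = Fin.last n then σ m else 1) =
        (if (1 : Equiv.Perm (Fin (n + 1))) i = Fin.last n then σ m else 1) * (σ⁻¹ ^ (i : ℕ)) x
      rw [Equiv.Perm.one_apply]
      by_cases hi : i = Fin.last n
      · subst hi
        rw [if_pos rfl, finRotate_last]
        have h1 : (σ⁻¹ ^ n) x = σ (m⁻¹ * x * m) := by
          have h2 : (σ ^ (n + 1)) ((σ⁻¹ ^ n) x) = σ x := by
            rw [pow_succ', inv_pow, MulAut.mul_apply, MulAut.apply_inv_self]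
          have h3 : (σ ^ (n + 1)) (σ (m⁻¹ * x * m)) = σ x := by
            have h4 : (σ ^ (n + 1)) (σ (m⁻¹ * x * m)) = σ ((σ ^ (n + 1)) (m⁻¹ * x * m)) := by
              rw [← MulAut.mul_apply, ← MulAut.mul_apply, ← pow_succ, ← pow_succ']
            rw [h4, hσ]
            congr 1
            show m * (m⁻¹ * x * m) * m⁻¹ = x
            group
          exact (σ ^ (n + 1)).injective (h2.trans h3.symm)
        rw [Fin.val_last, h1]
        simp only [Fin.val_zero, pow_zero, MulAut.one_apply]
        rw [← map_mul, ← map_mul]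
        congr 1
        group
      · rw [if_neg hi, mul_one, one_mul]
        have hlt : (i : ℕ) < n := by
          have h1 : (i : ℕ) ≤ n := Nat.lt_succ_iff.1 i.2
          rcases h1.lt_or_eq with h | h
          · exact h
          · exact absurd (Fin.ext h) hi
        have h2 : ((finRotate (n + 1) i : Fin (n + 1)) : ℕ) = i + 1 := by
          rw [show i = ⟨i, i.2⟩ from rfl, finRotate_of_lt hlt]
        rw [h2, pow_succ, MulAut.mul_apply, MulAut.inv_apply_self]
    · show (1 : Equiv.Perm (Fin (n + 1))) * finRotate (n + 1) = finRotate (n + 1) * 1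
      rw [one_mul, mul_one]

/-- conjugation by `g` on a finite set is realized if it extends to an automorphism of a group in
`C` which is of finite order modulo inner automorphisms -/
theorem realized_fin (hC : Closed C) {G : Type} [Group G] (g : G) (E : Set G)
    (M : Type) [Group M] (hM : C M)
    (ι : ↥(Subgroup.closure (E ∪ (fun x => g * x * g⁻¹) '' E)) →* M) (hι : Function.Injective ι)
    (σ : MulAut M) (k : ℕ) (hk : 0 < k) (m : M) (hσ : σ ^ k = MulAut.conj m)
    (h : ∀ x y : ↥(Subgroup.closure (E ∪ (fun x => g * x * g⁻¹) '' E)),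
      (x : G) ∈ E → (y : G) = g * x * g⁻¹ → ι y = σ (ι x)) : Realized C g E := by
  obtain ⟨P, hP, j, p, hCP, hj, hjp⟩ := fin_inner hC M hM σ k hk m hσ
  refine ⟨P, hP, j.comp ι, p, hCP, hj.comp hι, ?_⟩
  intro x y hx hy
  show j (ι y) = p * j (ι x) * p⁻¹
  rw [h x y hx hy, hjp]

end Pool.Agent.H65FJ
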