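import Pool.Agent.H65FJ.GZ

/-!
# Presentations which are closed under the deletion of generators
-/

set_option autoImplicit false

namespace Pool.Agent.H65FJ

open Pool.Agent.Y110.FJ
open Pool.Agent.Y462.SS (Closed)

variable {C : ∀ (G : Type) [Group G], Prop}

section abs

variable {G V : Type} [Group G]

/-- the subgroup generated by the `A v`, `v ∈ S` -/
def Sp (A : V → Subgroup G) (S : Set V) : Subgroup G :=
  Subgroup.closure {x | ∃ v ∈ S, x ∈ A v}

theorem mem_Sp {A : V → Subgroup G} {S : Set V} {v : V} (hv : v ∈ S) {a : G} (ha : a ∈ A v) :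
    a ∈ Sp A S := Subgroup.subset_closure ⟨v, hv, ha⟩

theorem Sp_mono {A : V → Subgroup G} {S T : Set V} (h : S ⊆ T) : Sp A S ≤ Sp A T := by
  apply Subgroup.closure_mono
  rintro x ⟨v, hv, hx⟩
  exact ⟨v, h hv, hx⟩

theorem Sp_ind {A : V → Subgroup G} {S : Set V} {P : G → Prop} (h1 : P 1)
    (hmul : ∀ x y, P x → P y → P (x * y)) (hinv : ∀ x, P x → P x⁻¹)
    (hA : ∀ v ∈ S, ∀ a ∈ A v, P a) : ∀ x ∈ Sp A S, P x := by
  intro x hx
  induction hx using Subgroup.closure_induction with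
  | mem x hx =>
    obtain ⟨v, hv, hx⟩ := hx
    exact hA v hv x hx
  | one => exact h1
  | mul x y _ _ hx hy => exact hmul x y hx hy
  | inv x _ hx => exact hinv x hx

theorem Sp_hom_ext {A : V → Subgroup G} {S : Set V} {H : Type} [Group H] (F1 F2 : ↥(Sp A S) →* H)
    (h1 : ∀ v (hv : v ∈ S) (a : G) (ha : a ∈ A v), F1 ⟨a, mem_Sp hv ha⟩ = F2 ⟨a, mem_Sp hv ha⟩) :
    F1 = F2 := by
  apply MonoidHom.ext
  rintro ⟨x, hx⟩
  unfold Sp at hx
  induction hx using Subgroup.closure_induction with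
  | mem x hx =>
    obtain ⟨v, hv, hx⟩ := hx
    exact h1 v hv x hx
  | one => exact (map_one F1).trans (map_one F2).symm
  | mul x y hx hy ihx ihy =>
    have h3 := map_mul F1 ⟨x, hx⟩ ⟨y, hy⟩
    have h4 := map_mul F2 ⟨x, hx⟩ ⟨y, hy⟩
    exact h3.trans ((congrArg₂ (· * ·) ihx ihy).trans h4.symm)
  | inv x hx ih =>
    have h3 := map_inv F1 ⟨x, hx⟩
    have h4 := map_inv F2 ⟨x, hx⟩
    exact h3.trans ((congrArg (·⁻¹) ih).trans h4.symm)

/-- `G` is the colimit of the subgroups generated by the `A v` for `v` in a clique, and each `A v`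
can be deleted -/
structure DelSys (Λ : SimpleGraph V) (A : V → Subgroup G) : Prop where
  gen : Subgroup.closure {x | ∃ v, x ∈ A v} = ⊤
  del : ∀ v, ∃ ρ : G →* G, (∀ w, w ≠ v → ∀ a ∈ A w, ρ a = a) ∧ (∀ a ∈ A v, ρ a = 1)
  colim : ∀ (H : Type) [Group H] (f : ∀ v, A v →* H),
    (∀ T : Finset V, (∀ v ∈ T, ∀ w ∈ T, v ≠ w → Λ.Adj v w) →
      ∃ g : ↥(Sp A (T : Set V)) →* H, ∀ v ∈ T, ∀ (x : G) (hx : x ∈ A v)
        (hx' : x ∈ Sp A (T : Set V)), g ⟨x, hx'⟩ = f v ⟨x, hx⟩) →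
    ∃ h : G →* H, ∀ v (a : A v), h a = f v a

variable {Λ : SimpleGraph V} {A : V → Subgroup G}

open Classical in
theorem DelSys.dels (h : DelSys Λ A) (D : Finset V) : ∃ ρ : G →* G,
    (∀ w, w ∉ D → ∀ a ∈ A w, ρ a = a) ∧ (∀ w ∈ D, ∀ a ∈ A w, ρ a = 1) := by
  induction D using Finset.induction_on with
  | empty => exact ⟨MonoidHom.id G, fun _ _ _ _ => rfl, fun _ h => absurd h (by simp)⟩
  | insert v D _ ih =>
    obtain ⟨ρ, h1, h2⟩ := ih
    obtain ⟨ρ', h3, h4⟩ := h.del v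
    refine ⟨ρ.comp ρ', ?_, ?_⟩
    · intro w hw a ha
      rw [Finset.mem_insert, not_or] at hw
      show ρ (ρ' a) = a
      rw [h3 w hw.1 a ha, h1 w hw.2 a ha]
    · intro w hw a ha
      show ρ (ρ' a) = 1
      by_cases hwv : w = v
      · subst hwv
        rw [h4 a ha, map_one]
      · rw [h3 w hwv a ha]
        exact h2 w (Finset.mem_of_mem_insert_of_ne hw hwv) a ha

open Classical in
theorem DelSys.fin (hC : ClosedE C) (h : DelSys Λ A)
    (hT : ∀ T : Finset V, (∀ v ∈ T, ∀ w ∈ T, v ≠ w → Λ.Adj v w) → C ↥(Sp A (T : Set V)))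
    (n : ℕ) : ∀ S : Finset V, S.card = n → C ↥(Sp A (S : Set V)) := by
  induction n using Nat.strong_induction_on with
  | _ n ih =>
  intro S hSn
  by_cases hcl : ∀ v ∈ S, ∀ w ∈ S, v ≠ w → Λ.Adj v w
  · exact hT S hcl
  push Not at hcl
  obtain ⟨s, hs, t, ht, hst, hadj⟩ := hcl
  let G1 : Subgroup G := Sp A (S : Set V)
  let Xs : Finset V := S.erase s
  let Ys : Finset V := S.erase t
  let Ks : Finset V := Xs.erase t
  have hXS : (Xs : Set V) ⊆ (S : Set V) := by exact_mod_cast Finset.erase_subset s S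
  have hYS : (Ys : Set V) ⊆ (S : Set V) := by exact_mod_cast Finset.erase_subset t S
  have hKX : (Ks : Set V) ⊆ (Xs : Set V) := by exact_mod_cast Finset.erase_subset t Xs
  have hKY : (Ks : Set V) ⊆ (Ys : Set V) := by
    intro v hv
    have h1 : v ∈ Ks := hv
    show v ∈ Ys
    rw [Finset.mem_erase, Finset.mem_erase] at h1
    exact Finset.mem_erase.2 ⟨h1.1, h1.2.2⟩
  have hX1 : Sp A (Xs : Set V) ≤ G1 := Sp_mono hXS
  have hY1 : Sp A (Ys : Set V) ≤ G1 := Sp_mono hYS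
  have hCX : C ↥(Sp A (Xs : Set V)) := ih _ (by
    rw [← hSn]; exact Finset.card_erase_lt_of_mem hs) Xs rfl
  have hCY : C ↥(Sp A (Ys : Set V)) := ih _ (by
    rw [← hSn]; exact Finset.card_erase_lt_of_mem ht) Ys rfl
  obtain ⟨ρ, r1, r2⟩ := h.del s
  obtain ⟨ρ', r1', r2'⟩ := h.del t
  have hρ : ∀ x ∈ Sp A (S : Set V), ρ x ∈ Sp A (Xs : Set V) := by
    refine Sp_ind (P := fun x => ρ x ∈ Sp A (Xs : Set V)) ?_ ?_ ?_ ?_
    · rw [map_one]; exact one_mem _
    · intro x y hx hy; rw [map_mul]; exact mul_mem hx hy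
    · intro x hx; rw [map_inv]; exact inv_mem hx
    · intro v hv a ha
      by_cases hvs : v = s
      · subst hvs; rw [r2 a ha]; exact one_mem _
      · rw [r1 v hvs a ha]
        exact mem_Sp (show v ∈ (Xs : Set V) from Finset.mem_erase.2 ⟨hvs, hv⟩) ha
  have hρ' : ∀ x ∈ Sp A (S : Set V), ρ' x ∈ Sp A (Ys : Set V) := by
    refine Sp_ind (P := fun x => ρ' x ∈ Sp A (Ys : Set V)) ?_ ?_ ?_ ?_
    · rw [map_one]; exact one_mem _
    · intro x y hx hy; rw [map_mul]; exact mul_mem hx hy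
    · intro x hx; rw [map_inv]; exact inv_mem hx
    · intro v hv a ha
      by_cases hvs : v = t
      · subst hvs; rw [r2' a ha]; exact one_mem _
      · rw [r1' v hvs a ha]
        exact mem_Sp (show v ∈ (Ys : Set V) from Finset.mem_erase.2 ⟨hvs, hv⟩) ha
  have hρi : ∀ x ∈ Sp A (Xs : Set V), ρ x = x := by
    refine Sp_ind (P := fun x => ρ x = x) (map_one _) ?_ ?_ ?_
    · intro x y hx hy; rw [map_mul, hx, hy]
    · intro x hx; rw [map_inv, hx]
    · intro v hv a ha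
      exact r1 v (Finset.ne_of_mem_erase hv) a ha
  have hρi' : ∀ x ∈ Sp A (Ys : Set V), ρ' x = x := by
    refine Sp_ind (P := fun x => ρ' x = x) (map_one _) ?_ ?_ ?_
    · intro x y hx hy; rw [map_mul, hx, hy]
    · intro x hx; rw [map_inv, hx]
    · intro v hv a ha
      exact r1' v (Finset.ne_of_mem_erase hv) a ha
  let f : G1 →* ↥(Sp A (Xs : Set V)) × ↥(Sp A (Ys : Set V)) :=
    ((ρ.comp G1.subtype).codRestrict _ (fun x => hρ x.1 x.2)).prod
      ((ρ'.comp G1.subtype).codRestrict _ (fun x => hρ' x.1 x.2))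
  refine am C hC G1 _ ((Sp A (Xs : Set V)).subgroupOf G1) ((Sp A (Ys : Set V)).subgroupOf G1)
    ((Sp A (Ks : Set V)).subgroupOf G1) ⟨?_, ?_, ?_, ?_⟩ f ?_ ?_ (hC.base.prod _ _ hCX hCY)
  · exact fun x hx => Sp_mono hKX hx
  · exact fun x hx => Sp_mono hKY hx
  · rw [eq_top_iff]
    rintro ⟨x, hx⟩ _
    have key : ∀ y ∈ Sp A (S : Set V), ∃ z ∈ ((Sp A (Xs : Set V)).subgroupOf G1) ⊔
        ((Sp A (Ys : Set V)).subgroupOf G1), (z : G) = y := by
      refine Sp_ind ?_ ?_ ?_ ?_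
      · exact ⟨1, one_mem _, rfl⟩
      · rintro _ _ ⟨z, hz, rfl⟩ ⟨w, hw, rfl⟩
        exact ⟨z * w, mul_mem hz hw, rfl⟩
      · rintro _ ⟨z, hz, rfl⟩
        exact ⟨z⁻¹, inv_mem hz, rfl⟩
      · intro v hv a ha
        by_cases hvs : v = s
        · have h1 : a ∈ Sp A (Ys : Set V) := mem_Sp
            (show v ∈ (Ys : Set V) from Finset.mem_erase.2 ⟨by rw [hvs]; exact hst, hv⟩) ha
          exact ⟨⟨a, hY1 h1⟩, Subgroup.mem_sup_right h1, rfl⟩
        · have h1 : a ∈ Sp A (Xs : Set V) := mem_Sp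
            (show v ∈ (Xs : Set V) from Finset.mem_erase.2 ⟨hvs, hv⟩) ha
          exact ⟨⟨a, hX1 h1⟩, Subgroup.mem_sup_left h1, rfl⟩
    obtain ⟨z, hz, hzx⟩ := key x hx
    have h1 : z = ⟨x, hx⟩ := Subtype.ext hzx
    rwa [← h1]
  · intro H _ f' g' hfg
    have mX : ∀ v, v ≠ s → v ∈ S → ∀ a ∈ A v, a ∈ Sp A (Xs : Set V) := fun v hv hvS a ha =>
      mem_Sp (show v ∈ (Xs : Set V) from Finset.mem_erase.2 ⟨hv, hvS⟩) ha
    have mY : ∀ v, v ≠ t → v ∈ S → ∀ a ∈ A v, a ∈ Sp A (Ys : Set V) := fun v hv hvS a ha =>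
      mem_Sp (show v ∈ (Ys : Set V) from Finset.mem_erase.2 ⟨hv, hvS⟩) ha
    let FX : ↥(Sp A (Xs : Set V)) →* H :=
      f'.comp (Subgroup.subgroupOfEquivOfLe hX1).symm.toMonoidHom
    let FY : ↥(Sp A (Ys : Set V)) →* H :=
      g'.comp (Subgroup.subgroupOfEquivOfLe hY1).symm.toMonoidHom
    have hFXY : ∀ x (hx : x ∈ Sp A (Xs : Set V)) (hy : x ∈ Sp A (Ys : Set V)),
        x ∈ Sp A (Ks : Set V) → FX ⟨x, hx⟩ = FY ⟨x, hy⟩ := fun x hx hy hk =>
      hfg ⟨x, hX1 hx⟩ hk
    let φ : ∀ v, A v →* H := fun v =>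
      if hv : v = s then
        FY.comp ({ toFun := fun a => ⟨a, mY v (by rw [hv]; exact hst) (by rw [hv]; exact hs) a a.2⟩
                   map_one' := rfl
                   map_mul' := fun _ _ => rfl } : A v →* ↥(Sp A (Ys : Set V)))
      else if hvS : v ∈ S then
        FX.comp ({ toFun := fun a => ⟨a, mX v hv hvS a a.2⟩
                   map_one' := rfl
                   map_mul' := fun _ _ => rfl } : A v →* ↥(Sp A (Xs : Set V)))
      else 1
    have φs : ∀ v, v = s → ∀ a (ha : a ∈ A v) (ha' : a ∈ Sp A (Ys : Set V)),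
        φ v ⟨a, ha⟩ = FY ⟨a, ha'⟩ := by
      intro v hv a ha ha'
      simp only [φ, dif_pos hv]
      rfl
    have φX : ∀ v, v ≠ s → v ∈ S → ∀ a (ha : a ∈ A v) (ha' : a ∈ Sp A (Xs : Set V)),
        φ v ⟨a, ha⟩ = FX ⟨a, ha'⟩ := by
      intro v hv hvS a ha ha'
      simp only [φ, dif_neg hv, dif_pos hvS]
      rfl
    have φ0 : ∀ v, v ∉ S → ∀ a, φ v a = 1 := by
      intro v hv a
      have hvs : v ≠ s := by rintro rfl; exact hv hs
      simp only [φ, dif_neg hvs, dif_neg hv]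
      rfl
    obtain ⟨k, hk⟩ := h.colim H φ (by
      intro T hTc
      obtain ⟨δ, d1, d2⟩ := h.dels (T.filter (fun v => v ∉ S))
      have d1' : ∀ v ∈ S, ∀ a ∈ A v, δ a = a := fun v hv a ha =>
        d1 v (by rw [Finset.mem_filter]; exact fun h => h.2 hv) a ha
      have d2' : ∀ v ∈ T, v ∉ S → ∀ a ∈ A v, δ a = 1 := fun v hv hvS a ha =>
        d2 v (Finset.mem_filter.2 ⟨hv, hvS⟩) a ha
      have hδ : ∀ (U : Set V), (∀ v ∈ T, v ∈ S → v ∈ U) → ∀ x ∈ Sp A (T : Set V),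
          δ x ∈ Sp A U := by
        intro U hU
        refine Sp_ind (P := fun x => δ x ∈ Sp A U) ?_ ?_ ?_ ?_
        · rw [map_one]; exact one_mem _
        · intro x y hx hy; rw [map_mul]; exact mul_mem hx hy
        · intro x hx; rw [map_inv]; exact inv_mem hx
        · intro v hv a ha
          by_cases hvS : v ∈ S
          · rw [d1' v hvS a ha]
            exact mem_Sp (hU v hv hvS) ha
          · rw [d2' v hv hvS a ha]; exact one_mem _
      by_cases hsT : s ∈ T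
      · have htT : t ∉ T := fun htT => hadj (hTc s hsT t htT hst)
        have hU : ∀ v ∈ T, v ∈ S → v ∈ (Ys : Set V) := fun v hv hvS =>
          Finset.mem_erase.2 ⟨fun h => htT (h ▸ hv), hvS⟩
        refine ⟨FY.comp ((δ.comp (Subgroup.subtype _)).codRestrict _
          (fun x => hδ (Ys : Set V) hU x.1 x.2)), ?_⟩
        intro v hv x hx hx'
        by_cases hvS : v ∈ S
        · have e1 : δ x = x := d1' v hvS x hx
          have hvt : v ≠ t := fun h => htT (h ▸ hv)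
          have hxY : x ∈ Sp A (Ys : Set V) := mY v hvt hvS x hx
          have e2 : FY ⟨δ x, hδ (Ys : Set V) hU x hx'⟩ = FY ⟨x, hxY⟩ := by
            congr 1
            exact Subtype.ext e1
          refine Eq.trans e2 ?_
          by_cases hvs : v = s
          · exact (φs v hvs x hx hxY).symm
          · rw [φX v hvs hvS x hx (mX v hvs hvS x hx)]
            exact (hFXY x _ _ (mem_Sp (show v ∈ (Ks : Set V) from
              Finset.mem_erase.2 ⟨hvt, Finset.mem_erase.2 ⟨hvs, hvS⟩⟩) hx)).symm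
        · have e1 : δ x = 1 := d2' v hv hvS x hx
          have e2 : FY ⟨δ x, hδ (Ys : Set V) hU x hx'⟩ = FY 1 := by
            congr 1
            exact Subtype.ext e1
          rw [φ0 v hvS]
          exact e2.trans (map_one _)
      · have hU : ∀ v ∈ T, v ∈ S → v ∈ (Xs : Set V) := fun v hv hvS =>
          Finset.mem_erase.2 ⟨fun h => hsT (h ▸ hv), hvS⟩
        refine ⟨FX.comp ((δ.comp (Subgroup.subtype _)).codRestrict _
          (fun x => hδ (Xs : Set V) hU x.1 x.2)), ?_⟩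
        intro v hv x hx hx'
        have hvs : v ≠ s := fun h => hsT (h ▸ hv)
        by_cases hvS : v ∈ S
        · have e1 : δ x = x := d1' v hvS x hx
          have hxX : x ∈ Sp A (Xs : Set V) := mX v hvs hvS x hx
          have e2 : FX ⟨δ x, hδ (Xs : Set V) hU x hx'⟩ = FX ⟨x, hxX⟩ := by
            congr 1
            exact Subtype.ext e1
          exact e2.trans (φX v hvs hvS x hx hxX).symm
        · have e1 : δ x = 1 := d2' v hv hvS x hx
          have e2 : FX ⟨δ x, hδ (Xs : Set V) hU x hx'⟩ = FX 1 := by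
            congr 1
            exact Subtype.ext e1
          rw [φ0 v hvS]
          exact e2.trans (map_one _))
    refine ⟨k.comp G1.subtype, ?_, ?_⟩
    · have key : k.comp (Sp A (Xs : Set V)).subtype = FX := by
        apply Sp_hom_ext
        intro v hv a ha
        have hv1 := Finset.mem_erase.1 (show v ∈ Xs from hv)
        show k a = _
        rw [← φX v hv1.1 hv1.2 a ha (mem_Sp hv ha)]
        exact hk v ⟨a, ha⟩
      rintro ⟨⟨x, hx1⟩, hx⟩
      exact DFunLike.congr_fun key ⟨x, hx⟩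
    · have key : k.comp (Sp A (Ys : Set V)).subtype = FY := by
        apply Sp_hom_ext
        intro v hv a ha
        have hv1 := Finset.mem_erase.1 (show v ∈ Ys from hv)
        show k a = _
        by_cases hvs : v = s
        · rw [← φs v hvs a ha (mem_Sp hv ha)]
          exact hk v ⟨a, ha⟩
        · rw [← hFXY a (mX v hvs hv1.2 a ha) (mem_Sp hv ha) (mem_Sp (show v ∈ (Ks : Set V) from
              Finset.mem_erase.2 ⟨hv1.1, Finset.mem_erase.2 ⟨hvs, hv1.2⟩⟩) ha),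
            ← φX v hvs hv1.2 a ha]
          exact hk v ⟨a, ha⟩
      rintro ⟨⟨x, hx1⟩, hx⟩
      exact DFunLike.congr_fun key ⟨x, hx⟩
  · rintro ⟨a, ha1⟩ ha hfa
    have h1 : ρ a = 1 := congrArg (fun z => (z.1 : G)) hfa
    exact Subtype.ext ((hρi a ha).symm.trans h1)
  · rintro ⟨b, hb1⟩ hb hfb
    have h1 : ρ' b = 1 := congrArg (fun z => (z.2 : G)) hfb
    exact Subtype.ext ((hρi' b hb).symm.trans h1)

open Classical in
/-- **Systems with deletions.** -/
theorem DelSys.mem (hC : ClosedE C) (h : DelSys Λ A)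
    (hT : ∀ T : Finset V, (∀ v ∈ T, ∀ w ∈ T, v ≠ w → Λ.Adj v w) → C ↥(Sp A (T : Set V))) : C G := by
  refine Pool.Agent.Y430.SS.of_directed hC.base G (Finset V)
    (fun i j => ⟨i ∪ j, Finset.subset_union_left, Finset.subset_union_right⟩)
    (fun S => Sp A (S : Set V)) (fun S T h => Sp_mono (by exact_mod_cast h)) ?_
    (fun S => h.fin hC hT S.card S rfl)
  intro x
  have h3 : x ∈ Subgroup.closure {x | ∃ v, x ∈ A v} := by rw [h.gen]; trivial
  induction h3 using Subgroup.closure_induction with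
  | mem x hx =>
    obtain ⟨v, hx⟩ := hx
    exact ⟨{v}, mem_Sp (by simp) hx⟩
  | one => exact ⟨∅, one_mem _⟩
  | mul x y _ _ hx hy =>
    obtain ⟨S, hS⟩ := hx
    obtain ⟨T, hT⟩ := hy
    exact ⟨S ∪ T, mul_mem (Sp_mono (by simp) hS) (Sp_mono (by simp) hT)⟩
  | inv x _ hx =>
    obtain ⟨S, hS⟩ := hx
    exact ⟨S, inv_mem hS⟩

end abs

end Pool.Agent.H65FJ
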