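import Pool.Agent.H65FJ.Crit

/-!
# Kernels on which the group acts by permutations of coordinates up to locally inner automorphisms
-/

set_option autoImplicit false

namespace Pool.Agent.H65FJ

open Pool.Agent.Y110.FJ
open Pool.Agent.Y462.SS (Closed)

variable {C : ∀ (G : Type) [Group G], Prop}

/-- a permutation agrees on a finite set with a permutation of finite order -/
theorem exists_finOrder {Ω : Type} (π : Equiv.Perm Ω) (S : Set Ω) (hS : S.Finite) :
    ∃ (τ : Equiv.Perm Ω) (k : ℕ), 0 < k ∧ τ ^ k = 1 ∧ ∀ s ∈ S, τ s = π s := by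
  classical
  let J : Set Ω := S ∪ π '' S
  have hJ : J.Finite := hS.union (hS.image _)
  have : Finite J := hJ
  have : Fintype J := Fintype.ofFinite J
  let e : {x : J // (x : Ω) ∈ S} ≃ {x : J // (x : Ω) ∈ π '' S} :=
    { toFun := fun x => ⟨⟨π x.1.1, Or.inr ⟨x.1.1, x.2, rfl⟩⟩, ⟨x.1.1, x.2, rfl⟩⟩
      invFun := fun x => ⟨⟨π.symm x.1.1, Or.inl (by
        obtain ⟨s, hs, hsx⟩ := x.2
        rw [← hsx, Equiv.symm_apply_apply]; exact hs)⟩, (by
        obtain ⟨s, hs, hsx⟩ := x.2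
        show π.symm x.1.1 ∈ S
        rw [← hsx, Equiv.symm_apply_apply]; exact hs)⟩
      left_inv := fun x => by
        apply Subtype.ext; apply Subtype.ext
        exact π.symm_apply_apply _
      right_inv := fun x => by
        apply Subtype.ext; apply Subtype.ext
        exact π.apply_symm_apply _ }
  let ρ : Equiv.Perm J := e.extendSubtype
  obtain ⟨k, hk, hρ⟩ := isOfFinOrder_iff_pow_eq_one.1 (isOfFinOrder_of_finite ρ)
  refine ⟨Equiv.Perm.ofSubtype ρ, k, hk, by rw [← map_pow, hρ, map_one], ?_⟩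
  intro s hs
  have h1 : s ∈ J := Or.inl hs
  rw [Equiv.Perm.ofSubtype_apply_of_mem ρ h1]
  have h2 : ρ ⟨s, h1⟩ = (e ⟨⟨s, h1⟩, hs⟩ : J) :=
    Equiv.extendSubtype_apply_of_mem e ⟨s, h1⟩ hs
  rw [h2]
  rfl

theorem conj_comp {N : Type} [Group N] (σ : MulAut N) (n : N) :
    σ * MulAut.conj n = MulAut.conj (σ n) * σ := by
  apply MulEquiv.ext
  intro x
  show σ (n * x * n⁻¹) = σ n * σ x * (σ n)⁻¹
  rw [map_mul, map_mul, map_inv]

theorem conj_mul_pow {N : Type} [Group N] (σ : MulAut N) (n : N) (k : ℕ) :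
    ∃ n', (MulAut.conj n * σ) ^ k = MulAut.conj n' * σ ^ k := by
  induction k with
  | zero => exact ⟨1, by rw [pow_zero, pow_zero, map_one, mul_one]⟩
  | succ k ih =>
    obtain ⟨n', h⟩ := ih
    refine ⟨n' * (σ ^ k) n, ?_⟩
    rw [pow_succ, h, mul_assoc, ← mul_assoc (σ ^ k), conj_comp, map_mul, pow_succ]
    simp only [mul_assoc]

/-- **Kernels with a finitary action of a symmetric group.** -/
theorem finitary (hC : ClosedE C) (G : Type) [Group G] (N : Subgroup G) [N.Normal] (hN : C N)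
    (hQ : C (G ⧸ N)) (Ω : Type) (α : Equiv.Perm Ω →* MulAut N)
    (hα : ∀ n : N, ∃ S : Set Ω, S.Finite ∧ ∀ π : Equiv.Perm Ω, (∀ s ∈ S, π s = s) → α π n = n)
    (h : ∀ g : G, ∃ π : Equiv.Perm Ω, ∀ E : Set N, E.Finite → ∃ n : N, ∀ x ∈ E,
      g * (x : G) * g⁻¹ = ((n * α π x * n⁻¹ : N) : G)) : C G := by
  classical
  refine crit' hC G N hQ (fun g => ⟨1, one_mem N, fun E hEf hEN => ?_⟩)
  rw [one_mul]
  obtain ⟨π, hπ⟩ := h g
  let E' : Set N := {x | (x : G) ∈ E}
  have hE' : E'.Finite := hEf.preimage (Subtype.val_injective.injOn)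
  obtain ⟨n, hn⟩ := hπ E' hE'
  choose S hSf hS using hα
  obtain ⟨τ, k, hk, hτk, hτ⟩ := exists_finOrder π (⋃ x ∈ E', S x) (hE'.biUnion fun x _ => hSf x)
  have hατ : ∀ x ∈ E', α τ x = α π x := by
    intro x hx
    have h1 : α (π⁻¹ * τ) x = x := by
      apply hS x
      intro s hs
      rw [Equiv.Perm.mul_apply, hτ s (Set.mem_biUnion hx hs)]
      exact π.symm_apply_apply s
    rw [map_mul, MulAut.mul_apply, map_inv] at h1
    have h2 := congrArg (α π) h1
    rwa [MulAut.apply_inv_self] at h2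
  obtain ⟨n', hn'⟩ := conj_mul_pow (α τ) n k
  have hle : Subgroup.closure (E ∪ (fun x => g * x * g⁻¹) '' E) ≤ N := SS_le g hEN
  refine realized_fin hC.base g E N hN (Subgroup.inclusion hle) (Subgroup.inclusion_injective hle)
    (MulAut.conj n * α τ) k hk n' ?_ ?_
  · rw [hn', ← map_pow, hτk, map_one, mul_one]
  · intro x y hx hy
    apply Subtype.ext
    have hxN : (x : G) ∈ N := hEN hx
    have h1 := hn ⟨x, hxN⟩ hx
    have h2 : ((Subgroup.inclusion hle y : N) : G) = g * x * g⁻¹ := hy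
    rw [h2]
    have h3 : Subgroup.inclusion hle x = (⟨x, hxN⟩ : N) := rfl
    rw [h3, MulAut.mul_apply, hατ _ hx]
    exact h1

end Pool.Agent.H65FJ
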