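import Pool.Agent.H65FJ.GZ

/-!
# Semidirect products with the infinite cyclic group
-/

set_option autoImplicit false

namespace Pool.Agent.H65FJ

open Pool.Agent.Y110.FJ
open Pool.Agent.Y462.SS (Closed)

variable {C : ∀ (G : Type) [Group G], Prop}

/-- the mapping torus -/
abbrev MT (M : Type) [Group M] (σ : MulAut M) : Type :=
  M ⋊[zpowersHom (MulAut M) σ] Multiplicative ℤ

section mt

variable {M H : Type} [Group M] [Group H] (σ : MulAut M)

/-- the stable letter -/
def st : MT M σ := SemidirectProduct.inr (Multiplicative.ofAdd 1)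

theorem st_zpow (n : ℤ) : (st σ) ^ n = SemidirectProduct.inr (Multiplicative.ofAdd n) := by
  rw [st, ← map_zpow, ← ofAdd_zsmul, smul_eq_mul, mul_one]

theorem st_conj (x : M) : st σ * SemidirectProduct.inl x * (st σ)⁻¹ =
    (SemidirectProduct.inl (σ x) : MT M σ) := by
  rw [st, ← map_inv, ← SemidirectProduct.inl_aut]
  simp

theorem zp_pow (f : M →* H) (u : H) (h : ∀ x, f (σ x) = u * f x * u⁻¹) (n : ℤ) (x : M) :
    f ((σ ^ n) x) = u ^ n * f x * (u ^ n)⁻¹ := by
  induction n using Int.induction_on generalizing x with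
  | zero => simp
  | succ n ih =>
    rw [zpow_add_one, MulAut.mul_apply, ih, h, zpow_add_one]
    group
  | pred n ih =>
    have h1 : ∀ x, f (σ⁻¹ x) = u⁻¹ * f x * u := by
      intro x
      have h2 := h (σ⁻¹ x)
      rw [MulAut.apply_inv_self] at h2
      rw [h2]; group
    rw [zpow_sub_one, MulAut.mul_apply, ih, h1, zpow_sub_one]
    group

theorem mt_lift (f : M →* H) (u : H) (h : ∀ x, f (σ x) = u * f x * u⁻¹) :
    ∃ k : MT M σ →* H, (∀ x, k (SemidirectProduct.inl x) = f x) ∧ k (st σ) = u := by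
  refine ⟨SemidirectProduct.lift f (zpowersHom H u) ?_, ?_, ?_⟩
  · intro n
    apply MonoidHom.ext
    intro x
    exact zp_pow σ f u h (Multiplicative.toAdd n) x
  · intro x
    exact SemidirectProduct.lift_inl _ _ _ _
  · rw [st, SemidirectProduct.lift_inr]
    simp

/-- the mapping torus of a power -/
theorem mt_pow (hC : Closed C) (m : ℕ) (hm : 0 < m) (h : C (MT M (σ ^ m))) : C (MT M σ) := by
  let rh : MT M σ →* Multiplicative ℤ := SemidirectProduct.rightHom
  let K : Subgroup (MT M σ) := (AddSubgroup.toSubgroup (AddSubgroup.zmultiples (m : ℤ))).comap rh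
  have hK : ∀ x : K, ∃ k : ℤ, Multiplicative.toAdd x.1.right = (m : ℤ) * k := by
    rintro ⟨x, hx⟩
    obtain ⟨k, hk⟩ := AddSubgroup.mem_zmultiples_iff.1 (show Multiplicative.toAdd x.right ∈ _ from hx)
    exact ⟨k, by rw [← hk, smul_eq_mul, mul_comm]⟩
  have hfi : K.FiniteIndex := by
    have h1 : (AddSubgroup.zmultiples (m : ℤ)).index ≠ 0 := by
      rw [Int.index_zmultiples]
      simpa using hm.ne'
    have h2 : (AddSubgroup.toSubgroup (AddSubgroup.zmultiples (m : ℤ))).index ≠ 0 := h1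
    refine ⟨?_⟩
    rw [Subgroup.index_comap_of_surjective _ SemidirectProduct.rightHom_surjective]
    exact h2
  refine hC.finiteIndex _ K hfi ?_
  have hm' : (m : ℤ) ≠ 0 := by exact_mod_cast hm.ne'
  have hdiv : ∀ k : ℤ, (m : ℤ) * k / m = k := fun k => Int.mul_ediv_cancel_left k hm'
  let F : K →* MT M (σ ^ m) :=
    { toFun := fun x => ⟨x.1.left, Multiplicative.ofAdd (Multiplicative.toAdd x.1.right / m)⟩
      map_one' := by
        apply SemidirectProduct.ext
        · rfl
        · show Multiplicative.ofAdd ((0 : ℤ) / m) = 1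
          rw [Int.zero_ediv]; rfl
      map_mul' := fun x y => by
        obtain ⟨k, hk⟩ := hK x
        obtain ⟨l, hl⟩ := hK y
        apply SemidirectProduct.ext
        · show x.1.left * (zpowersHom (MulAut M) σ x.1.right) y.1.left =
            x.1.left * (zpowersHom (MulAut M) (σ ^ m)
              (Multiplicative.ofAdd (Multiplicative.toAdd x.1.right / m))) y.1.left
          congr 2
          rw [zpowersHom_apply, zpowersHom_apply, toAdd_ofAdd, hk, hdiv, zpow_mul, zpow_natCast]
        · show Multiplicative.ofAdd (Multiplicative.toAdd (x.1.right * y.1.right) / (m : ℤ)) =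
            Multiplicative.ofAdd (Multiplicative.toAdd x.1.right / m) *
              Multiplicative.ofAdd (Multiplicative.toAdd y.1.right / m)
          rw [toAdd_mul, hk, hl, ← mul_add, hdiv, hdiv, hdiv, ofAdd_add] }
  refine hC.of_injective _ _ F ?_ h
  intro x y hxy
  obtain ⟨k, hk⟩ := hK x
  obtain ⟨l, hl⟩ := hK y
  have h1 : x.1.left = y.1.left := congrArg (fun z => z.left) hxy
  have h2 : Multiplicative.toAdd x.1.right / (m : ℤ) = Multiplicative.toAdd y.1.right / m :=
    congrArg (fun z => Multiplicative.toAdd z.right) hxy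
  rw [hk, hl, hdiv, hdiv] at h2
  apply Subtype.ext
  apply SemidirectProduct.ext h1
  apply Multiplicative.toAdd.injective
  rw [hk, hl, h2]

end mt

section grp

variable {V : Type} {Λ : SimpleGraph V} {A : V → Type} [∀ v, Group (A v)]

/-- the vertex groups in the mapping torus -/
def VG (σ : MulAut (GrP Λ A)) (v : V) : Subgroup (MT (GrP Λ A) σ) :=
  ((SemidirectProduct.inl : GrP Λ A →* MT (GrP Λ A) σ).comp (GrP.of Λ A v)).range

theorem grp_gz (σ : MulAut (GrP Λ A)) (h1 : ∀ v a, ∃ b, σ (GrP.of Λ A v a) = GrP.of Λ A v b)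
    (h2 : ∀ v a, ∃ b, σ⁻¹ (GrP.of Λ A v a) = GrP.of Λ A v b) : GZ Λ (VG σ) (st σ) := by
  have hn : ∀ v, ∀ a ∈ VG σ v, st σ * a * (st σ)⁻¹ ∈ VG σ v := by
    rintro v _ ⟨a, rfl⟩
    obtain ⟨b, hb⟩ := h1 v a
    refine ⟨b, ?_⟩
    show SemidirectProduct.inl (GrP.of Λ A v b) = st σ * SemidirectProduct.inl (GrP.of Λ A v a) *
      (st σ)⁻¹
    rw [st_conj, hb]
  refine ⟨hn, ?_, ?_, ?_, ?_⟩
  · rintro v _ ⟨a, rfl⟩
    obtain ⟨b, hb⟩ := h2 v a
    refine ⟨b, ?_⟩
    show SemidirectProduct.inl (GrP.of Λ A v b) = (st σ)⁻¹ *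
      SemidirectProduct.inl (GrP.of Λ A v a) * st σ
    have h3 := st_conj σ (GrP.of Λ A v b)
    have h4 : σ (GrP.of Λ A v b) = GrP.of Λ A v a := by
      rw [← hb, MulAut.apply_inv_self]
    rw [h4] at h3
    rw [← h3]; group
  · rintro v w hvw _ ⟨a, rfl⟩ _ ⟨b, rfl⟩
    show SemidirectProduct.inl (GrP.of Λ A v a) * SemidirectProduct.inl (GrP.of Λ A w b) =
      SemidirectProduct.inl (GrP.of Λ A w b) * SemidirectProduct.inl (GrP.of Λ A v a)
    rw [← map_mul, ← map_mul, of_comm hvw]
  · rw [eq_top_iff]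
    intro x _
    rw [← SemidirectProduct.inl_left_mul_inr_right x]
    refine mul_mem ?_ ?_
    · refine grp_ind (P := fun y => (SemidirectProduct.inl y : MT (GrP Λ A) σ) ∈
        Subgroup.closure ({x | ∃ v, x ∈ VG σ v} ∪ {st σ})) ?_ ?_ ?_ x.left
      · rw [map_one]; exact one_mem _
      · intro x y hx hy; rw [map_mul]; exact mul_mem hx hy
      · intro v a
        exact Subgroup.subset_closure (Or.inl ⟨v, ⟨a, rfl⟩⟩)
    · have h3 : (SemidirectProduct.inr x.right : MT (GrP Λ A) σ) =
          (st σ) ^ (Multiplicative.toAdd x.right) := by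
        rw [st_zpow]; rfl
      have h4 : st σ ∈ Subgroup.closure ({x | ∃ v, x ∈ VG σ v} ∪ {st σ}) :=
        Subgroup.subset_closure (Set.mem_union_right _ (Set.mem_singleton _))
      rw [h3]
      exact zpow_mem h4 _
  · intro H _ f u hcomm hu
    obtain ⟨k, hk⟩ := exists_lift (Λ := Λ) (A := A) (H := H)
      (fun v => (f v).comp (MonoidHom.rangeRestrict
        ((SemidirectProduct.inl : GrP Λ A →* MT (GrP Λ A) σ).comp (GrP.of Λ A v))))
      (fun v w hvw a b => hcomm v w hvw
        ⟨SemidirectProduct.inl (GrP.of Λ A v a), ⟨a, rfl⟩⟩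
        ⟨SemidirectProduct.inl (GrP.of Λ A w b), ⟨b, rfl⟩⟩)
    have hku : ∀ x, k (σ x) = u * k x * u⁻¹ := by
      have h3 : k.comp σ.toMonoidHom = (MulAut.conj u).toMonoidHom.comp k := by
        apply grp_ext
        intro v a
        show k (σ (GrP.of Λ A v a)) = u * k (GrP.of Λ A v a) * u⁻¹
        obtain ⟨b, hb⟩ := h1 v a
        rw [hb, hk, hk]
        have h4 := hu v ⟨SemidirectProduct.inl (GrP.of Λ A v a), ⟨a, rfl⟩⟩
        refine Eq.trans ?_ h4.symm
        show f v _ = f v _
        congr 1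
        apply Subtype.ext
        show SemidirectProduct.inl (GrP.of Λ A v b) = st σ *
          SemidirectProduct.inl (GrP.of Λ A v a) * (st σ)⁻¹
        rw [st_conj, hb]
      exact fun x => DFunLike.congr_fun h3 x
    obtain ⟨K, hK1, hK2⟩ := mt_lift σ k u hku
    refine ⟨K, ?_, hK2⟩
    rintro v ⟨_, ⟨a, rfl⟩⟩
    show K (SemidirectProduct.inl (GrP.of Λ A v a)) = _
    rw [hK1, hk]
    rfl

end grp

end Pool.Agent.H65FJ
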