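import Pool.Agent.H65FJ.Hyper

/-!
# Graph products with an automorphism which preserves the vertex groups
-/

set_option autoImplicit false

namespace Pool.Agent.H65FJ

open Pool.Agent.Y110.FJ
open Pool.Agent.Y462.SS (Closed)

variable {C : ∀ (G : Type) [Group G], Prop}

/-- `G` is the semidirect product of the graph product of the subgroups `A v` and the infinite cyclic
group generated by `t`, which normalizes all `A v` -/
structure GZ {G V : Type} [Group G] (Λ : SimpleGraph V) (A : V → Subgroup G) (t : G) : Prop where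
  norm : ∀ v, ∀ a ∈ A v, t * a * t⁻¹ ∈ A v
  norm' : ∀ v, ∀ a ∈ A v, t⁻¹ * a * t ∈ A v
  comm : ∀ v w, Λ.Adj v w → ∀ a ∈ A v, ∀ b ∈ A w, a * b = b * a
  gen : Subgroup.closure ({x | ∃ v, x ∈ A v} ∪ {t}) = ⊤
  univ : ∀ (H : Type) [Group H] (f : ∀ v, A v →* H) (u : H),
    (∀ v w, Λ.Adj v w → ∀ (a : A v) (b : A w), f v a * f w b = f w b * f v a) →
    (∀ v (a : A v), u * f v a * u⁻¹ = f v ⟨t * a * t⁻¹, norm v a a.2⟩) →
    ∃ h : G →* H, (∀ v (a : A v), h a = f v a) ∧ h t = u

section gz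

variable {G V : Type} [Group G] {Λ : SimpleGraph V} {A : V → Subgroup G} {t : G}

/-- the subgroup generated by `t` and the `A v`, `v ∈ S` -/
def GS (A : V → Subgroup G) (t : G) (S : Set V) : Subgroup G :=
  Subgroup.closure ({x | ∃ v ∈ S, x ∈ A v} ∪ {t})

theorem A_le {S : Set V} {v : V} (hv : v ∈ S) {a : G} (ha : a ∈ A v) : a ∈ GS A t S :=
  Subgroup.subset_closure (Or.inl ⟨v, hv, ha⟩)

theorem t_mem (S : Set V) : t ∈ GS A t S := Subgroup.subset_closure (Or.inr rfl)

theorem GS_mono {S T : Set V} (h : S ⊆ T) : GS A t S ≤ GS A t T := by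
  apply Subgroup.closure_mono
  rintro x (⟨v, hv, hx⟩ | hx)
  · exact Or.inl ⟨v, h hv, hx⟩
  · exact Or.inr hx

theorem GS_ind {S : Set V} {P : G → Prop} (h1 : P 1) (hmul : ∀ x y, P x → P y → P (x * y))
    (hinv : ∀ x, P x → P x⁻¹) (hA : ∀ v ∈ S, ∀ a ∈ A v, P a) (ht : P t) :
    ∀ x ∈ GS A t S, P x := by
  intro x hx
  induction hx using Subgroup.closure_induction with
  | mem x hx =>
    rcases hx with ⟨v, hv, hx⟩ | hx
    · exact hA v hv x hx
    · rw [Set.mem_singleton_iff.1 hx]; exact ht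
  | one => exact h1
  | mul x y _ _ hx hy => exact hmul x y hx hy
  | inv x _ hx => exact hinv x hx

theorem GS_hom_ext {S : Set V} {H : Type} [Group H] (F1 F2 : ↥(GS A t S) →* H)
    (h1 : ∀ v (hv : v ∈ S) (a : G) (ha : a ∈ A v), F1 ⟨a, A_le hv ha⟩ = F2 ⟨a, A_le hv ha⟩)
    (h2 : F1 ⟨t, t_mem S⟩ = F2 ⟨t, t_mem S⟩) : F1 = F2 := by
  apply MonoidHom.ext
  rintro ⟨x, hx⟩
  unfold GS at hx
  induction hx using Subgroup.closure_induction with
  | mem x hx =>
    rcases hx with ⟨v, hv, hx⟩ | hx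
    · exact h1 v hv x hx
    · have h3 : x = t := hx
      subst h3
      exact h2
  | one => exact (map_one F1).trans (map_one F2).symm
  | mul x y hx hy ihx ihy =>
    have h3 := map_mul F1 ⟨x, hx⟩ ⟨y, hy⟩
    have h4 := map_mul F2 ⟨x, hx⟩ ⟨y, hy⟩
    exact h3.trans ((congrArg₂ (· * ·) ihx ihy).trans h4.symm)
  | inv x hx ih =>
    have h3 := map_inv F1 ⟨x, hx⟩
    have h4 := map_inv F2 ⟨x, hx⟩
    exact h3.trans ((congrArg (·⁻¹) ih).trans h4.symm)

open Classical in
/-- the retractions -/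
theorem retr (h : GZ Λ A t) (S : Set V) : ∃ r : G →* G, (∀ v ∈ S, ∀ a ∈ A v, r a = a) ∧
    (∀ v, v ∉ S → ∀ a ∈ A v, r a = 1) ∧ r t = t ∧ (∀ x, r x ∈ GS A t S) ∧
    ∀ x ∈ GS A t S, r x = x := by
  obtain ⟨r, h1, h2⟩ := h.univ G (fun v => if v ∈ S then (A v).subtype else 1) t (by
      intro v w hvw a b
      by_cases hv : v ∈ S
      · by_cases hw : w ∈ S
        · simp only [if_pos hv, if_pos hw]
          exact h.comm v w hvw a a.2 b b.2
        · simp [if_pos hv, if_neg hw]
      · simp [if_neg hv]) (by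
      intro v a
      by_cases hv : v ∈ S
      · simp only [if_pos hv]; rfl
      · simp [if_neg hv])
  have r1 : ∀ v ∈ S, ∀ a ∈ A v, r a = a := by
    intro v hv a ha
    have := h1 v ⟨a, ha⟩
    simpa [if_pos hv] using this
  have r2 : ∀ v, v ∉ S → ∀ a ∈ A v, r a = 1 := by
    intro v hv a ha
    have := h1 v ⟨a, ha⟩
    simpa [if_neg hv] using this
  have hgen : ∀ x : G, x ∈ GS A t Set.univ := by
    intro x
    have h3 : x ∈ Subgroup.closure ({x | ∃ v, x ∈ A v} ∪ {t}) := by rw [h.gen]; trivial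
    have h4 : ({x | ∃ v, x ∈ A v} ∪ {t} : Set G) ⊆ {x | ∃ v ∈ Set.univ, x ∈ A v} ∪ {t} := by
      rintro y (⟨v, hy⟩ | hy)
      · exact Or.inl ⟨v, Set.mem_univ v, hy⟩
      · exact Or.inr hy
    exact Subgroup.closure_mono h4 h3
  refine ⟨r, r1, r2, h2, fun x => ?_, ?_⟩
  · refine GS_ind (P := fun x => r x ∈ GS A t S) ?_ ?_ ?_ ?_ ?_ x (hgen x)
    · rw [map_one]; exact one_mem _
    · intro x y hx hy; rw [map_mul]; exact mul_mem hx hy
    · intro x hx; rw [map_inv]; exact inv_mem hx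
    · intro v _ a ha
      by_cases hv : v ∈ S
      · rw [r1 v hv a ha]; exact A_le hv ha
      · rw [r2 v hv a ha]; exact one_mem _
    · rw [h2]; exact t_mem _
  · refine GS_ind (P := fun x => r x = x) (map_one _) ?_ ?_ r1 h2
    · intro x y hx hy; rw [map_mul, hx, hy]
    · intro x hx; rw [map_inv, hx]

/-- the decomposition of `GS (insert v L)` for `L` in the link of `v` -/
theorem decomp (h : GZ Λ A t) (v : V) (L : Set V) (hL : ∀ w ∈ L, Λ.Adj w v) (x : G)
    (hx : x ∈ GS A t (insert v L)) : ∃ y ∈ GS A t L, ∃ a ∈ A v, x = y * a := by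
  have hn : ∀ y ∈ GS A t L, ∀ a ∈ A v, y * a * y⁻¹ ∈ A v ∧ y⁻¹ * a * y ∈ A v := by
    refine GS_ind (P := fun y => ∀ a ∈ A v, y * a * y⁻¹ ∈ A v ∧ y⁻¹ * a * y ∈ A v) ?_ ?_ ?_ ?_ ?_
    · intro a ha; simpa using ha
    · intro y z hy hz a ha
      constructor
      · have h1 := (hy _ (hz a ha).1).1
        have h2 : y * (z * a * z⁻¹) * y⁻¹ = y * z * a * (y * z)⁻¹ := by group
        rwa [h2] at h1
      · have h1 := (hz _ (hy a ha).2).2
        have h2 : z⁻¹ * (y⁻¹ * a * y) * z = (y * z)⁻¹ * a * (y * z) := by group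
        rwa [h2] at h1
    · intro y hy a ha
      rw [inv_inv]
      exact ⟨(hy a ha).2, (hy a ha).1⟩
    · intro w hw b hb a ha
      have h1 := h.comm w v (hL w hw) b hb a ha
      have h2 : b * a * b⁻¹ = a := by rw [h1, mul_inv_cancel_right]
      have h3 : b⁻¹ * a * b = a := by rw [mul_assoc, ← h1, inv_mul_cancel_left]
      rw [h2, h3]
      exact ⟨ha, ha⟩
    · intro a ha
      exact ⟨h.norm v a ha, h.norm' v a ha⟩
  revert x
  refine GS_ind (P := fun x => ∃ y ∈ GS A t L, ∃ a ∈ A v, x = y * a) ?_ ?_ ?_ ?_ ?_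
  · exact ⟨1, one_mem _, 1, one_mem _, (mul_one 1).symm⟩
  · rintro _ _ ⟨y, hy, a, ha, rfl⟩ ⟨z, hz, b, hb, rfl⟩
    refine ⟨y * z, mul_mem hy hz, z⁻¹ * a * z * b, mul_mem (hn z hz a ha).2 hb, ?_⟩
    group
  · rintro _ ⟨y, hy, a, ha, rfl⟩
    refine ⟨y⁻¹, inv_mem hy, y * a⁻¹ * y⁻¹, (hn y hy _ (inv_mem ha)).1, ?_⟩
    group
  · intro w hw a ha
    rcases Set.mem_insert_iff.1 hw with rfl | hw
    · exact ⟨1, one_mem _, a, ha, (one_mul a).symm⟩
    · exact ⟨a, A_le hw ha, 1, one_mem _, (mul_one a).symm⟩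
  · exact ⟨t, t_mem _, 1, one_mem _, (mul_one t).symm⟩

open Classical in
theorem gz_fin (hC : ClosedE C) (h : GZ Λ A t) (hv : ∀ v, C ↥(GS A t {v})) (S : Finset V) :
    C ↥(GS A t (S : Set V)) := by
  induction S using Finset.induction_on with
  | empty =>
    have h1 : GS A t ((∅ : Finset V) : Set V) = Subgroup.zpowers t := by
      rw [GS, Subgroup.zpowers_eq_closure]
      congr 1
      ext x
      simp
    exact of_eq h1.symm (cyc hC.base G t)
  | insert v S hvS ih =>
    let L : Set V := {w | w ∈ S ∧ Λ.Adj w v}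
    have hLS : L ⊆ (S : Set V) := fun w hw => hw.1
    have hcoe : ((insert v S : Finset V) : Set V) = insert v (S : Set V) := by simp
    refine of_eq (show GS A t (insert v (S : Set V)) = _ by rw [hcoe]) ?_
    let G1 : Subgroup G := GS A t (insert v (S : Set V))
    have hSG : GS A t (S : Set V) ≤ G1 := GS_mono (Set.subset_insert _ _)
    have hLv : GS A t (insert v L) ≤ G1 := GS_mono (Set.insert_subset_insert hLS)
    have hLl : GS A t L ≤ GS A t (S : Set V) := GS_mono hLS
    have hLv' : GS A t L ≤ GS A t (insert v L) := GS_mono (Set.subset_insert _ _)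
    obtain ⟨r, r1, r2, r3, r4, r5⟩ := retr h (S : Set V)
    obtain ⟨ρ, ρ1, ρ2, ρ3, ρ4, ρ5⟩ := retr h ({v} : Set V)
    let f : G1 →* ↥(GS A t (S : Set V)) × ↥(GS A t {v}) :=
      ((r.codRestrict _ r4).comp G1.subtype).prod ((ρ.codRestrict _ ρ4).comp G1.subtype)
    have hf1 : ∀ x : G1, f x = 1 → r x = 1 := fun x hx => congrArg (fun z => (z.1 : G)) hx
    have hf2 : ∀ x : G1, f x = 1 → ρ x = 1 := fun x hx => congrArg (fun z => (z.2 : G)) hx
    refine am C hC G1 _ ((GS A t (S : Set V)).subgroupOf G1)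
      ((GS A t (insert v L)).subgroupOf G1) ((GS A t L).subgroupOf G1) ⟨?_, ?_, ?_, ?_⟩ f ?_ ?_
      (hC.base.prod _ _ ih (hv v))
    · exact fun x hx => hLl hx
    · exact fun x hx => hLv' hx
    · rw [eq_top_iff]
      rintro ⟨x, hx⟩ _
      have key : ∀ y ∈ GS A t (insert v (S : Set V)), ∃ z ∈ ((GS A t (S : Set V)).subgroupOf G1) ⊔
          ((GS A t (insert v L)).subgroupOf G1), (z : G) = y := by
        refine GS_ind ?_ ?_ ?_ ?_ ?_
        · exact ⟨1, one_mem _, rfl⟩
        · rintro _ _ ⟨z, hz, rfl⟩ ⟨w, hw, rfl⟩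
          exact ⟨z * w, mul_mem hz hw, rfl⟩
        · rintro _ ⟨z, hz, rfl⟩
          exact ⟨z⁻¹, inv_mem hz, rfl⟩
        · intro w hw a ha
          rcases Set.mem_insert_iff.1 hw with rfl | hw
          · have h1 : a ∈ GS A t (insert w L) := A_le (Set.mem_insert _ _) ha
            exact ⟨⟨a, hLv h1⟩, Subgroup.mem_sup_right h1, rfl⟩
          · have h1 : a ∈ GS A t (S : Set V) := A_le hw ha
            exact ⟨⟨a, hSG h1⟩, Subgroup.mem_sup_left h1, rfl⟩
        · exact ⟨⟨t, t_mem _⟩, Subgroup.mem_sup_left (t_mem _), rfl⟩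
      obtain ⟨z, hz, hzx⟩ := key x hx
      have h1 : z = ⟨x, hx⟩ := Subtype.ext hzx
      rwa [← h1]
    · intro H _ f' g' hfg
      have m1 : ∀ w ∈ S, ∀ a ∈ A w, a ∈ GS A t (S : Set V) := fun w hw a ha => A_le hw ha
      have m2 : ∀ a ∈ A v, a ∈ GS A t (insert v L) := fun a ha => A_le (Set.mem_insert _ _) ha
      let φ : ∀ w, A w →* H := fun w =>
        if hw : w = v then
          g'.comp ({ toFun := fun a => ⟨⟨a, hLv (m2 a (hw ▸ a.2))⟩, m2 a (hw ▸ a.2)⟩
                     map_one' := rfl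
                     map_mul' := fun _ _ => rfl } : A w →* ↥((GS A t (insert v L)).subgroupOf G1))
        else if hw : w ∈ S then
          f'.comp ({ toFun := fun a => ⟨⟨a, hSG (m1 w hw a a.2)⟩, m1 w hw a a.2⟩
                     map_one' := rfl
                     map_mul' := fun _ _ => rfl } : A w →* ↥((GS A t (S : Set V)).subgroupOf G1))
        else 1
      have hφv : ∀ a (ha : a ∈ A v), φ v ⟨a, ha⟩ = g' ⟨⟨a, hLv (m2 a ha)⟩, m2 a ha⟩ := by
        intro a ha
        simp only [φ, dif_pos]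
        rfl
      have hne : ∀ w ∈ S, w ≠ v := fun w hw h1 => hvS (h1 ▸ hw)
      have hφS : ∀ w (hw : w ∈ S) a (ha : a ∈ A w), φ w ⟨a, ha⟩ =
          f' ⟨⟨a, hSG (m1 w hw a ha)⟩, m1 w hw a ha⟩ := by
        intro w hw a ha
        simp only [φ, dif_neg (hne w hw), dif_pos hw]
        rfl
      have hφ0 : ∀ w, w ≠ v → w ∉ S → ∀ a, φ w a = 1 := by
        intro w hw hw' a
        simp only [φ, dif_neg hw, dif_neg hw']
        rfl
      have hLf : ∀ x (hx : x ∈ GS A t L), f' ⟨⟨x, hSG (hLl hx)⟩, hLl hx⟩ =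
          g' ⟨⟨x, hLv (hLv' hx)⟩, hLv' hx⟩ := fun x hx => hfg ⟨x, hSG (hLl hx)⟩ hx
      have hvL : ∀ w ∈ S, Λ.Adj w v → ∀ a (ha : a ∈ A w) (b : A v), φ w ⟨a, ha⟩ * φ v b =
          φ v b * φ w ⟨a, ha⟩ := by
        rintro w hw hwv a ha ⟨b, hb⟩
        have h1 : a ∈ GS A t L := A_le (show w ∈ L from ⟨hw, hwv⟩) ha
        rw [hφS w hw a ha, hφv b hb]
        have h2 := hLf a h1
        rw [show f' ⟨⟨a, hSG (m1 w hw a ha)⟩, m1 w hw a ha⟩ = g' ⟨⟨a, hLv (hLv' h1)⟩, hLv' h1⟩ from h2]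
        rw [← map_mul, ← map_mul]
        congr 1
        apply Subtype.ext
        apply Subtype.ext
        exact h.comm w v hwv a ha b hb
      obtain ⟨k, hk1, hk2⟩ := h.univ H φ (f' ⟨⟨t, t_mem _⟩, t_mem _⟩) (by
        intro w w' hww' a b
        by_cases hw : w = v
        · subst hw
          by_cases hw' : w' ∈ S
          · exact (hvL w' hw' hww'.symm b b.2 a).symm
          · have h1 : w' ≠ w := fun h1 => by rw [h1] at hww'; exact Λ.loopless.irrefl _ hww'
            rw [hφ0 w' h1 hw' b, mul_one, one_mul]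
        · by_cases hwS : w ∈ S
          · by_cases hw' : w' = v
            · subst hw'
              exact hvL w hwS hww' a a.2 b
            · by_cases hwS' : w' ∈ S
              · rw [hφS w hwS a a.2, hφS w' hwS' b b.2, ← map_mul, ← map_mul]
                congr 1
                apply Subtype.ext
                apply Subtype.ext
                exact h.comm w w' hww' a a.2 b b.2
              · rw [hφ0 w' hw' hwS' b, mul_one, one_mul]
          · rw [hφ0 w hw hwS a, mul_one, one_mul]) (by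
        intro w a
        by_cases hw : w = v
        · subst hw
          have h1 := hLf t (t_mem L)
          rw [show f' ⟨⟨t, t_mem _⟩, t_mem _⟩ = g' ⟨⟨t, hLv (hLv' (t_mem L))⟩, hLv' (t_mem L)⟩ from h1]
          obtain ⟨a, ha⟩ := a
          rw [hφv a ha, hφv _ (h.norm w a ha), ← map_inv, ← map_mul, ← map_mul]
          rfl
        · by_cases hwS : w ∈ S
          · obtain ⟨a, ha⟩ := a
            rw [hφS w hwS a ha, hφS w hwS _ (h.norm w a ha), ← map_inv, ← map_mul, ← map_mul]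
            rfl
          · rw [hφ0 w hw hwS a, hφ0 w hw hwS, mul_one, mul_inv_cancel])
      refine ⟨k.comp G1.subtype, ?_, ?_⟩
      · have key : k.comp (GS A t (S : Set V)).subtype =
            f'.comp (Subgroup.subgroupOfEquivOfLe hSG).symm.toMonoidHom := by
          apply GS_hom_ext
          · intro w hw a ha
            show k a = f' ⟨⟨a, hSG (m1 w hw a ha)⟩, m1 w hw a ha⟩
            rw [← hφS w hw a ha]
            exact hk1 w ⟨a, ha⟩
          · exact hk2
        rintro ⟨⟨x, hx1⟩, hx⟩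
        exact DFunLike.congr_fun key ⟨x, hx⟩
      · have key : k.comp (GS A t (insert v L)).subtype =
            g'.comp (Subgroup.subgroupOfEquivOfLe hLv).symm.toMonoidHom := by
          apply GS_hom_ext
          · intro w hw a ha
            rcases Set.mem_insert_iff.1 hw with rfl | hwL
            · show k a = g' ⟨⟨a, hLv (m2 a ha)⟩, m2 a ha⟩
              rw [← hφv a ha]
              exact hk1 _ ⟨a, ha⟩
            · have h1 : a ∈ GS A t L := A_le hwL ha
              show k a = g' ⟨⟨a, hLv (hLv' h1)⟩, hLv' h1⟩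
              rw [← hLf a h1]
              have h2 := hφS w hwL.1 a ha
              rw [show f' ⟨⟨a, hSG (hLl h1)⟩, hLl h1⟩ = φ w ⟨a, ha⟩ from h2.symm]
              exact hk1 w ⟨a, ha⟩
          · show k t = g' ⟨⟨t, hLv (hLv' (t_mem L))⟩, hLv' (t_mem L)⟩
            rw [← hLf t (t_mem L)]
            exact hk2
        rintro ⟨⟨x, hx1⟩, hx⟩
        exact DFunLike.congr_fun key ⟨x, hx⟩
    · rintro ⟨a, ha1⟩ ha hfa
      have h1 := hf1 _ hfa
      exact Subtype.ext ((r5 a ha).symm.trans h1)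
    · rintro ⟨b, hb1⟩ hb hfb
      have h1 := hf1 _ hfb
      have h2 := hf2 _ hfb
      obtain ⟨y, hy, a, ha, hya⟩ := decomp h v L (fun w hw => hw.2) b hb
      have h3 : r a = 1 := r2 v (fun hvS' => hvS hvS') a ha
      have h4 : r b = y := by rw [hya, map_mul, h3, mul_one, r5 y (hLl hy)]
      have h5 : y = 1 := by rw [← h4]; exact h1
      have h6 : ρ b = a := by rw [hya, h5, one_mul, ρ1 v (Set.mem_singleton v) a ha]
      have h7 : a = 1 := by rw [← h6]; exact h2
      apply Subtype.ext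
      show b = 1
      rw [hya, h5, h7, one_mul]

open Classical in
/-- graph products with an automorphism which preserves the vertex groups -/
theorem gz (hC : ClosedE C) (h : GZ Λ A t) (hv : ∀ v, C ↥(GS A t {v})) : C G := by
  refine Pool.Agent.Y430.SS.of_directed hC.base G (Finset V)
    (fun i j => ⟨i ∪ j, Finset.subset_union_left, Finset.subset_union_right⟩)
    (fun S => GS A t (S : Set V)) (fun S T h => GS_mono (by exact_mod_cast h)) ?_
    (fun S => gz_fin hC h hv S)
  intro x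
  have h3 : x ∈ Subgroup.closure ({x | ∃ v, x ∈ A v} ∪ {t}) := by rw [h.gen]; trivial
  induction h3 using Subgroup.closure_induction with
  | mem x hx =>
    rcases hx with ⟨v, hx⟩ | hx
    · exact ⟨{v}, A_le (by simp) hx⟩
    · exact ⟨∅, by rw [Set.mem_singleton_iff.1 hx]; exact t_mem _⟩
  | one => exact ⟨∅, one_mem _⟩
  | mul x y _ _ hx hy =>
    obtain ⟨S, hS⟩ := hx
    obtain ⟨T, hT⟩ := hy
    exact ⟨S ∪ T, mul_mem (GS_mono (by simp) hS) (GS_mono (by simp) hT)⟩
  | inv x _ hx =>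
    obtain ⟨S, hS⟩ := hx
    exact ⟨S, inv_mem hS⟩

end gz

/-! ### graph products -/

section grp

variable {V : Type} {Λ : SimpleGraph V} {A : V → Type} [∀ v, Group (A v)]

theorem of_comm {v w : V} (h : Λ.Adj v w) (a : A v) (b : A w) :
    GrP.of Λ A v a * GrP.of Λ A w b = GrP.of Λ A w b * GrP.of Λ A v a := by
  have h1 : (QuotientGroup.mk' (Subgroup.normalClosure (commRel Λ A)))
      (Monoid.CoprodI.of a * Monoid.CoprodI.of b * (Monoid.CoprodI.of a)⁻¹ *
        (Monoid.CoprodI.of b)⁻¹) = 1 :=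
    (QuotientGroup.eq_one_iff _).2 (Subgroup.subset_normalClosure ⟨v, w, a, b, h, rfl⟩)
  rw [map_mul, map_mul, map_mul, map_inv, map_inv] at h1
  have h2 : GrP.of Λ A v a * GrP.of Λ A w b * (GrP.of Λ A v a)⁻¹ * (GrP.of Λ A w b)⁻¹ = 1 := h1
  rw [mul_inv_eq_one, mul_inv_eq_iff_eq_mul] at h2
  exact h2

/-- the universal property of the graph product -/
theorem exists_lift {H : Type} [Group H] (f : ∀ v, A v →* H)
    (hf : ∀ v w, Λ.Adj v w → ∀ (a : A v) (b : A w), f v a * f w b = f w b * f v a) :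
    ∃ h : GrP Λ A →* H, ∀ v a, h (GrP.of Λ A v a) = f v a := by
  refine ⟨QuotientGroup.lift (Subgroup.normalClosure (commRel Λ A)) (Monoid.CoprodI.lift f) ?_, ?_⟩
  · have h1 : Subgroup.normalClosure (commRel Λ A) ≤ (Monoid.CoprodI.lift f).ker := by
      apply Subgroup.normalClosure_le_normal
      rintro _ ⟨v, w, a, b, hvw, rfl⟩
      show Monoid.CoprodI.lift f _ = 1
      rw [map_mul, map_mul, map_mul, map_inv, map_inv, Monoid.CoprodI.lift_of,
        Monoid.CoprodI.lift_of, mul_inv_eq_one, mul_inv_eq_iff_eq_mul]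
      exact hf v w hvw a b
    exact fun x hx => h1 hx
  · intro v a
    show Monoid.CoprodI.lift f (Monoid.CoprodI.of a) = f v a
    exact Monoid.CoprodI.lift_of f a

theorem grp_ind {P : GrP Λ A → Prop} (h1 : P 1) (hmul : ∀ x y, P x → P y → P (x * y))
    (hof : ∀ v a, P (GrP.of Λ A v a)) (x : GrP Λ A) : P x := by
  obtain ⟨y, rfl⟩ := QuotientGroup.mk_surjective x
  induction y using Monoid.CoprodI.induction_on with
  | one => exact h1
  | of v a => exact hof v a
  | mul x y hx hy => exact hmul _ _ hx hy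

theorem grp_ext {H : Type} [Group H] {f g : GrP Λ A →* H}
    (h : ∀ v a, f (GrP.of Λ A v a) = g (GrP.of Λ A v a)) : f = g := by
  apply MonoidHom.ext
  intro x
  refine grp_ind (P := fun x => f x = g x) ?_ ?_ h x
  · rw [map_one, map_one]
  · intro x y hx hy; rw [map_mul, map_mul, hx, hy]

end grp

end Pool.Agent.H65FJ
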