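import Pool.Agent.H65FJ.Crit

/-!
# Locally finite kernels and ascending series of normal subgroups
-/

set_option autoImplicit false

namespace Pool.Agent.H65FJ

open Pool.Agent.Y110.FJ
open Pool.Agent.Y462.SS (Closed)

variable {C : ∀ (G : Type) [Group G], Prop}

/-- an isomorphism of subgroups of a finite group is inner in a finite group -/
theorem finite_inner (F : Type) [Group F] [Finite F] (A B : Subgroup F) (φ : A ≃* B) :
    ∃ p : Equiv.Perm F, ∀ a : A, MulAction.toPermHom Fᵐᵒᵖ F (MulOpposite.op ((φ a : F)⁻¹)) =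
      p * MulAction.toPermHom Fᵐᵒᵖ F (MulOpposite.op ((a : F)⁻¹)) * p⁻¹ := by
  classical
  have hcard : Nat.card (F ⧸ A) = Nat.card (F ⧸ B) := by
    have h1 := A.card_eq_card_quotient_mul_card_subgroup
    have h2 := B.card_eq_card_quotient_mul_card_subgroup
    have h3 : Nat.card A = Nat.card B := Nat.card_congr φ.toEquiv
    rw [h1, h3] at h2
    exact Nat.eq_of_mul_eq_mul_right Nat.card_pos h2
  obtain ⟨c⟩ : Nonempty ((F ⧸ A) ≃ (F ⧸ B)) := by
    exact ⟨(Finite.equivFinOfCardEq hcard).trans (Finite.equivFin (F ⧸ B)).symm⟩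
  have hm : ∀ y : F, ((QuotientGroup.mk y : F ⧸ A).out)⁻¹ * y ∈ A := fun y =>
    QuotientGroup.eq.1 (QuotientGroup.out_eq' (QuotientGroup.mk y : F ⧸ A))
  let p0 : F → F := fun y => (c (QuotientGroup.mk y)).out *
    (φ ⟨((QuotientGroup.mk y : F ⧸ A).out)⁻¹ * y, hm y⟩ : B)
  have hp0 : ∀ y, (QuotientGroup.mk (p0 y) : F ⧸ B) = c (QuotientGroup.mk y) := by
    intro y
    show (QuotientGroup.mk ((c (QuotientGroup.mk y)).out * _) : F ⧸ B) = _
    rw [QuotientGroup.mk_mul_of_mem _ (SetLike.coe_mem _), QuotientGroup.out_eq']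
  have hinj : Function.Injective p0 := by
    intro y y' h
    have h1 : (QuotientGroup.mk y : F ⧸ A) = QuotientGroup.mk y' := by
      apply c.injective
      rw [← hp0, ← hp0, h]
    have h2 : (c (QuotientGroup.mk y)).out = (c (QuotientGroup.mk y')).out := by rw [h1]
    have h3 : (φ ⟨((QuotientGroup.mk y : F ⧸ A).out)⁻¹ * y, hm y⟩ : F) =
        (φ ⟨((QuotientGroup.mk y' : F ⧸ A).out)⁻¹ * y', hm y'⟩ : F) := by
      have h4 : (c (QuotientGroup.mk y)).out *
        ((φ ⟨((QuotientGroup.mk y : F ⧸ A).out)⁻¹ * y, hm y⟩ : B) : F) =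
        (c (QuotientGroup.mk y')).out *
        ((φ ⟨((QuotientGroup.mk y' : F ⧸ A).out)⁻¹ * y', hm y'⟩ : B) : F) := h
      rw [h2] at h4
      exact mul_left_cancel h4
    have h5 := φ.injective (Subtype.ext h3)
    have h6 : ((QuotientGroup.mk y : F ⧸ A).out)⁻¹ * y =
      ((QuotientGroup.mk y' : F ⧸ A).out)⁻¹ * y' := congrArg Subtype.val h5
    rw [h1] at h6
    exact mul_left_cancel h6
  let p : Equiv.Perm F := Equiv.ofBijective p0 (Finite.injective_iff_bijective.1 hinj)
  refine ⟨p, fun a => ?_⟩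
  rw [eq_mul_inv_iff_mul_eq]
  apply Equiv.ext
  intro y
  show p0 y * (φ a : F)⁻¹ = p0 (y * (a : F)⁻¹)
  have h1 : (QuotientGroup.mk (y * (a : F)⁻¹) : F ⧸ A) = QuotientGroup.mk y :=
    QuotientGroup.mk_mul_of_mem _ (inv_mem a.2)
  have h2 : (⟨((QuotientGroup.mk (y * (a : F)⁻¹) : F ⧸ A).out)⁻¹ * (y * (a : F)⁻¹), hm _⟩ : A) =
      ⟨((QuotientGroup.mk y : F ⧸ A).out)⁻¹ * y, hm y⟩ * a⁻¹ := by
    apply Subtype.ext
    show ((QuotientGroup.mk (y * (a : F)⁻¹) : F ⧸ A).out)⁻¹ * (y * (a : F)⁻¹) =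
      ((QuotientGroup.mk y : F ⧸ A).out)⁻¹ * y * (a : F)⁻¹
    rw [h1, mul_assoc]
  show (c (QuotientGroup.mk y)).out * ((φ ⟨((QuotientGroup.mk y : F ⧸ A).out)⁻¹ * y, hm y⟩ : B) : F) *
    (φ a : F)⁻¹ = (c (QuotientGroup.mk (y * (a : F)⁻¹))).out *
    ((φ ⟨((QuotientGroup.mk (y * (a : F)⁻¹) : F ⧸ A).out)⁻¹ * (y * (a : F)⁻¹), hm _⟩ : B) : F)
  rw [h2, map_mul, map_inv, h1]
  simp only [Subgroup.coe_mul, Subgroup.coe_inv, mul_assoc]

/-- **Locally finite kernels.** -/
theorem lf_ext (hC : ClosedE C) (G : Type) [Group G] (N : Subgroup G) [N.Normal]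
    (hN : ∀ s : Finset N, Finite (Subgroup.closure (s : Set N))) (hQ : C (G ⧸ N)) : C G := by
  classical
  refine crit' hC G N hQ (fun g => ⟨1, one_mem N, fun E hEf hEN => ?_⟩)
  rw [one_mul]
  have hfin : Finite (SS g E) := by
    have h1 : (E ∪ (fun x => g * x * g⁻¹) '' E).Finite := hEf.union (hEf.image _)
    have h2 : (E ∪ (fun x => g * x * g⁻¹) '' E) ⊆ N := by
      refine Set.union_subset hEN ?_
      rintro _ ⟨x, hx, rfl⟩
      exact ‹N.Normal›.conj_mem x (hEN hx) g
    let s : Finset N := (h1.preimage (Subtype.val_injective (p := (· ∈ N))).injOn).toFinset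
    have h3 : (Subgroup.closure (s : Set N)).map N.subtype = SS g E := by
      rw [MonoidHom.map_closure]
      congr 1
      ext x
      simp only [s, Set.Finite.coe_toFinset, Set.mem_image, Set.mem_preimage]
      constructor
      · rintro ⟨y, hy, rfl⟩; exact hy
      · intro hx; exact ⟨⟨x, h2 hx⟩, hx, rfl⟩
    have h4 := hN s
    rw [← h3]
    exact Finite.of_equiv _
      (Subgroup.equivMapOfInjective _ N.subtype N.subtype_injective).toEquiv
  obtain ⟨p, hp⟩ := finite_inner (SS g E) (AA g E) (BB g E) (ph g E)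
  let f : SS g E →* Equiv.Perm (SS g E) :=
    { toFun := fun x => MulAction.toPermHom (SS g E)ᵐᵒᵖ (SS g E) (MulOpposite.op x⁻¹)
      map_one' := by rw [inv_one, MulOpposite.op_one, map_one]
      map_mul' := fun x y => by rw [mul_inv_rev, MulOpposite.op_mul, map_mul] }
  have hf : Function.Injective f := by
    intro x y hxy
    have h1 : (1 : SS g E) * x⁻¹ = 1 * y⁻¹ := congrArg (fun e => e 1) hxy
    rw [one_mul, one_mul] at h1
    exact inv_injective h1
  have hfp : ∀ x y : SS g E, (x : G) ∈ E → (y : G) = g * (x : G) * g⁻¹ → f y = p * f x * p⁻¹ := by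
    intro x y hx hy
    have h1 := hp ⟨x, Subgroup.subset_closure hx⟩
    have h2 : y = ((ph g E ⟨x, Subgroup.subset_closure hx⟩ : BB g E) : SS g E) :=
      Subtype.ext hy
    rw [h2]
    exact h1
  exact ⟨Equiv.Perm (SS g E), inferInstance, f, p,
    Pool.Agent.Y430.SS.of_finite hC.base _ inferInstance, hf, hfp⟩

theorem cyc (hC : Closed C) (G : Type) [Group G] (g : G) : C ↥(Subgroup.zpowers g) := by
  have hr : (zpowersHom G g).range = Subgroup.zpowers g := by
    ext x
    rw [MonoidHom.mem_range, Subgroup.mem_zpowers_iff]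
    constructor
    · rintro ⟨n, rfl⟩; exact ⟨Multiplicative.toAdd n, rfl⟩
    · rintro ⟨n, rfl⟩; exact ⟨Multiplicative.ofAdd n, rfl⟩
  by_cases hg : IsOfFinOrder g
  · have : Finite (Subgroup.zpowers g) := by
      rw [← Nat.card_pos_iff.trans ⟨fun h => h.2, fun h => ⟨⟨1⟩, h⟩⟩, Nat.card_zpowers]
      exact hg.orderOf_pos
    exact Pool.Agent.Y430.SS.of_finite hC _ this
  · have hinj : Function.Injective (zpowersHom G g) := by
      intro a b hab
      have h1 : g ^ (Multiplicative.toAdd a) = g ^ (Multiplicative.toAdd b) := hab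
      exact injective_zpow_iff_not_isOfFinOrder.2 hg h1
    refine of_eq hr (hC.of_injective _ (Multiplicative ℤ)
      (MonoidHom.ofInjective hinj).symm.toMonoidHom (MonoidHom.ofInjective hinj).symm.injective
      hC.int)

/-- **Ascending series of normal subgroups.** If every proper normal subgroup `K` of `G` is contained
in a larger normal subgroup `L` such that `⟨L, g⟩ / K` is in `C` for every `g`, then `G` is in `C`. -/
theorem hyper (hC : ClosedE C) (G : Type) [Group G]
    (h : ∀ (K : Subgroup G) [K.Normal], K ≠ ⊤ → ∃ L : Subgroup G, L.Normal ∧ K < L ∧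
      ∀ g : G, C ↥((L ⊔ Subgroup.zpowers g).map (QuotientGroup.mk' K))) : C G := by
  classical
  let Z : Set (Subgroup G) := {K | K.Normal ∧ ∀ g : G, C ↥(K ⊔ Subgroup.zpowers g)}
  have hbot : (⊥ : Subgroup G) ∈ Z := by
    refine ⟨inferInstance, fun g => ?_⟩
    rw [bot_sup_eq]
    exact cyc hC.base G g
  have hchain : ∀ c ⊆ Z, IsChain (· ≤ ·) c → ∀ y ∈ c, ∃ ub ∈ Z, ∀ z ∈ c, z ≤ ub := by
    intro c hc hch y hy
    have hdir : DirectedOn (· ≤ ·) c := hch.directedOn
    have hne : c.Nonempty := ⟨y, hy⟩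
    refine ⟨sSup c, ⟨?_, ?_⟩, fun z hz => le_sSup hz⟩
    · constructor
      intro n hn g
      rw [Subgroup.mem_sSup_of_directedOn hne hdir] at hn ⊢
      obtain ⟨K, hK, hnK⟩ := hn
      exact ⟨K, hK, (hc hK).1.conj_mem n hnK g⟩
    · intro g
      have : Nonempty c := ⟨⟨y, hy⟩⟩
      have hle : ∀ K : c, K.1 ⊔ Subgroup.zpowers g ≤ sSup c ⊔ Subgroup.zpowers g := fun K =>
        sup_le_sup_right (le_sSup K.2) _
      refine Pool.Agent.Y430.SS.of_directed hC.base _ c ?_
        (fun K => (K.1 ⊔ Subgroup.zpowers g).subgroupOf (sSup c ⊔ Subgroup.zpowers g)) ?_ ?_ ?_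
      · rintro ⟨i, hi⟩ ⟨j, hj⟩
        obtain ⟨k, hk, h1, h2⟩ := hdir i hi j hj
        exact ⟨⟨k, hk⟩, h1, h2⟩
      · intro K L hKL x hx
        exact sup_le_sup_right (show K.1 ≤ L.1 from hKL) _ hx
      · rintro ⟨x, hx⟩
        have : (sSup c).Normal := by
          constructor
          intro n hn g
          rw [Subgroup.mem_sSup_of_directedOn hne hdir] at hn ⊢
          obtain ⟨K, hK, hnK⟩ := hn
          exact ⟨K, hK, (hc hK).1.conj_mem n hnK g⟩
        obtain ⟨n, hn, z, hz, rfl⟩ := Subgroup.mem_sup_of_normal_left.1 hx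
        rw [Subgroup.mem_sSup_of_directedOn hne hdir] at hn
        obtain ⟨K, hK, hnK⟩ := hn
        exact ⟨⟨K, hK⟩, mul_mem (Subgroup.mem_sup_left hnK) (Subgroup.mem_sup_right hz)⟩
      · intro K
        exact hC.base.of_injective _ _ (Subgroup.subgroupOfEquivOfLe (hle K)).toMonoidHom
          (Subgroup.subgroupOfEquivOfLe (hle K)).injective ((hc K.2).2 g)
  obtain ⟨K, _, hK⟩ := zorn_le_nonempty₀ Z hchain ⊥ hbot
  have hKn : K.Normal := hK.prop.1
  by_cases hKt : K = ⊤
  · have h1 := hK.prop.2 1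
    rw [Subgroup.zpowers_one_eq_bot, sup_bot_eq, hKt] at h1
    exact hC.base.of_injective G _ (Subgroup.topEquiv (G := G)).symm.toMonoidHom
      (Subgroup.topEquiv (G := G)).symm.injective h1
  · exfalso
    obtain ⟨L, hL, hKL, hLg⟩ := h K hKt
    refine absurd (hK.le_of_ge (y := L) ⟨hL, fun g => ?_⟩ hKL.le) (not_le_of_gt hKL)
    -- extension
    let G' : Subgroup G := L ⊔ Subgroup.zpowers g
    let π := (QuotientGroup.mk' K).subgroupMap G'
    have hπ : ∀ x : G', x ∈ π.ker → (x : G) ∈ K := by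
      intro x hx
      have h1 : (QuotientGroup.mk' K) (x : G) = 1 := congrArg Subtype.val hx
      exact (QuotientGroup.eq_one_iff _).1 h1
    refine Pool.Agent.Y529.FJ.t_ext C hC G' π.ker ?_ ?_ ?_
    · have h1 := hK.prop.2 1
      rw [Subgroup.zpowers_one_eq_bot, sup_bot_eq] at h1
      refine hC.base.of_injective _ K ((G'.subtype.comp π.ker.subtype).codRestrict K
        (fun x => hπ x.1 x.2)) ?_ h1
      intro x y hxy
      have h2 : ((x.1 : G') : G) = ((y.1 : G') : G) := congrArg (fun z : K => (z : G)) hxy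
      exact Subtype.ext (Subtype.ext h2)
    · exact hC.base.of_injective _ _ (QuotientGroup.kerLift π) (QuotientGroup.kerLift_injective π)
        (hLg g)
    · intro x _
      have hle : ∀ y : ↥(π.ker ⊔ Subgroup.zpowers x), ((y : G') : G) ∈
          K ⊔ Subgroup.zpowers (x : G) := by
        intro y
        have h1 : (π.ker ⊔ Subgroup.zpowers x).map G'.subtype ≤ K ⊔ Subgroup.zpowers (x : G) := by
          rw [Subgroup.map_sup]
          refine sup_le_sup ?_ ?_
          · rintro _ ⟨z, hz, rfl⟩; exact hπ z hz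
          · rw [MonoidHom.map_zpowers]; rfl
        exact h1 ⟨y, y.2, rfl⟩
      refine hC.base.of_injective _ _ ((G'.subtype.comp (Subgroup.subtype _)).codRestrict
        (K ⊔ Subgroup.zpowers (x : G)) hle) ?_ (hK.prop.2 (x : G))
      intro y z hyz
      have h2 : ((y.1 : G') : G) = ((z.1 : G') : G) :=
        congrArg (fun z : ↥(K ⊔ Subgroup.zpowers (x : G)) => (z : G)) hyz
      exact Subtype.ext (Subtype.ext h2)

end Pool.Agent.H65FJ
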