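import Pool.Agent.H65FJ.Hyper

/-!
# Hyper-(solvable or locally finite) groups
-/

set_option autoImplicit false

namespace Pool.Agent.H65FJ

open Pool.Agent.Y110.FJ
open Pool.Agent.Y462.SS (Closed)

variable {C : ∀ (G : Type) [Group G], Prop}

/-- every finitely generated subgroup is finite -/
def LocFin (G : Type) [Group G] : Prop :=
  ∀ s : Finset G, Finite (Subgroup.closure (s : Set G))

/-- `G` is hyper-(solvable or locally finite): every proper normal subgroup `K` is contained in a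
larger normal subgroup `L` such that `L / K` is solvable or locally finite. Equivalently, `G` has an
ascending (transfinite) series of normal subgroups whose factors are solvable or locally finite. -/
def Hyp (G : Type) [Group G] : Prop :=
  ∀ (K : Subgroup G) [K.Normal], K ≠ ⊤ → ∃ L : Subgroup G, L.Normal ∧ K < L ∧
    (Group.IsSolvable ↥(L.map (QuotientGroup.mk' K)) ∨ LocFin ↥(L.map (QuotientGroup.mk' K)))

theorem sup_cyc {H : Type} [Group H] (A : Subgroup H) [A.Normal] (h : H) :
    ∃ c : ↥(A ⊔ Subgroup.zpowers h) ⧸ A.subgroupOf (A ⊔ Subgroup.zpowers h),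
      ∀ x, x ∈ Subgroup.zpowers c := by
  refine ⟨QuotientGroup.mk ⟨h, Subgroup.mem_sup_right (Subgroup.mem_zpowers h)⟩, ?_⟩
  intro x
  obtain ⟨⟨y, hy⟩, rfl⟩ := QuotientGroup.mk_surjective x
  obtain ⟨a, ha, z, hz, rfl⟩ := Subgroup.mem_sup_of_normal_left.1 hy
  obtain ⟨k, rfl⟩ := Subgroup.mem_zpowers_iff.1 hz
  rw [Subgroup.mem_zpowers_iff]
  refine ⟨k, ?_⟩
  rw [← QuotientGroup.mk_zpow, eq_comm, QuotientGroup.eq]
  rw [Subgroup.mem_subgroupOf]
  show (a * h ^ k)⁻¹ * h ^ k ∈ A
  have h1 : (a * h ^ k)⁻¹ * h ^ k = (h ^ k)⁻¹ * a⁻¹ * ((h ^ k)⁻¹)⁻¹ := by group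
  rw [h1]
  exact ‹A.Normal›.conj_mem _ (inv_mem ha) _

theorem solv_sup {H : Type} [Group H] (A : Subgroup H) [A.Normal] (h : H)
    (hA : Group.IsSolvable A) : Group.IsSolvable ↥(A ⊔ Subgroup.zpowers h) := by
  obtain ⟨c, hc⟩ := sup_cyc A h
  let e := Subgroup.subgroupOfEquivOfLe (show A ≤ A ⊔ Subgroup.zpowers h from le_sup_left)
  have h1 : Group.IsSolvable (A.subgroupOf (A ⊔ Subgroup.zpowers h)) :=
    Group.isSolvable_of_isSolvable_injective (f := e.toMonoidHom) e.injective
  have h2 : Group.IsSolvable (↥(A ⊔ Subgroup.zpowers h) ⧸ A.subgroupOf (A ⊔ Subgroup.zpowers h)) := by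
    refine Group.isSolvable_of_comm (fun a b => ?_)
    obtain ⟨i, rfl⟩ := Subgroup.mem_zpowers_iff.1 (hc a)
    obtain ⟨j, rfl⟩ := Subgroup.mem_zpowers_iff.1 (hc b)
    exact (Commute.refl c).zpow_zpow i j
  exact Group.isSolvable_of_ker_le_range (A.subgroupOf (A ⊔ Subgroup.zpowers h)).subtype
    (QuotientGroup.mk' (A.subgroupOf (A ⊔ Subgroup.zpowers h))) (by
    rw [QuotientGroup.ker_mk', Subgroup.range_subtype])

theorem lf_sup (hC : ClosedE C) {H : Type} [Group H] (A : Subgroup H) [A.Normal] (h : H)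
    (hA : LocFin A) : C ↥(A ⊔ Subgroup.zpowers h) := by
  classical
  obtain ⟨c, hc⟩ := sup_cyc A h
  let e := Subgroup.subgroupOfEquivOfLe (show A ≤ A ⊔ Subgroup.zpowers h from le_sup_left)
  refine lf_ext hC _ (A.subgroupOf (A ⊔ Subgroup.zpowers h)) ?_ ?_
  · intro s
    have h1 : (Subgroup.closure (s : Set (A.subgroupOf (A ⊔ Subgroup.zpowers h)))).map
        e.toMonoidHom = Subgroup.closure ((s.image e : Finset A) : Set A) := by
      rw [MonoidHom.map_closure, Finset.coe_image]
      rfl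
    have h2 := hA (s.image e)
    rw [← h1] at h2
    exact Finite.of_equiv _ (Subgroup.equivMapOfInjective _ e.toMonoidHom e.injective).symm.toEquiv
  · have h3 : Subgroup.zpowers c = ⊤ := by
      rw [Subgroup.eq_top_iff']; exact hc
    exact hC.base.of_injective _ _
      (Subgroup.topEquiv (G := ↥(A ⊔ Subgroup.zpowers h) ⧸
        A.subgroupOf (A ⊔ Subgroup.zpowers h))).symm.toMonoidHom
      (Subgroup.topEquiv (G := ↥(A ⊔ Subgroup.zpowers h) ⧸
        A.subgroupOf (A ⊔ Subgroup.zpowers h))).symm.injective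
      (of_eq h3 (cyc hC.base _ c))

/-- **Hyper-(solvable or locally finite) groups.** -/
theorem hyp_mem (hC : ClosedE C) (hS : ∀ (G : Type) [Group G], Group.IsSolvable G → C G)
    (G : Type) [Group G] (h : Hyp G) : C G := by
  refine hyper hC G (fun K _ hK => ?_)
  obtain ⟨L, hL, hKL, hLK⟩ := h K hK
  refine ⟨L, hL, hKL, fun g => ?_⟩
  have h1 : (L ⊔ Subgroup.zpowers g).map (QuotientGroup.mk' K) =
      L.map (QuotientGroup.mk' K) ⊔ Subgroup.zpowers (QuotientGroup.mk' K g) := by
    rw [Subgroup.map_sup, MonoidHom.map_zpowers]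
  have hn : (L.map (QuotientGroup.mk' K)).Normal :=
    Subgroup.Normal.map hL _ (QuotientGroup.mk'_surjective K)
  refine of_eq h1.symm ?_
  rcases hLK with h2 | h2
  · exact hS _ (solv_sup _ _ h2)
  · exact lf_sup hC _ _ h2

/-- locally hyper-(solvable or locally finite) groups -/
theorem locally_hyp_mem (hC : ClosedE C) (hS : ∀ (G : Type) [Group G], Group.IsSolvable G → C G)
    (G : Type) [Group G] (h : ∀ s : Finset G, Hyp ↥(Subgroup.closure (s : Set G))) : C G :=
  of_fg hC.base G (fun s => hyp_mem hC hS _ (h s))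

end Pool.Agent.H65FJ
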