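import Pool.Agent.H65FJ.Refl

/-!
# Normal subgroups which are graph products
-/

set_option autoImplicit false

namespace Pool.Agent.H65FJ

open Pool.Agent.Y110.FJ
open Pool.Agent.Y462.SS (Closed)

variable {C : ∀ (G : Type) [Group G], Prop}

/-- the subgroup `N` of `G` is the graph product of its subgroups `A v` over the graph `Λ` -/
structure IntGP {G V : Type} [Group G] (Λ : SimpleGraph V) (A : V → Subgroup G)
    (N : Subgroup G) : Prop where
  le : ∀ v, A v ≤ N
  comm : ∀ v w, Λ.Adj v w → ∀ a ∈ A v, ∀ b ∈ A w, a * b = b * a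
  gen : N ≤ Subgroup.closure {x | ∃ v, x ∈ A v}
  univ : ∀ (H : Type) [Group H] (f : ∀ v, A v →* H),
    (∀ v w, Λ.Adj v w → ∀ (a : A v) (b : A w), f v a * f w b = f w b * f v a) →
    ∃ h : N →* H, ∀ v (a : A v), h ⟨a, le v a.2⟩ = f v a

/-- the conditions on `γ`: it permutes the vertex groups by an automorphism of the graph, and if a
positive power `γ ^ c` fixes the vertex `v`, then `⟨A v, γ ^ c⟩` is in `C` -/
def GoodPerm (C : ∀ (G : Type) [Group G], Prop) {G V : Type} [Group G] (Λ : SimpleGraph V)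
    (A : V → Subgroup G) (γ : G) : Prop :=
  ∃ s : Equiv.Perm V, (∀ v w, Λ.Adj (s v) (s w) ↔ Λ.Adj v w) ∧
    (∀ v, (A v).map (MulAut.conj γ).toMonoidHom = A (s v)) ∧
    ∀ (v : V) (c : ℕ), 0 < c → (s ^ c) v = v → C ↥(A v ⊔ Subgroup.zpowers (γ ^ c))

/-- **Normal subgroups which are graph products.** -/
theorem normal_gp (hC : ClosedE C) (G : Type) [Group G] (N : Subgroup G) [N.Normal]
    (hQ : C (G ⧸ N)) (V : Type) (Λ : SimpleGraph V) (A : V → Subgroup G) (hN : IntGP Λ A N)
    (hA : ∀ v, C (A v))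
    (h : ∀ g : G, (∀ k : ℕ, 0 < k → g ^ k ∉ N) → ∃ n ∈ N, GoodPerm C Λ A (n * g)) : C G := by
  let P : Type := GrP Λ (fun v => ↥(A v))
  obtain ⟨e, he⟩ := exists_lift (Λ := Λ) (A := fun v => ↥(A v)) (H := G) (fun v => (A v).subtype)
    (fun v w hvw a b => hN.comm v w hvw a a.2 b b.2)
  have he' : ∀ v (a : A v), e (GrP.of Λ (fun v => ↥(A v)) v a) = a := he
  obtain ⟨d, hd⟩ := hN.univ P (fun v => GrP.of Λ (fun v => ↥(A v)) v)
    (fun v w hvw a b => of_comm (A := fun v => ↥(A v)) hvw a b)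
  have heN : ∀ x, e x ∈ N := by
    intro x
    refine grp_ind (P := fun x => e x ∈ N) ?_ ?_ ?_ x
    · rw [map_one]; exact one_mem _
    · intro x y hx hy; rw [map_mul]; exact mul_mem hx hy
    · intro v a; rw [he']; exact hN.le v a.2
  let e1 : P →* N := e.codRestrict N heN
  have hde : ∀ x, d (e1 x) = x := by
    have h1 : d.comp e1 = MonoidHom.id P := by
      apply grp_ext
      intro v a
      show d (e1 (GrP.of Λ (fun v => ↥(A v)) v a)) = _
      have h2 : e1 (GrP.of Λ (fun v => ↥(A v)) v a) = ⟨a, hN.le v a.2⟩ := Subtype.ext (he' v a)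
      rw [h2, hd]
      rfl
    exact fun x => DFunLike.congr_fun h1 x
  have he1i : Function.Injective e1 := fun x y hxy => by rw [← hde x, hxy, hde]
  have hei : Function.Injective e := fun x y hxy => he1i (Subtype.ext hxy)
  have hNr : N ≤ e.range := by
    refine hN.gen.trans ?_
    rw [Subgroup.closure_le]
    rintro x ⟨v, hx⟩
    exact ⟨GrP.of Λ (fun v => ↥(A v)) v ⟨x, hx⟩, he' v ⟨x, hx⟩⟩
  have he1s : Function.Surjective e1 := by
    rintro ⟨x, hx⟩
    obtain ⟨y, hy⟩ := hNr hx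
    exact ⟨y, Subtype.ext hy⟩
  let E : P ≃* N := MulEquiv.ofBijective e1 ⟨he1i, he1s⟩
  have hP : C P := grp_mem hC hA
  have hCN : C N := hC.base.of_injective _ _ E.symm.toMonoidHom E.symm.injective hP
  refine Pool.Agent.Y529.FJ.t_ext C hC G N hCN hQ (fun g hg => ?_)
  obtain ⟨n, hn, s, hs1, hs2, hs3⟩ := h g hg
  let γ : G := n * g
  have hγg : N ⊔ Subgroup.zpowers γ = N ⊔ Subgroup.zpowers g := by
    apply le_antisymm
    · refine sup_le le_sup_left ?_
      rw [Subgroup.zpowers_le]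
      exact mul_mem (Subgroup.mem_sup_left hn)
        (Subgroup.mem_sup_right (Subgroup.mem_zpowers g))
    · refine sup_le le_sup_left ?_
      rw [Subgroup.zpowers_le]
      have h2 : g = n⁻¹ * γ := by show g = n⁻¹ * (n * g); group
      rw [h2]
      exact mul_mem (Subgroup.mem_sup_left (inv_mem hn))
        (Subgroup.mem_sup_right (Subgroup.mem_zpowers γ))
  refine of_eq hγg ?_
  have hγN : ∀ k : ℤ, γ ^ k ∈ N → k = 0 := by
    have hγn : ∀ k : ℕ, 0 < k → γ ^ k ∉ N := by
      intro k hk hk'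
      apply hg k hk
      have h3 : ((QuotientGroup.mk' N) γ) ^ k = 1 := by
        rw [← map_pow]; exact (QuotientGroup.eq_one_iff _).2 hk'
      have h4 : (QuotientGroup.mk' N) γ = (QuotientGroup.mk' N) g := by
        show (QuotientGroup.mk' N) (n * g) = _
        rw [map_mul]
        have : (QuotientGroup.mk' N) n = 1 := (QuotientGroup.eq_one_iff _).2 hn
        rw [this, one_mul]
      rw [h4, ← map_pow] at h3
      exact (QuotientGroup.eq_one_iff _).1 h3
    intro k hk
    rcases Int.eq_nat_or_neg k with ⟨m, rfl | rfl⟩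
    · rcases Nat.eq_zero_or_pos m with rfl | hm
      · rfl
      · exact absurd (by simpa using hk) (hγn m hm)
    · rcases Nat.eq_zero_or_pos m with rfl | hm
      · rfl
      · exact absurd (by simpa using hk) (hγn m hm)
  let σ : MulAut P := (E.trans (MulAut.conjNormal γ)).trans E.symm
  have hσe : ∀ x, e (σ x) = γ * e x * γ⁻¹ := by
    intro x
    have h1 : E (σ x) = MulAut.conjNormal γ (E x) := E.apply_symm_apply _
    exact congrArg Subtype.val h1
  have hsinv : ∀ v, ∀ a ∈ A v, γ⁻¹ * a * γ ∈ A (s⁻¹ v) := by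
    intro v a ha
    have h1 := hs2 (s⁻¹ v)
    have h2 : s (s⁻¹ v) = v := s.apply_symm_apply v
    rw [h2] at h1
    rw [← h1] at ha
    obtain ⟨b, hb, hba⟩ := ha
    have h3 : γ * b * γ⁻¹ = a := hba
    have h4 : γ⁻¹ * a * γ = b := by rw [← h3]; group
    rw [h4]
    exact hb
  have hsmem : ∀ v, ∀ a ∈ A v, γ * a * γ⁻¹ ∈ A (s v) := by
    intro v a ha
    rw [← hs2 v]
    exact ⟨a, ha, rfl⟩
  let D : Dat Λ (fun v => ↥(A v)) :=
    { σ := σ
      s := s
      hσ := fun v a => ⟨⟨γ * a * γ⁻¹, hsmem v a a.2⟩, by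
        apply hei
        rw [hσe, he', he']⟩
      hσ' := fun v a => ⟨⟨γ⁻¹ * a * γ, hsinv v a a.2⟩, by
        apply hei
        have h1 := hσe (σ⁻¹ (GrP.of Λ (fun v => ↥(A v)) v a))
        rw [MulAut.apply_inv_self, he'] at h1
        rw [he']
        show e (σ⁻¹ (GrP.of Λ (fun v => ↥(A v)) v a)) = γ⁻¹ * (a : G) * γ
        rw [h1]
        group⟩
      hΛ := hs1 }
  obtain ⟨Ψ, h1, h2⟩ := mt_lift σ e γ hσe
  have hinj : Function.Injective Ψ := by
    rw [injective_iff_map_eq_one]
    intro z hz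
    have h3 : z = SemidirectProduct.inl z.left * (st σ) ^ (Multiplicative.toAdd z.right) := by
      rw [st_zpow]
      exact (SemidirectProduct.inl_left_mul_inr_right z).symm
    rw [h3, map_mul, map_zpow, h1, h2] at hz
    have h4 : γ ^ (Multiplicative.toAdd z.right) ∈ N := by
      have : γ ^ (Multiplicative.toAdd z.right) = (e z.left)⁻¹ := by
        rw [eq_inv_iff_mul_eq_one, mul_eq_one_iff_eq_inv]
        rw [mul_eq_one_iff_eq_inv] at hz
        rw [hz, inv_inv]
      rw [this]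
      exact inv_mem (heN _)
    have h5 := hγN _ h4
    rw [h5, zpow_zero, mul_one] at hz
    have h6 : z.left = 1 := hei (by rw [hz, map_one])
    rw [h3, h5, h6]
    simp
  have hle : N ⊔ Subgroup.zpowers γ ≤ Ψ.range := by
    refine sup_le ?_ ?_
    · intro x hx
      obtain ⟨y, rfl⟩ := hNr hx
      exact ⟨SemidirectProduct.inl y, h1 y⟩
    · rw [Subgroup.zpowers_le]
      exact ⟨st σ, h2⟩
  refine hC.base.of_injective _ _ ((MonoidHom.ofInjective hinj).symm.toMonoidHom.comp
    (Subgroup.inclusion hle)) ((MonoidHom.ofInjective hinj).symm.injective.comp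
      (Subgroup.inclusion_injective hle)) ?_
  refine D.torus hC ?_ ?_
  · intro v
    refine hC.base.of_injective _ (A v) ((e.comp (Subgroup.subtype _)).codRestrict (A v) ?_) ?_
      (hA v)
    · rintro ⟨_, ⟨a, rfl⟩⟩
      show e (GrP.of Λ (fun v => ↥(A v)) v a) ∈ A v
      rw [he']
      exact a.2
    · intro x y hxy
      have h3 : e (x : P) = e (y : P) := congrArg (fun z : A v => (z : G)) hxy
      exact Subtype.ext (hei h3)
  · intro v c hc hcv
    have hmem : ∀ x ∈ Subgroup.closure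
        ((SemidirectProduct.inl '' (Dat.Ag Λ (fun v => ↥(A v)) v : Set P)) ∪ {(st σ) ^ c} :
        Set (MT P σ)), Ψ x ∈ A v ⊔ Subgroup.zpowers (γ ^ c) := by
      have h3 : Subgroup.closure
        ((SemidirectProduct.inl '' (Dat.Ag Λ (fun v => ↥(A v)) v : Set P)) ∪ {(st σ) ^ c} :
        Set (MT P σ)) ≤ (A v ⊔ Subgroup.zpowers (γ ^ c)).comap Ψ := by
        rw [Subgroup.closure_le]
        rintro x (⟨_, ⟨a, rfl⟩, rfl⟩ | hx)
        · show Ψ (SemidirectProduct.inl (GrP.of Λ (fun v => ↥(A v)) v a)) ∈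
            A v ⊔ Subgroup.zpowers (γ ^ c)
          rw [h1, he']
          exact Subgroup.mem_sup_left a.2
        · rw [Set.mem_singleton_iff.1 hx]
          show Ψ ((st σ) ^ c) ∈ A v ⊔ Subgroup.zpowers (γ ^ c)
          rw [map_pow, h2]
          exact Subgroup.mem_sup_right (Subgroup.mem_zpowers _)
      exact h3
    refine hC.base.of_injective _ _ ((Ψ.comp (Subgroup.subtype _)).codRestrict _
      (fun x => hmem x.1 x.2)) ?_ (hs3 v c hc hcv)
    intro x y hxy
    have h3 : Ψ x.1 = Ψ y.1 := congrArg Subtype.val hxy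
    exact Subtype.ext (hinj h3)

/-- the conjugates of the `A v` by powers -/
theorem map_pow_conj {G V : Type} [Group G] (A : V → Subgroup G) (g : G) (s : Equiv.Perm V)
    (h : ∀ v, (A v).map (MulAut.conj g).toMonoidHom = A (s v)) (c : ℕ) (v : V) :
    (A v).map (MulAut.conj (g ^ c)).toMonoidHom = A ((s ^ c) v) := by
  induction c generalizing v with
  | zero =>
    rw [pow_zero, pow_zero, map_one]
    exact Subgroup.map_id _
  | succ n ih =>
    rw [pow_succ, map_mul, pow_succ, Equiv.Perm.mul_apply, ← ih, ← h, Subgroup.map_map]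
    rfl

/-- **Regular wreath-like products.** -/
theorem wreath_like (hC : ClosedE C) (G : Type) [Group G] (N : Subgroup G) [N.Normal]
    (hQ : C (G ⧸ N)) (V : Type) (A : V → Subgroup G) (hN : IntGP ⊤ A N)
    (hA : ∀ v, C (A v))
    (hperm : ∀ g : G, ∃ s : Equiv.Perm V, ∀ v, (A v).map (MulAut.conj g).toMonoidHom = A (s v))
    (hreg : ∀ (g : G) (v : V), (A v).map (MulAut.conj g).toMonoidHom = A v → g ∈ N) : C G := by
  refine normal_gp hC G N hQ V ⊤ A hN hA (fun g hg => ⟨1, one_mem _, ?_⟩)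
  obtain ⟨s, hs⟩ := hperm g
  rw [one_mul]
  refine ⟨s, ?_, hs, ?_⟩
  · intro v w
    rw [SimpleGraph.top_adj, SimpleGraph.top_adj]
    exact s.injective.ne_iff
  · intro v c hc hcv
    exfalso
    have h1 := map_pow_conj A g s hs c v
    rw [hcv] at h1
    exact hg c hc (hreg _ v h1)

end Pool.Agent.H65FJ
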