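import Pool.Agent.H65FJ.Del

/-!
# Presentations which are closed under the deletion of generators
-/

set_option autoImplicit false

namespace Pool.Agent.H65FJ

open Pool.Agent.Y110.FJ
open Pool.Agent.Y462.SS (Closed)

variable {C : ∀ (G : Type) [Group G], Prop}

section pres

variable {V : Type} (A : V → Type) [∀ v, Group (A v)] (R : Set (Monoid.CoprodI A))

/-- the quotient of the free product of the groups `A v` by the relators in `R` -/
def Pres : Type := Monoid.CoprodI A ⧸ Subgroup.normalClosure R

instance instPres : Group (Pres A R) :=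
  inferInstanceAs (Group (Monoid.CoprodI A ⧸ Subgroup.normalClosure R))

/-- the projection -/
def Pres.mk : Monoid.CoprodI A →* Pres A R := QuotientGroup.mk' (Subgroup.normalClosure R)

open Classical in
/-- the deletion of the elements of the group `A v` -/
noncomputable def delete (v : V) : Monoid.CoprodI A →* Monoid.CoprodI A :=
  Monoid.CoprodI.lift (fun w => if w = v then 1 else Monoid.CoprodI.of)

/-- the subgroup of the free product generated by the groups `A v`, `v ∈ T` -/
def FreeSub (T : Set V) : Subgroup (Monoid.CoprodI A) :=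
  Subgroup.closure {x | ∃ v ∈ T, ∃ a : A v, x = Monoid.CoprodI.of a}

/-- the subgroup of the quotient generated by the groups `A v`, `v ∈ T` -/
def Special (T : Set V) : Subgroup (Pres A R) :=
  Subgroup.closure {x | ∃ v ∈ T, ∃ a : A v, x = Pres.mk A R (Monoid.CoprodI.of a)}

/-- `T` is a clique of the graph `Λ` -/
def Clique (Λ : SimpleGraph V) (T : Finset V) : Prop := ∀ v ∈ T, ∀ w ∈ T, v ≠ w → Λ.Adj v w

/-- the set `R` of relators is closed under deletions, and each relator is supported in a clique -/
structure DelClosed (Λ : SimpleGraph V) : Prop where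
  supp : ∀ r ∈ R, ∃ T : Finset V, Clique Λ T ∧ r ∈ FreeSub A (T : Set V)
  del : ∀ r ∈ R, ∀ v, delete A v r ∈ Subgroup.normalClosure R

variable {A R}

theorem delete_ne {v w : V} (h : w ≠ v) (a : A w) :
    delete A v (Monoid.CoprodI.of a) = Monoid.CoprodI.of a := by
  rw [delete, Monoid.CoprodI.lift_of, if_neg h]

theorem delete_eq (v : V) (a : A v) : delete A v (Monoid.CoprodI.of a) = 1 := by
  rw [delete, Monoid.CoprodI.lift_of, if_pos rfl, MonoidHom.one_apply]

theorem mk_eq_one_of_mem {r : Monoid.CoprodI A} (hr : r ∈ Subgroup.normalClosure R) :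
    Pres.mk A R r = 1 := (QuotientGroup.eq_one_iff _).2 hr

/-- the universal property -/
theorem Pres.exists_lift {H : Type} [Group H] (F : Monoid.CoprodI A →* H)
    (hF : ∀ r ∈ R, F r = 1) : ∃ f : Pres A R →* H, ∀ x, f (Pres.mk A R x) = F x := by
  have h1 : Subgroup.normalClosure R ≤ F.ker := Subgroup.normalClosure_le_normal hF
  exact ⟨QuotientGroup.lift (Subgroup.normalClosure R) F (fun x hx => h1 hx), fun x => rfl⟩

/-- **Presentations closed under deletions.** -/
theorem pres (hC : ClosedE C) (Λ : SimpleGraph V) (h : DelClosed A R Λ)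
    (hT : ∀ T : Finset V, Clique Λ T → C ↥(Special A R (T : Set V))) : C (Pres A R) := by
  let A' : V → Subgroup (Pres A R) := fun v =>
    ((Pres.mk A R).comp (Monoid.CoprodI.of : A v →* Monoid.CoprodI A)).range
  have hSp : ∀ T : Set V, Sp A' T = Special A R T := by
    intro T
    unfold Sp Special
    congr 1
    ext x
    constructor
    · rintro ⟨v, hv, a, rfl⟩; exact ⟨v, hv, a, rfl⟩
    · rintro ⟨v, hv, a, rfl⟩; exact ⟨v, hv, a, rfl⟩
  have hsys : DelSys Λ A' := by
    refine ⟨?_, ?_, ?_⟩
    · rw [Subgroup.eq_top_iff']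
      intro x
      obtain ⟨y, rfl⟩ := QuotientGroup.mk_surjective x
      induction y using Monoid.CoprodI.induction_on with
      | one => exact one_mem _
      | of v a => exact Subgroup.subset_closure ⟨v, a, rfl⟩
      | mul x y hx hy =>
        have : (QuotientGroup.mk (x * y) : Pres A R) = QuotientGroup.mk x * QuotientGroup.mk y := rfl
        rw [this]
        exact mul_mem hx hy
    · intro v
      obtain ⟨ρ, hρ⟩ := Pres.exists_lift (R := R) ((Pres.mk A R).comp (delete A v)) (fun r hr =>
        mk_eq_one_of_mem (h.del r hr v))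
      refine ⟨ρ, ?_, ?_⟩
      · rintro w hw _ ⟨a, rfl⟩
        show ρ (Pres.mk A R (Monoid.CoprodI.of a)) = Pres.mk A R (Monoid.CoprodI.of a)
        rw [hρ]
        show Pres.mk A R (delete A v _) = _
        rw [delete_ne hw]
      · rintro _ ⟨a, rfl⟩
        show ρ (Pres.mk A R (Monoid.CoprodI.of a)) = 1
        rw [hρ]
        show Pres.mk A R (delete A v _) = _
        rw [delete_eq, map_one]
    · intro H _ f hf
      let F : Monoid.CoprodI A →* H := Monoid.CoprodI.lift (fun v => (f v).comp
        ((Pres.mk A R).comp (Monoid.CoprodI.of : A v →* Monoid.CoprodI A)).rangeRestrict)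
      have hFof : ∀ v (a : A v), F (Monoid.CoprodI.of a) =
          f v ⟨Pres.mk A R (Monoid.CoprodI.of a), ⟨a, rfl⟩⟩ := by
        intro v a
        exact Monoid.CoprodI.lift_of _ a
      have hF : ∀ r ∈ R, F r = 1 := by
        intro r hr
        obtain ⟨T, hTc, hrT⟩ := h.supp r hr
        obtain ⟨g, hg⟩ := hf T hTc
        have key : ∀ x ∈ FreeSub A (T : Set V), ∃ hx : Pres.mk A R x ∈ Sp A' (T : Set V),
            F x = g ⟨Pres.mk A R x, hx⟩ := by
          intro x hx
          unfold FreeSub at hx
          induction hx using Subgroup.closure_induction with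
          | mem x hx =>
            obtain ⟨v, hv, a, rfl⟩ := hx
            have h1 : Pres.mk A R (Monoid.CoprodI.of a) ∈ Sp A' (T : Set V) :=
              mem_Sp hv ⟨a, rfl⟩
            refine ⟨h1, ?_⟩
            rw [hFof]
            exact (hg v hv _ _ h1).symm
          | one =>
            have h1 : Pres.mk A R 1 ∈ Sp A' (T : Set V) := by rw [map_one]; exact one_mem _
            refine ⟨h1, ?_⟩
            rw [map_one]
            have h2 : (⟨Pres.mk A R 1, h1⟩ : Sp A' (T : Set V)) = 1 := Subtype.ext (map_one _)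
            rw [h2, map_one]
          | mul x y _ _ hx hy =>
            obtain ⟨h1, h2⟩ := hx
            obtain ⟨h3, h4⟩ := hy
            have h5 : Pres.mk A R (x * y) ∈ Sp A' (T : Set V) := by
              rw [map_mul]; exact mul_mem h1 h3
            refine ⟨h5, ?_⟩
            rw [map_mul, h2, h4, ← map_mul]
            exact congrArg g (Subtype.ext (map_mul (Pres.mk A R) x y).symm)
          | inv x _ hx =>
            obtain ⟨h1, h2⟩ := hx
            have h5 : Pres.mk A R x⁻¹ ∈ Sp A' (T : Set V) := by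
              rw [map_inv]; exact inv_mem h1
            refine ⟨h5, ?_⟩
            rw [map_inv, h2, ← map_inv]
            exact congrArg g (Subtype.ext (map_inv (Pres.mk A R) x).symm)
        obtain ⟨h1, h2⟩ := key r hrT
        have h3 : (⟨Pres.mk A R r, h1⟩ : Sp A' (T : Set V)) = 1 :=
          Subtype.ext (mk_eq_one_of_mem (Subgroup.subset_normalClosure hr))
        rw [h2, h3, map_one]
      obtain ⟨k, hk⟩ := Pres.exists_lift F hF
      refine ⟨k, ?_⟩
      rintro v ⟨_, ⟨a, rfl⟩⟩
      exact (hk _).trans (hFof v a)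
  exact hsys.mem hC (fun T hTc => of_eq (hSp _).symm (hT T hTc))

end pres

/-! ### even Artin, Coxeter and Shephard groups -/

section even

variable {V : Type} (n : V → ℕ) (m : V → V → ℕ)

/-- the cyclic vertex groups, of infinite order if `n v = 0` -/
abbrev Cy (v : V) : Type := Multiplicative (ZMod (n v))

/-- the generators -/
def gen (v : V) : Monoid.CoprodI (Cy n) :=
  Monoid.CoprodI.of (Multiplicative.ofAdd (1 : ZMod (n v)) : Cy n v)

/-- the relators `(x y) ^ k = (y x) ^ k` -/
def EvenRel : Set (Monoid.CoprodI (Cy n)) :=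
  {r | ∃ v w : V, v ≠ w ∧ m v w ≠ 0 ∧
    r = (gen n v * gen n w) ^ (m v w) * ((gen n w * gen n v) ^ (m v w))⁻¹}

theorem even_del (v w u : V) (h : v ≠ w) (k : ℕ) :
    delete (Cy n) u ((gen n v * gen n w) ^ k * ((gen n w * gen n v) ^ k)⁻¹) = 1 ∨
    delete (Cy n) u ((gen n v * gen n w) ^ k * ((gen n w * gen n v) ^ k)⁻¹) =
      (gen n v * gen n w) ^ k * ((gen n w * gen n v) ^ k)⁻¹ := by
  rw [map_mul, map_inv, map_pow, map_pow, map_mul, map_mul]
  by_cases hv : v = u
  · left
    subst hv
    rw [gen, delete_eq, gen, delete_ne h.symm, one_mul, mul_one, mul_inv_cancel]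
  · by_cases hw : w = u
    · left
      subst hw
      rw [gen, gen, delete_eq, delete_ne h, one_mul, mul_one, mul_inv_cancel]
    · right
      rw [gen, gen, delete_ne hv, delete_ne hw]

/-- **Even Artin, Coxeter and Shephard groups.** -/
theorem even_mem (hC : ClosedE C) (hm : ∀ v w, m v w = m w v)
    (hT : ∀ T : Finset V, (∀ v ∈ T, ∀ w ∈ T, v ≠ w → m v w ≠ 0) →
      C ↥(Special (Cy n) (EvenRel n m) (T : Set V))) : C (Pres (Cy n) (EvenRel n m)) := by
  classical
  let Λ : SimpleGraph V :=
    { Adj := fun v w => v ≠ w ∧ m v w ≠ 0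
      symm := ⟨fun v w h => ⟨h.1.symm, by rw [hm]; exact h.2⟩⟩
      loopless := ⟨fun v h => h.1 rfl⟩ }
  refine pres hC Λ ⟨?_, ?_⟩ (fun T hTc => hT T (fun v hv w hw hvw => (hTc v hv w hw hvw).2))
  · rintro _ ⟨v, w, hvw, hmvw, rfl⟩
    refine ⟨{v, w}, ?_, ?_⟩
    · intro a ha b hb hab
      simp only [Finset.mem_insert, Finset.mem_singleton] at ha hb
      rcases ha with rfl | rfl
      · rcases hb with rfl | rfl
        · exact absurd rfl hab
        · exact ⟨hab, hmvw⟩
      · rcases hb with rfl | rfl
        · exact ⟨hab, by rw [hm]; exact hmvw⟩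
        · exact absurd rfl hab
    · have h1 : gen n v ∈ FreeSub (Cy n) (({v, w} : Finset V) : Set V) :=
        Subgroup.subset_closure ⟨v, by simp, _, rfl⟩
      have h2 : gen n w ∈ FreeSub (Cy n) (({v, w} : Finset V) : Set V) :=
        Subgroup.subset_closure ⟨w, by simp, _, rfl⟩
      exact mul_mem (pow_mem (mul_mem h1 h2) _) (inv_mem (pow_mem (mul_mem h2 h1) _))
  · rintro r ⟨v, w, hvw, hmvw, rfl⟩ u
    rcases even_del n v w u hvw (m v w) with h1 | h1
    · rw [h1]; exact one_mem _
    · rw [h1]
      exact Subgroup.subset_normalClosure ⟨v, w, hvw, hmvw, rfl⟩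

end even

end Pool.Agent.H65FJ
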