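import Pool.Agent.H65FJ.Crit

/-!
# Unit groups of rings with an ideal which has enough idempotents
-/

set_option autoImplicit false

namespace Pool.Agent.H65FJ

open Pool.Agent.Y110.FJ
open Pool.Agent.Y462.SS (Closed)

section alg

variable {R : Type} [Ring R]

/-- the units which are equal to one outside of the corner of `k` -/
def UC (k : R) : Subgroup Rˣ where
  carrier := {z | k * ((z : R) - 1) = z - 1 ∧ ((z : R) - 1) * k = z - 1}
  one_mem' := by simp
  mul_mem' := by
    rintro a b ⟨ha, ha'⟩ ⟨hb, hb'⟩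
    have h : ((a * b : Rˣ) : R) - 1 = (a - 1) * (b - 1) + (a - 1) + (b - 1) := by
      rw [Units.val_mul]; noncomm_ring
    constructor
    · rw [h, mul_add, mul_add, ← mul_assoc, ha, hb]
    · rw [h, add_mul, add_mul, mul_assoc, ha', hb']
  inv_mem' := by
    rintro a ⟨ha, ha'⟩
    have h : ((a⁻¹ : Rˣ) : R) - 1 = -((a - 1) * (a⁻¹ : Rˣ)) := by
      rw [sub_mul, Units.mul_inv, one_mul, neg_sub]
    have h' : ((a⁻¹ : Rˣ) : R) - 1 = -((a⁻¹ : Rˣ) * (a - 1)) := by
      rw [mul_sub, Units.inv_mul, mul_one, neg_sub]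
    constructor
    · rw [h, mul_neg, ← mul_assoc, ha]
    · rw [h', neg_mul, mul_assoc, ha']

variable {k : R} (hk : IsIdempotentElem k)

/-- the compression to the corner -/
def cor (z : R) : hk.Corner := ⟨k * z * k, ⟨_, rfl⟩⟩

/-- the map to the matrices over the corner -/
def kap0 : UC k →* Matrix (Fin 2) (Fin 2) hk.Corner where
  toFun z := !![cor hk (z : Rˣ), 0; 0, 1]
  map_one' := by
    rw [Matrix.one_fin_two]
    congr 3
    apply Subtype.ext
    show k * ((1 : Rˣ) : R) * k = k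
    rw [Units.val_one, mul_one, hk.eq]
  map_mul' a b := by
    rw [Matrix.mul_fin_two]
    obtain ⟨a, ha, ha'⟩ := a
    obtain ⟨b, hb, hb'⟩ := b
    have h1 : cor hk ((a * b : Rˣ) : R) = cor hk (a : R) * cor hk (b : R) := by
      apply Subtype.ext
      show k * ((a * b : Rˣ) : R) * k = (k * (a : R) * k) * (k * (b : R) * k)
      have e1 : k * (a : R) * k = a - 1 + k := by
        have : (a : R) = (a - 1) + 1 := by abel
        rw [this, mul_add, ha, add_mul, ha', mul_one, hk.eq]; abel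
      have e2 : k * (b : R) * k = b - 1 + k := by
        have : (b : R) = (b - 1) + 1 := by abel
        rw [this, mul_add, hb, add_mul, hb', mul_one, hk.eq]; abel
      have e3 : k * ((a * b : Rˣ) : R) * k = (a - 1) * (b - 1) + (a - 1) + (b - 1) + k := by
        have : ((a * b : Rˣ) : R) = (a - 1) * (b - 1) + (a - 1) + (b - 1) + 1 := by
          rw [Units.val_mul]; noncomm_ring
        rw [this]
        simp only [mul_add, add_mul, mul_one]
        rw [← mul_assoc k, ha, mul_assoc, hb', hb, hb', ha', hk.eq]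
      rw [e1, e2, e3, mul_add, add_mul, add_mul, ha', hb, hk.eq]
      abel
    have h2 : ((⟨a, ha, ha'⟩ * ⟨b, hb, hb'⟩ : UC k) : Rˣ) = a * b := rfl
    simp only [h2, h1, mul_zero, zero_mul, add_zero, zero_add, mul_one]

theorem kap0_inj : Function.Injective (kap0 hk) := by
  rintro ⟨a, ha, ha'⟩ ⟨b, hb, hb'⟩ h
  have h1 : (kap0 hk ⟨a, ha, ha'⟩) 0 0 = (kap0 hk ⟨b, hb, hb'⟩) 0 0 := by rw [h]
  have h2 : k * (a : R) * k = k * (b : R) * k := congrArg Subtype.val h1
  have e1 : k * (a : R) * k = a - 1 + k := by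
    have : (a : R) = (a - 1) + 1 := by abel
    rw [this, mul_add, ha, add_mul, ha', mul_one, hk.eq]; abel
  have e2 : k * (b : R) * k = b - 1 + k := by
    have : (b : R) = (b - 1) + 1 := by abel
    rw [this, mul_add, hb, add_mul, hb', mul_one, hk.eq]; abel
  rw [e1, e2] at h2
  apply Subtype.ext
  apply Units.ext
  have h3 := add_right_cancel h2
  exact sub_left_injective h3

/-- the conjugating matrix -/
theorem exists_p (u : Rˣ) (e : R) (he : e * e = e) (h1 : k * (u * e) = u * e) (h2 : k * e = e)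
    (h3 : e * k = e) (h4 : e * ((u⁻¹ : Rˣ) : R) * k = e * ((u⁻¹ : Rˣ) : R)) :
    ∃ p : (Matrix (Fin 2) (Fin 2) hk.Corner)ˣ, ∀ (a b : UC k), (b : Rˣ) = u * a * u⁻¹ →
      e * (((a : Rˣ) : R) - 1) = (a : Rˣ) - 1 → (((a : Rˣ) : R) - 1) * e = (a : Rˣ) - 1 →
      (kap0 hk).toHomUnits b = p * (kap0 hk).toHomUnits a * p⁻¹ := by
  set v : R := ((u⁻¹ : Rˣ) : R) with hv
  have vu : ∀ z : R, v * ((u : R) * z) = z := fun z => by rw [← mul_assoc, hv, Units.inv_mul, one_mul]
  have vu' : v * (u : R) = 1 := by rw [hv, Units.inv_mul]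
  have ee : ∀ z, e * (e * z) = e * z := fun z => by rw [← mul_assoc, he]
  have ke : ∀ z, k * (e * z) = e * z := fun z => by rw [← mul_assoc, h2]
  have ek : ∀ z, e * (k * z) = e * z := fun z => by rw [← mul_assoc, h3]
  have kk : ∀ z, k * (k * z) = k * z := fun z => by rw [← mul_assoc, hk.eq]
  have kue : ∀ z, k * ((u : R) * (e * z)) = u * (e * z) := fun z => by
    rw [← mul_assoc, ← mul_assoc, mul_assoc k, h1, mul_assoc]
  have evk : e * (v * k) = e * v := by rw [← mul_assoc, h4]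
  have evk' : ∀ z, e * (v * (k * z)) = e * (v * z) := fun z => by
    rw [← mul_assoc, ← mul_assoc, h4, mul_assoc]
  have mem : ∀ z : R, k * z = z → z * k = z → z ∈ Subsemigroup.corner k := fun z a b =>
    (Subsemigroup.mem_corner_iff hk).2 ⟨a, b⟩
  let x : hk.Corner := ⟨u * e, mem _ h1 (by rw [mul_assoc, h3])⟩
  let y : hk.Corner := ⟨e * v, mem _ (ke v) h4⟩
  let kf : hk.Corner := ⟨k - u * e * v, mem _ (by
    rw [mul_sub, hk.eq]; congr 1
    simp only [mul_assoc, kue]) (by
    rw [sub_mul, hk.eq]; congr 1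
    simp only [mul_assoc, evk])⟩
  let kme : hk.Corner := ⟨k - e, mem _ (by rw [mul_sub, hk.eq, h2]) (by rw [sub_mul, hk.eq, h3])⟩
  have a1 : x * y + kf * kf = 1 := by
    apply Subtype.ext
    show u * e * (e * v) + (k - u * e * v) * (k - u * e * v) = k
    simp only [mul_assoc, mul_sub, sub_mul, ee, kue, vu, evk, hk.eq]
    abel
  have a2 : x * kme + kf * x = 0 := by
    apply Subtype.ext
    show u * e * (k - e) + (k - u * e * v) * (u * e) = 0
    simp only [mul_assoc, mul_sub, sub_mul, h3, he, vu, h1]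
    abel
  have a3 : kme * y + y * kf = 0 := by
    apply Subtype.ext
    show (k - e) * (e * v) + e * v * (k - u * e * v) = 0
    simp only [mul_assoc, mul_sub, sub_mul, ee, ke, vu, evk]
    abel
  have a4 : kme * kme + y * x = 1 := by
    apply Subtype.ext
    show (k - e) * (k - e) + e * v * (u * e) = k
    simp only [mul_assoc, mul_sub, sub_mul, h3, h2, he, vu, hk.eq]
    abel
  have a5 : y * x + kme * kme = 1 := by rw [add_comm]; exact a4
  have a6 : y * kf + kme * y = 0 := by rw [add_comm]; exact a3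
  have a7 : kf * x + x * kme = 0 := by rw [add_comm]; exact a2
  have a8 : kf * kf + x * y = 1 := by rw [add_comm]; exact a1
  refine ⟨⟨!![x, kf; kme, y], !![y, kme; kf, x], ?_, ?_⟩, ?_⟩
  · rw [Matrix.mul_fin_two, Matrix.one_fin_two, a1, a2, a3, a4]
  · rw [Matrix.mul_fin_two, Matrix.one_fin_two, a5, a6, a7, a8]
  · intro a b hab hea hae
    rw [eq_mul_inv_iff_mul_eq]
    apply Units.ext
    show kap0 hk b * !![x, kf; kme, y] = !![x, kf; kme, y] * kap0 hk a
    show !![cor hk ((b : Rˣ) : R), 0; 0, 1] * !![x, kf; kme, y] =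
      !![x, kf; kme, y] * !![cor hk ((a : Rˣ) : R), 0; 0, 1]
    rw [Matrix.mul_fin_two, Matrix.mul_fin_two]
    simp only [mul_zero, zero_mul, add_zero, zero_add, mul_one, one_mul]
    obtain ⟨α, hα⟩ : ∃ α : R, α = ((a : Rˣ) : R) - 1 := ⟨_, rfl⟩
    rw [← hα] at hea hae
    have ha' : ((a : Rˣ) : R) = 1 + α := by rw [hα]; abel
    have eα : ∀ z, e * (α * z) = α * z := fun z => by rw [← mul_assoc, hea]
    have αe : ∀ z, α * (e * z) = α * z := fun z => by rw [← mul_assoc, hae]
    have kα : k * α = α := by rw [← hea, ke]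
    have αk : α * k = α := by rw [← hae, mul_assoc, h3]
    have e1 : k * ((a : Rˣ) : R) * k = k + α := by
      rw [ha', mul_add, mul_one, add_mul, hk.eq, kα, αk]
    have αv : α * (v * k) = α * v := by rw [← αe, evk, αe]
    have kuα : k * ((u : R) * α) = u * α := by rw [← hea, kue]
    have kuα' : ∀ z, k * ((u : R) * (α * z)) = u * (α * z) := fun z => by rw [← eα, kue, eα]
    have e2 : k * ((b : Rˣ) : R) * k = k + u * α * v := by
      have : ((b : Rˣ) : R) = 1 + u * α * v := by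
        rw [hab, Units.val_mul, Units.val_mul, ha', ← hv, mul_add, add_mul, mul_one, hv,
          Units.mul_inv]
      rw [this]
      simp only [mul_add, add_mul, mul_one, hk.eq, mul_assoc, kuα', αv]
    have c1 : cor hk ((b : Rˣ) : R) * x = x * cor hk ((a : Rˣ) : R) := by
      apply Subtype.ext
      show (k * ((b : Rˣ) : R) * k) * (u * e) = u * e * (k * ((a : Rˣ) : R) * k)
      rw [e1, e2]
      simp only [mul_add, add_mul, mul_assoc, h1, vu, hae, h3, hea]
    have c2 : cor hk ((b : Rˣ) : R) * kf = kf := by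
      apply Subtype.ext
      show (k * ((b : Rˣ) : R) * k) * (k - u * e * v) = k - u * e * v
      rw [e2]
      simp only [mul_sub, add_mul, mul_assoc, hk.eq, kue, vu, αe, αv]
      abel
    have c3 : kme * cor hk ((a : Rˣ) : R) = kme := by
      apply Subtype.ext
      show (k - e) * (k * ((a : Rˣ) : R) * k) = k - e
      rw [e1]
      simp only [mul_add, sub_mul, hk.eq, kα, h3, hea]
      abel
    rw [c1, c2, c3]

end alg

variable {C : ∀ (G : Type) [Group G], Prop}

/-- `X` is contained in the corner of an idempotent in `I` whose `GL₂` is in `C` -/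
def Enough (C : ∀ (G : Type) [Group G], Prop) {R : Type} [Ring R] (I : Set R) : Prop :=
  ∀ X : Finset R, (∀ x ∈ X, x ∈ I) → ∃ (e : R) (he : IsIdempotentElem e), e ∈ I ∧
    (∀ x ∈ X, e * x * e = x) ∧ C (Matrix (Fin 2) (Fin 2) he.Corner)ˣ

open Classical in
theorem one_step (hC : ClosedE C) {R T : Type} [Ring R] [Ring T] (ρ : R →+* T)
    (h : Enough C {x | ρ x = 0}) (G : Subgroup Rˣ)
    (hG : C ↥(G.map (Units.map (ρ : R →* T)))) : C ↥G := by
  let φ : G →* ↥(G.map (Units.map (ρ : R →* T))) := (Units.map (ρ : R →* T)).subgroupMap G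
  refine crit C hC G φ.ker (hC.base.of_injective _ _ (QuotientGroup.kerLift φ)
    (QuotientGroup.kerLift_injective φ) hG) ?_
  intro g E hE hEN
  let u : Rˣ := g
  have hker : ∀ a ∈ E, ρ (((a : Rˣ) : R) - 1) = 0 := by
    intro a ha
    have h1 : φ a = 1 := hEN ha
    have h2 : Units.map (ρ : R →* T) (a : Rˣ) = 1 := congrArg Subtype.val h1
    have h3 : ρ ((a : Rˣ) : R) = 1 := congrArg Units.val h2
    rw [map_sub, h3, map_one, sub_self]
  obtain ⟨e, he, heI, heX, -⟩ := h (hE.toFinset.image (fun a : G => ((a : Rˣ) : R) - 1)) (by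
    intro x hx
    rw [Finset.mem_image] at hx
    obtain ⟨a, ha, rfl⟩ := hx
    exact hker a (hE.mem_toFinset.1 ha))
  have heI' : ρ e = 0 := heI
  have heE : ∀ a ∈ E, e * (((a : Rˣ) : R) - 1) = (a : Rˣ) - 1 ∧
      (((a : Rˣ) : R) - 1) * e = (a : Rˣ) - 1 := by
    intro a ha
    have h1 := heX _ (Finset.mem_image_of_mem (fun a : G => ((a : Rˣ) : R) - 1) (hE.mem_toFinset.2 ha))
    constructor
    · rw [← h1, ← mul_assoc, ← mul_assoc, he.eq]
    · rw [← h1, mul_assoc, he.eq]
  obtain ⟨k, hk, hkI, hkX, hkC⟩ := h {e, u * e, e * ((u⁻¹ : Rˣ) : R)} (by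
    intro x hx
    simp only [Finset.mem_insert, Finset.mem_singleton] at hx
    show ρ x = 0
    rcases hx with rfl | rfl | rfl
    · exact heI'
    · rw [map_mul, heI', mul_zero]
    · rw [map_mul, heI', zero_mul])
  have hkX' : ∀ x ∈ ({e, u * e, e * ((u⁻¹ : Rˣ) : R)} : Finset R), k * x = x ∧ x * k = x := by
    intro x hx
    have h1 := hkX x hx
    constructor
    · rw [← h1, ← mul_assoc, ← mul_assoc, hk.eq]
    · rw [← h1, mul_assoc, hk.eq]
  obtain ⟨k1, k2⟩ := hkX' e (by simp)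
  obtain ⟨k3, -⟩ := hkX' (u * e) (by simp)
  obtain ⟨-, k4⟩ := hkX' (e * ((u⁻¹ : Rˣ) : R)) (by simp)
  obtain ⟨p, hp⟩ := exists_p hk u e he.eq k3 k1 k2 k4
  have hEU : ∀ a ∈ E, (a : Rˣ) ∈ UC k := by
    intro a ha
    obtain ⟨h1, h2⟩ := heE a ha
    constructor
    · rw [← h1, ← mul_assoc, k1]
    · rw [← h2, mul_assoc, k2]
  have hEU' : ∀ a ∈ E, ((g * a * g⁻¹ : G) : Rˣ) ∈ UC k := by
    intro a ha
    obtain ⟨h1, h2⟩ := heE a ha
    have h3 : (((g * a * g⁻¹ : G) : Rˣ) : R) - 1 =
        (u * e) * (((a : Rˣ) : R) - 1) * (e * ((u⁻¹ : Rˣ) : R)) := by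
      have h4 : (((g * a * g⁻¹ : G) : Rˣ) : R) = u * ((a : Rˣ) : R) * ((u⁻¹ : Rˣ) : R) := rfl
      rw [h4, mul_assoc (u : R) e, h1, ← mul_assoc _ e, mul_assoc (u : R) _ e, h2]
      rw [mul_sub, sub_mul, mul_one, Units.mul_inv]
    constructor
    · rw [h3]
      calc k * ((u * e) * (((a : Rˣ) : R) - 1) * (e * ((u⁻¹ : Rˣ) : R))) =
          (k * (u * e)) * (((a : Rˣ) : R) - 1) * (e * ((u⁻¹ : Rˣ) : R)) := by
            simp only [mul_assoc]
        _ = _ := by rw [k3]
    · rw [h3, mul_assoc, k4]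
  have hle : ∀ z : ↥(Subgroup.closure (E ∪ (fun x => g * x * g⁻¹) '' E)),
      ((z : G) : Rˣ) ∈ UC k := by
    have h1 : Subgroup.closure (E ∪ (fun x => g * x * g⁻¹) '' E) ≤ (UC k).comap G.subtype := by
      rw [Subgroup.closure_le]
      rintro x (hx | ⟨x, hx, rfl⟩)
      · exact hEU x hx
      · exact hEU' x hx
    exact fun z => h1 z.2
  let f : ↥(Subgroup.closure (E ∪ (fun x => g * x * g⁻¹) '' E)) →* UC k :=
    (G.subtype.comp (Subgroup.subtype _)).codRestrict (UC k) hle
  refine ⟨(Matrix (Fin 2) (Fin 2) hk.Corner)ˣ, inferInstance, (kap0 hk).toHomUnits.comp f, p, hkC,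
    ?_, ?_⟩
  · have h1 : Function.Injective (kap0 hk).toHomUnits := by
      intro a b hab
      exact kap0_inj hk (congrArg Units.val hab)
    have h2 : Function.Injective f := by
      intro a b hab
      have h3 : ((a : G) : Rˣ) = ((b : G) : Rˣ) := congrArg (fun z : UC k => (z : Rˣ)) hab
      exact Subtype.ext (Subtype.ext h3)
    exact h1.comp h2
  · intro x y hx hy
    refine hp (f x) (f y) ?_ (heE x hx).1 (heE x hx).2
    show ((y : G) : Rˣ) = u * ((x : G) : Rˣ) * u⁻¹
    rw [hy]; rfl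

end Pool.Agent.H65FJ
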