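import Pool.Agent.H65FJ.Ring1
import Pool.Agent.H65FJ.Hyper
import Mathlib.RingTheory.TwoSidedIdeal.Kernel
import Mathlib.RingTheory.TwoSidedIdeal.Lattice

/-!
# Unit groups of rings with an ascending chain of ideals
-/

set_option autoImplicit false

namespace Pool.Agent.H65FJ

open Pool.Agent.Y110.FJ
open Pool.Agent.Y462.SS (Closed)

variable {C : ∀ (G : Type) [Group G], Prop} {R : Type} [Ring R]

/-- the reduction of the units modulo `J` -/
abbrev red (J : TwoSidedIdeal R) : Rˣ →* (J.ringCon.Quotient)ˣ :=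
  Units.map (J.ringCon.mk' : R →* J.ringCon.Quotient)

theorem mk_eq_zero (J : TwoSidedIdeal R) (x : R) : J.ringCon.mk' x = 0 ↔ x ∈ J := by
  have h := TwoSidedIdeal.mem_ker (f := J.ringCon.mk') (x := x)
  rw [TwoSidedIdeal.ker_ringCon_mk'] at h
  exact h.symm

theorem mem_red_ker (J : TwoSidedIdeal R) (x : Rˣ) : x ∈ (red J).ker ↔ (x : R) - 1 ∈ J := by
  rw [← mk_eq_zero, map_sub, map_one, sub_eq_zero, MonoidHom.mem_ker, ← Units.val_inj]
  rfl

theorem lemB (hC : ClosedE C) (J : TwoSidedIdeal R) (G : Subgroup Rˣ)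
    (hP : ∀ g ∈ G, C ↥((G ⊓ (red J).ker) ⊔ Subgroup.zpowers g)) (L : Subgroup Rˣ) (hLG : L ≤ G)
    (hL : C ↥(L.map (red J))) : C ↥L := by
  let φ : L →* ↥(L.map (red J)) := (red J).subgroupMap L
  have hmem : ∀ (x : L) (y : L), y ∈ φ.ker ⊔ Subgroup.zpowers x →
      (y : Rˣ) ∈ (G ⊓ (red J).ker) ⊔ Subgroup.zpowers (x : Rˣ) := by
    intro x y hy
    have h1 : (φ.ker ⊔ Subgroup.zpowers x).map L.subtype ≤
        (G ⊓ (red J).ker) ⊔ Subgroup.zpowers (x : Rˣ) := by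
      rw [Subgroup.map_sup]
      refine sup_le_sup ?_ ?_
      · rintro _ ⟨z, hz, rfl⟩
        exact ⟨hLG z.2, congrArg Subtype.val (show φ z = 1 from hz)⟩
      · rw [MonoidHom.map_zpowers]; rfl
    exact h1 ⟨y, hy, rfl⟩
  have hx : ∀ x : L, C ↥(φ.ker ⊔ Subgroup.zpowers x) := by
    intro x
    refine hC.base.of_injective _ _ ((L.subtype.comp (Subgroup.subtype _)).codRestrict
      ((G ⊓ (red J).ker) ⊔ Subgroup.zpowers (x : Rˣ)) (fun y => hmem x y.1 y.2)) ?_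
      (hP x (hLG x.2))
    intro y z hyz
    have h2 : ((y.1 : L) : Rˣ) = ((z.1 : L) : Rˣ) := congrArg
      (fun w : ↥((G ⊓ (red J).ker) ⊔ Subgroup.zpowers (x : Rˣ)) => (w : Rˣ)) hyz
    exact Subtype.ext (Subtype.ext h2)
  refine Pool.Agent.Y529.FJ.t_ext C hC L φ.ker ?_ ?_ (fun x _ => hx x)
  · exact hC.base.of_injective _ _ (Subgroup.inclusion (le_sup_left (b := Subgroup.zpowers 1)))
      (Subgroup.inclusion_injective _) (hx 1)
  · exact hC.base.of_injective _ _ (QuotientGroup.kerLift φ) (QuotientGroup.kerLift_injective φ) hL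

/-- the step from `J` to `J'` -/
def GoodStep (C : ∀ (G : Type) [Group G], Prop) (J J' : TwoSidedIdeal R) : Prop :=
  Enough C {x : J.ringCon.Quotient | ∃ r ∈ J', J.ringCon.mk' r = x}

theorem lemA (hC : ClosedE C) (J J' : TwoSidedIdeal R) (hJ : J ≤ J') (hE : GoodStep C J J')
    (G : Subgroup Rˣ) (hP : ∀ g ∈ G, C ↥((G ⊓ (red J).ker) ⊔ Subgroup.zpowers g))
    (L : Subgroup Rˣ) (hLG : L ≤ G) (hL : C ↥(L.map (red J'))) : C ↥L := by
  refine lemB hC J G hP L hLG ?_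
  have hle : J.ringCon ≤ RingCon.ker J'.ringCon.mk' := by
    rw [RingCon.ker_mk'_eq]
    exact TwoSidedIdeal.ringCon_le_iff.1 hJ
  let ρ : J.ringCon.Quotient →+* J'.ringCon.Quotient := J.ringCon.lift J'.ringCon.mk' hle
  have hρ : ∀ r, ρ (J.ringCon.mk' r) = J'.ringCon.mk' r := fun r => rfl
  have hker : {x : J.ringCon.Quotient | ρ x = 0} =
      {x : J.ringCon.Quotient | ∃ r ∈ J', J.ringCon.mk' r = x} := by
    ext x
    obtain ⟨r, rfl⟩ := RingCon.mk'_surjective J.ringCon x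
    constructor
    · intro h
      exact ⟨r, (mk_eq_zero J' r).1 h, rfl⟩
    · rintro ⟨s, hs, h⟩
      rw [← h]
      exact (mk_eq_zero J' s).2 hs
  refine one_step hC ρ (by rw [hker]; exact hE) _ ?_
  rw [Subgroup.map_map]
  exact hL

/-- `K` is a set of ideals contained in `M` which contains `0` and the unions of its chains, and each
`J ≠ M` in `K` has a good step to a larger ideal `J'` in `K`, for example an ascending transfinite
chain from `0` to `M` with good steps -/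
structure IdealChain (C : ∀ (G : Type) [Group G], Prop) (M : TwoSidedIdeal R)
    (K : Set (TwoSidedIdeal R)) : Prop where
  bot : ⊥ ∈ K
  le : ∀ J ∈ K, J ≤ M
  union : ∀ c ⊆ K, c.Nonempty → IsChain (· ≤ ·) c →
    ∀ I : TwoSidedIdeal R, (∀ x, x ∈ I ↔ ∃ J ∈ c, x ∈ J) → I ∈ K
  step : ∀ J ∈ K, J ≠ M → ∃ J' ∈ K, J < J' ∧ GoodStep C J J'

/-- the union of a directed set of ideals -/
theorem exists_union (c : Set (TwoSidedIdeal R)) (hne : c.Nonempty)
    (hdir : DirectedOn (· ≤ ·) c) : ∃ I : TwoSidedIdeal R, ∀ x, x ∈ I ↔ ∃ J ∈ c, x ∈ J := by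
  refine ⟨TwoSidedIdeal.mk' {x | ∃ J ∈ c, x ∈ J} ?_ ?_ ?_ ?_ ?_, fun x => ?_⟩
  · obtain ⟨J, hJ⟩ := hne
    exact ⟨J, hJ, J.zero_mem⟩
  · rintro x y ⟨J, hJ, hx⟩ ⟨K, hK, hy⟩
    obtain ⟨L, hL, h1, h2⟩ := hdir J hJ K hK
    exact ⟨L, hL, L.add_mem (TwoSidedIdeal.le_iff.1 h1 hx) (TwoSidedIdeal.le_iff.1 h2 hy)⟩
  · rintro x ⟨J, hJ, hx⟩
    exact ⟨J, hJ, J.neg_mem hx⟩
  · rintro x y ⟨J, hJ, hy⟩
    exact ⟨J, hJ, J.mul_mem_left x y hy⟩
  · rintro x y ⟨J, hJ, hx⟩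
    exact ⟨J, hJ, J.mul_mem_right x y hx⟩
  · rw [TwoSidedIdeal.mem_mk']
    rfl

/-- **Unit groups of rings with an ascending chain of ideals.** -/
theorem chain (hC : ClosedE C) (M : TwoSidedIdeal R) (K : Set (TwoSidedIdeal R))
    (h : IdealChain C M K) (G : Subgroup Rˣ) (hG : C ↥(G.map (red M))) : C ↥G := by
  classical
  let Z : Set (TwoSidedIdeal R) := {J | J ∈ K ∧
    ∀ g ∈ G, C ↥((G ⊓ (red J).ker) ⊔ Subgroup.zpowers g)}
  have hbot : (⊥ : TwoSidedIdeal R) ∈ Z := by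
    refine ⟨h.bot, fun g hg => ?_⟩
    have h1 : (red (⊥ : TwoSidedIdeal R)).ker = ⊥ := by
      rw [eq_bot_iff]
      intro x hx
      rw [mem_red_ker, TwoSidedIdeal.mem_bot, sub_eq_zero] at hx
      exact Units.ext hx
    refine of_eq ?_ (cyc hC.base Rˣ g)
    rw [h1, inf_bot_eq, bot_sup_eq]
  have hchain : ∀ c ⊆ Z, IsChain (· ≤ ·) c → ∀ y ∈ c, ∃ ub ∈ Z, ∀ z ∈ c, z ≤ ub := by
    intro c hc hch y hy
    have hdir : DirectedOn (· ≤ ·) c := hch.directedOn
    obtain ⟨I, hI⟩ := exists_union c ⟨y, hy⟩ hdir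
    have hub : ∀ z ∈ c, z ≤ I := fun z hz x hx => (hI x).2 ⟨z, hz, hx⟩
    refine ⟨I, ⟨?_, ?_⟩, hub⟩
    · exact h.union c (fun J hJ => (hc hJ).1) ⟨y, hy⟩ hch I hI
    · intro g hg
      have : Nonempty c := ⟨⟨y, hy⟩⟩
      have hker : ∀ J J' : TwoSidedIdeal R, J ≤ J' → (G ⊓ (red J).ker) ⊔ Subgroup.zpowers g ≤
          (G ⊓ (red J').ker) ⊔ Subgroup.zpowers g := by
        intro J J' hJ
        refine sup_le_sup_right (inf_le_inf_left _ ?_) _
        intro x hx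
        rw [mem_red_ker] at hx ⊢
        exact hJ hx
      refine Pool.Agent.Y430.SS.of_directed hC.base _ c ?_
        (fun J => ((G ⊓ (red J.1).ker) ⊔ Subgroup.zpowers g).subgroupOf
          ((G ⊓ (red I).ker) ⊔ Subgroup.zpowers g)) ?_ ?_ ?_
      · rintro ⟨i, hi⟩ ⟨j, hj⟩
        obtain ⟨k, hk, h1, h2⟩ := hdir i hi j hj
        exact ⟨⟨k, hk⟩, h1, h2⟩
      · intro J J' hJ x hx
        exact hker J.1 J'.1 hJ hx
      · rintro ⟨x, hx⟩
        have key : ∀ x ∈ (G ⊓ (red I).ker) ⊔ Subgroup.zpowers g, ∃ J : c,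
            x ∈ (G ⊓ (red J.1).ker) ⊔ Subgroup.zpowers g := by
          intro x hx
          rw [← Subgroup.closure_eq (G ⊓ (red I).ker), Subgroup.zpowers_eq_closure,
            ← Subgroup.closure_union] at hx
          induction hx using Subgroup.closure_induction with
          | mem x hx =>
            rcases hx with ⟨hxG, hx⟩ | hx
            · have hx' : (x : R) - 1 ∈ I := (mem_red_ker I x).1 hx
              obtain ⟨J, hJ, hxJ⟩ := (hI _).1 hx'
              exact ⟨⟨J, hJ⟩, Subgroup.mem_sup_left ⟨hxG, (mem_red_ker J x).2 hxJ⟩⟩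
            · rw [Set.mem_singleton_iff.1 hx]
              exact ⟨⟨y, hy⟩, Subgroup.mem_sup_right (Subgroup.mem_zpowers g)⟩
          | one => exact ⟨⟨y, hy⟩, one_mem _⟩
          | mul a b _ _ ha hb =>
            obtain ⟨⟨i, hi⟩, h1⟩ := ha
            obtain ⟨⟨j, hj⟩, h2⟩ := hb
            obtain ⟨k, hk, h3, h4⟩ := hdir i hi j hj
            exact ⟨⟨k, hk⟩, mul_mem (hker i k h3 h1) (hker j k h4 h2)⟩
          | inv a _ ha =>
            obtain ⟨i, h1⟩ := ha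
            exact ⟨i, inv_mem h1⟩
        obtain ⟨J, hJ⟩ := key x hx
        exact ⟨J, hJ⟩
      · intro J
        have hle := hker J.1 I (hub J.1 J.2)
        exact hC.base.of_injective _ _ (Subgroup.subgroupOfEquivOfLe hle).toMonoidHom
          (Subgroup.subgroupOfEquivOfLe hle).injective ((hc J.2).2 g hg)
  obtain ⟨J, _, hJ⟩ := zorn_le_nonempty₀ Z hchain ⊥ hbot
  by_cases hJM : J = M
  · subst hJM
    exact lemB hC J G hJ.prop.2 G le_rfl hG
  · exfalso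
    obtain ⟨J', hJ'K, hJJ', hstep⟩ := h.step J hJ.prop.1 hJM
    refine absurd (hJ.le_of_ge (y := J') ⟨hJ'K, fun g hg => ?_⟩ hJJ'.le) (not_le_of_gt hJJ')
    refine lemA hC J J' hJJ'.le hstep G hJ.prop.2 _ (sup_le inf_le_left ?_) ?_
    · rwa [Subgroup.zpowers_le]
    · refine of_eq ?_ (cyc hC.base _ (red J' g))
      rw [Subgroup.map_sup, MonoidHom.map_zpowers]
      have h1 : (G ⊓ (red J').ker).map (red J') = ⊥ := by
        rw [eq_bot_iff]
        rintro _ ⟨x, hx, rfl⟩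
        exact hx.2
      rw [h1, bot_sup_eq]

end Pool.Agent.H65FJ
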