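import Pool.Agent.H65FJ.Ring2

/-!
# Groups of linear maps modulo finitary maps
-/

set_option autoImplicit false

namespace Pool.Agent.H65FJ

open Pool.Agent.Y110.FJ
open Pool.Agent.Y462.SS (Closed)

section

variable (F V : Type) [DivisionRing F] [AddCommGroup V] [Module F V]

/-- the ideal of the endomorphisms of finite rank -/
def finRank : TwoSidedIdeal (Module.End F V) :=
  TwoSidedIdeal.mk' {x | Module.Finite F (LinearMap.range x)}
    (by
      show Module.Finite F (LinearMap.range (0 : Module.End F V))
      rw [LinearMap.range_zero]; infer_instance)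
    (by
      intro x y hx hy
      have : Module.Finite F (LinearMap.range x) := hx
      have : Module.Finite F (LinearMap.range y) := hy
      exact Submodule.finiteDimensional_of_le (LinearMap.range_add_le x y))
    (by
      intro x hx
      show Module.Finite F (LinearMap.range (-x))
      rw [LinearMap.range_neg]; exact hx)
    (by
      intro x y hy
      have : Module.Finite F (LinearMap.range y) := hy
      show Module.Finite F (LinearMap.range (x.comp y))
      rw [LinearMap.range_comp]; infer_instance)
    (by
      intro x y hx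
      have : Module.Finite F (LinearMap.range x) := hx
      exact Submodule.finiteDimensional_of_le (LinearMap.range_comp_le_range y x))

variable {F V}

theorem mem_finRank (x : Module.End F V) :
    x ∈ finRank F V ↔ Module.Finite F (LinearMap.range x) := by
  unfold finRank
  rw [TwoSidedIdeal.mem_mk']
  rfl

/-- finitely many maps of finite rank are in a corner of finite rank -/
theorem exists_idem (X : Finset (Module.End F V))
    (hX : ∀ x ∈ X, Module.Finite F (LinearMap.range x)) :
    ∃ e : Module.End F V, IsIdempotentElem e ∧ Module.Finite F (LinearMap.range e) ∧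
      ∀ x ∈ X, e * x * e = x := by
  classical
  let I : Submodule F V := ⨆ x : X, LinearMap.range x.1
  have hI : Module.Finite F I := by
    have : ∀ x : X, Module.Finite F (LinearMap.range x.1) := fun x => hX x.1 x.2
    exact Submodule.finite_iSup _
  let Φ : V →ₗ[F] (∀ x : X, LinearMap.range x.1) := LinearMap.pi (fun x => x.1.rangeRestrict)
  let K : Submodule F V := LinearMap.ker Φ
  have hK : ∀ x ∈ X, ∀ v ∈ K, x v = 0 := by
    intro x hx v hv
    have h1 : Φ v = 0 := hv
    have h2 := congrFun h1 ⟨x, hx⟩
    exact congrArg Subtype.val h2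
  obtain ⟨K', hK'⟩ := Submodule.exists_isCompl K
  have hK'f : Module.Finite F K' := by
    have : ∀ x : X, Module.Finite F (LinearMap.range x.1) := fun x => hX x.1 x.2
    refine Module.Finite.of_injective (Φ.comp K'.subtype) ?_
    rw [← LinearMap.ker_eq_bot, LinearMap.ker_comp, eq_bot_iff]
    intro y hy
    have h1 : (y : V) ∈ K := hy
    have h2 : (y : V) ∈ K ⊓ K' := ⟨h1, y.2⟩
    rw [hK'.inf_eq_bot] at h2
    exact Subtype.ext h2
  let V0 : Submodule F V := I ⊔ K'
  have hV0 : Module.Finite F V0 := by
    show Module.Finite F ↥(I ⊔ K')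
    infer_instance
  obtain ⟨V1, h1, h2⟩ := IsModularLattice.exists_disjoint_and_sup_eq
    (a := V0 ⊓ K) (b := K) inf_le_right
  have hV1K : V1 ≤ K := by rw [← h2]; exact le_sup_right
  have hc : IsCompl V0 V1 := by
    constructor
    · rw [disjoint_iff, eq_bot_iff]
      intro v hv
      have h3 : v ∈ (V0 ⊓ K) ⊓ V1 := ⟨⟨hv.1, hV1K hv.2⟩, hv.2⟩
      rwa [h1.eq_bot] at h3
    · rw [codisjoint_iff, eq_top_iff, ← hK'.sup_eq_top]
      refine sup_le ?_ (le_sup_of_le_left le_sup_right)
      rw [← h2]
      exact sup_le (le_sup_of_le_left inf_le_left) le_sup_right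
  refine ⟨V0.projection V1 hc, Submodule.isIdempotentElem_projection hc, ?_, ?_⟩
  · rw [Submodule.range_projection]; exact hV0
  · intro x hx
    apply LinearMap.ext
    intro v
    show V0.projection V1 hc (x (V0.projection V1 hc v)) = x v
    have e1 : x (V0.projection V1 hc v) = x v := by
      have h3 := Submodule.sub_projection_mem hc v
      have h4 := hK x hx _ (hV1K h3)
      rw [map_sub, sub_eq_zero] at h4
      exact h4.symm
    rw [e1, Submodule.projection_eq_self_iff]
    exact le_sup_left (a := I) (Submodule.mem_iSup_of_mem (⟨x, hx⟩ : X) ⟨v, rfl⟩)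

/-- the corner acts on the range -/
def psi {e : Module.End F V} (he : IsIdempotentElem e) :
    he.Corner →+* Module.End F (LinearMap.range e) where
  toFun x := (x.1.comp (LinearMap.range e).subtype).codRestrict (LinearMap.range e) (by
    intro w
    obtain ⟨h1, h2⟩ := (Subsemigroup.mem_corner_iff he).1 x.2
    exact ⟨x.1 w, by
      have := LinearMap.congr_fun h1 (w : V)
      exact this⟩)
  map_one' := by
    apply LinearMap.ext
    rintro ⟨_, ⟨v, rfl⟩⟩
    apply Subtype.ext
    exact LinearMap.congr_fun he.eq v
  map_mul' x y := rfl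
  map_zero' := rfl
  map_add' x y := rfl

theorem psi_inj {e : Module.End F V} (he : IsIdempotentElem e) : Function.Injective (psi he) := by
  intro x y hxy
  apply Subtype.ext
  apply LinearMap.ext
  intro v
  obtain ⟨_, h2⟩ := (Subsemigroup.mem_corner_iff he).1 x.2
  obtain ⟨_, h4⟩ := (Subsemigroup.mem_corner_iff he).1 y.2
  have h5 := LinearMap.congr_fun hxy (⟨e v, ⟨v, rfl⟩⟩ : LinearMap.range e)
  have h6 : x.1 (e v) = y.1 (e v) := congrArg Subtype.val h5
  have h7 : x.1 (e v) = x.1 v := LinearMap.congr_fun h2 v
  have h8 : y.1 (e v) = y.1 v := LinearMap.congr_fun h4 v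
  rw [← h7, h6, h8]

variable {C : ∀ (G : Type) [Group G], Prop}

theorem corner_mem (hC : Closed C) (hF : ∀ n : ℕ, C (Module.End F (Fin n → F))ˣ)
    {e : Module.End F V} (he : IsIdempotentElem e) (hfin : Module.Finite F (LinearMap.range e)) :
    C (Matrix (Fin 2) (Fin 2) he.Corner)ˣ := by
  let W := LinearMap.range e
  let n := Module.finrank F (Fin 2 → W)
  let l : (Fin 2 → W) ≃ₗ[F] (Fin n → F) := LinearEquiv.ofFinrankEq _ _ (by simp [n])
  let Φ : Matrix (Fin 2) (Fin 2) he.Corner →+* Module.End F (Fin n → F) :=
    (l.conjRingEquiv.toRingHom).comp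
      (((endVecRingEquivMatrixEnd (Fin 2) F W).symm.toRingHom).comp (psi he).mapMatrix)
  have hΦ : Function.Injective Φ := by
    refine l.conjRingEquiv.injective.comp
      ((endVecRingEquivMatrixEnd (Fin 2) F W).symm.injective.comp ?_)
    intro A B hAB
    ext i j
    apply psi_inj he
    exact congrFun (congrFun hAB i) j
  exact hC.of_injective _ _ (Units.map (Φ : _ →* Module.End F (Fin n → F)))
    (Units.map_injective hΦ) (hF n)

theorem enough_finRank (hC : Closed C) (hF : ∀ n : ℕ, C (Module.End F (Fin n → F))ˣ) :
    Enough C {x : Module.End F V | x ∈ finRank F V} := by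
  intro X hX
  obtain ⟨e, he, h1, h2⟩ := exists_idem X (fun x hx => (mem_finRank x).1 (hX x hx))
  exact ⟨e, he, (mem_finRank e).2 h1, h2, corner_mem hC hF he h1⟩

/-- **Groups of linear maps modulo finitary maps.** -/
theorem finitary_linear (hC : ClosedE C) (hF : ∀ n : ℕ, C (Module.End F (Fin n → F))ˣ)
    (G : Subgroup (Module.End F V)ˣ) (hG : C ↥(G.map (red (finRank F V)))) : C ↥G := by
  refine one_step hC (finRank F V).ringCon.mk' ?_ G hG
  have h1 : {x : Module.End F V | (finRank F V).ringCon.mk' x = 0} = {x | x ∈ finRank F V} := by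
    ext x
    exact mk_eq_zero _ x
  rw [h1]
  exact enough_finRank hC.base hF

end

/-! ### the statements -/

/-- the image of the group `G` of units of `R` in the units of `T` is in `C` -/
def ImageIn (C : ∀ (G : Type) [Group G], Prop) {R T : Type} [Ring R] [Ring T] (ρ : R →+* T)
    (G : Subgroup Rˣ) : Prop :=
  C ↥(G.map (Units.map (ρ : R →* T)))

/-- a group `G` of units of `R` is in `C` if its image in `Tˣ` is in `C` -/
def Lifts (C : ∀ (G : Type) [Group G], Prop) {R T : Type} [Ring R] [Ring T] (ρ : R →+* T) : Prop :=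
  ∀ G : Subgroup Rˣ, ImageIn C ρ G → C ↥G

/-- the automorphism groups of the `F`-vector spaces `Fⁿ` are in `C` -/
def GLIn (C : ∀ (G : Type) [Group G], Prop) (F : Type) [DivisionRing F] : Prop :=
  ∀ n : ℕ, C (Module.End F (Fin n → F))ˣ

end Pool.Agent.H65FJ
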