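import Pool.Agent.H65FJ.Sd

/-!
# Finite models of an automorphism of a graph product which permutes the vertex groups
-/

set_option autoImplicit false

namespace Pool.Agent.H65FJ

open Pool.Agent.Y110.FJ
open Pool.Agent.Y462.SS (Closed)

variable {C : ∀ (G : Type) [Group G], Prop}

/-- an automorphism of a graph product which permutes the vertex groups -/
structure Dat {V : Type} (Λ : SimpleGraph V) (A : V → Type) [∀ v, Group (A v)] where
  σ : MulAut (GrP Λ A)
  s : Equiv.Perm V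
  hσ : ∀ v a, ∃ b : A (s v), σ (GrP.of Λ A v a) = GrP.of Λ A (s v) b
  hσ' : ∀ v a, ∃ b : A (s⁻¹ v), σ⁻¹ (GrP.of Λ A v a) = GrP.of Λ A (s⁻¹ v) b
  hΛ : ∀ v w, Λ.Adj (s v) (s w) ↔ Λ.Adj v w

namespace Dat

variable {V : Type} {Λ : SimpleGraph V} {A : V → Type} [∀ v, Group (A v)]

/-- the vertex groups -/
def Ag (Λ : SimpleGraph V) (A : V → Type) [∀ v, Group (A v)] (v : V) : Subgroup (GrP Λ A) :=
  (GrP.of Λ A v).range

variable (D : Dat Λ A)

theorem hΛz (k : ℤ) (v w : V) : Λ.Adj ((D.s ^ k) v) ((D.s ^ k) w) ↔ Λ.Adj v w := by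
  induction k using Int.induction_on generalizing v w with
  | zero => rfl
  | succ n ih => rw [zpow_add_one, Equiv.Perm.mul_apply, Equiv.Perm.mul_apply, ih, D.hΛ]
  | pred n ih =>
    rw [zpow_sub_one, Equiv.Perm.mul_apply, Equiv.Perm.mul_apply, ih]
    rw [← D.hΛ]
    rw [← Equiv.Perm.mul_apply, ← Equiv.Perm.mul_apply, mul_inv_cancel]
    rfl

theorem z1 (k : ℤ) (v : V) (x : GrP Λ A) (hx : x ∈ Ag Λ A v) :
    (D.σ ^ k) x ∈ Ag Λ A ((D.s ^ k) v) := by
  induction k using Int.induction_on generalizing v x with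
  | zero => exact hx
  | succ n ih =>
    rw [zpow_add_one, zpow_add_one, Equiv.Perm.mul_apply, MulAut.mul_apply]
    apply ih
    obtain ⟨a, rfl⟩ := hx
    obtain ⟨b, hb⟩ := D.hσ v a
    exact ⟨b, hb.symm⟩
  | pred n ih =>
    rw [zpow_sub_one, zpow_sub_one, Equiv.Perm.mul_apply, MulAut.mul_apply]
    apply ih
    obtain ⟨a, rfl⟩ := hx
    obtain ⟨b, hb⟩ := D.hσ' v a
    exact ⟨b, hb.symm⟩

theorem ag_comm {v w : V} (h : Λ.Adj v w) (a b : GrP Λ A) (ha : a ∈ Ag Λ A v)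
    (hb : b ∈ Ag Λ A w) : a * b = b * a := by
  obtain ⟨a, rfl⟩ := ha
  obtain ⟨b, rfl⟩ := hb
  exact of_comm h a b

/-! ### orbits -/

open Classical in
/-- base point of the orbit -/
noncomputable def o (v : V) : V := (Quotient.mk (Equiv.Perm.SameCycle.setoid D.s) v).out

theorem o_spec (v : V) : ∃ k : ℤ, (D.s ^ k) (D.o v) = v := by
  have h : Equiv.Perm.SameCycle D.s (D.o v) v :=
    Quotient.exact (s := Equiv.Perm.SameCycle.setoid D.s)
      (Quotient.out_eq (Quotient.mk (Equiv.Perm.SameCycle.setoid D.s) v))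
  exact h

theorem o_s (v : V) : D.o (D.s v) = D.o v := by
  unfold o
  congr 1
  apply Quotient.sound (s := Equiv.Perm.SameCycle.setoid D.s)
  show Equiv.Perm.SameCycle D.s (D.s v) v
  exact ⟨-1, by rw [zpow_neg_one, ← Equiv.Perm.mul_apply, inv_mul_cancel]; rfl⟩

/-- the coordinate in the orbit -/
noncomputable def i (v : V) : ℤ := (D.o_spec v).choose

theorem i_spec (v : V) : (D.s ^ (D.i v)) (D.o v) = v := (D.o_spec v).choose_spec

/-- the orbit of `v` is infinite -/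
def Inf (v : V) : Prop := ∀ c : ℕ, 0 < c → (D.s ^ c) v ≠ v

theorem inf_zpow {v : V} (h : D.Inf v) (k : ℤ) (hk : (D.s ^ k) v = v) : k = 0 := by
  rcases Int.eq_nat_or_neg k with ⟨n, rfl | rfl⟩
  · rcases Nat.eq_zero_or_pos n with rfl | hn
    · rfl
    · exact absurd (by simpa using hk) (h n hn)
  · rcases Nat.eq_zero_or_pos n with rfl | hn
    · rfl
    · exfalso
      apply h n hn
      rw [zpow_neg, Equiv.Perm.inv_eq_iff_eq] at hk
      have := hk.symm
      simpa using this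

theorem inf_of (v : V) (k : ℤ) (h : D.Inf ((D.s ^ k) v)) : D.Inf v := by
  intro c hc hcv
  apply h c hc
  rw [← Equiv.Perm.mul_apply, ← zpow_natCast, ← zpow_add, add_comm, zpow_add, Equiv.Perm.mul_apply,
    zpow_natCast, hcv]

theorem i_s (v : V) (h : D.Inf v) : D.i (D.s v) = D.i v + 1 := by
  have h1 := D.i_spec (D.s v)
  have h2 := D.i_spec v
  rw [D.o_s] at h1
  have h3 : (D.s ^ (D.i v + 1)) (D.o v) = D.s v := by
    rw [add_comm, zpow_add, Equiv.Perm.mul_apply, h2, zpow_one]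
  have h4 : (D.s ^ (D.i (D.s v) - (D.i v + 1))) (D.o v) = D.o v := by
    rw [sub_eq_neg_add, zpow_add, Equiv.Perm.mul_apply, h1, ← h3, ← Equiv.Perm.mul_apply,
      ← zpow_add, neg_add_cancel]
    rfl
  have h5 : D.Inf (D.o v) := by
    apply D.inf_of (D.o v) (D.i v)
    rw [h2]; exact h
  have := D.inf_zpow h5 _ h4
  omega

variable (m : ℕ)

/-- the vertices of the finite model -/
abbrev T : Type := {v : V // (D.s ^ m) v = v} ⊕ (V × ZMod m)

/-- the underlying vertex -/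
def base : D.T m → V
  | Sum.inl v => v.1
  | Sum.inr p => p.1

theorem fix_s {v : V} (h : (D.s ^ m) v = v) : (D.s ^ m) (D.s v) = D.s v := by
  rw [← Equiv.Perm.mul_apply, ← pow_succ, pow_succ', Equiv.Perm.mul_apply, h]

theorem fix_s' {v : V} (h : (D.s ^ m) v = v) : (D.s ^ m) (D.s⁻¹ v) = D.s⁻¹ v := by
  rw [Equiv.Perm.eq_inv_iff_eq, ← Equiv.Perm.mul_apply, ← pow_succ', pow_succ,
    Equiv.Perm.mul_apply]
  have : D.s (D.s⁻¹ v) = v := by rw [← Equiv.Perm.mul_apply, mul_inv_cancel]; rfl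
  rw [this, h]

/-- the permutation of the finite model -/
def τ : Equiv.Perm (D.T m) where
  toFun x := match x with
    | Sum.inl v => Sum.inl ⟨D.s v.1, D.fix_s m v.2⟩
    | Sum.inr p => Sum.inr (p.1, p.2 + 1)
  invFun x := match x with
    | Sum.inl v => Sum.inl ⟨D.s⁻¹ v.1, D.fix_s' m v.2⟩
    | Sum.inr p => Sum.inr (p.1, p.2 - 1)
  left_inv x := by
    rcases x with v | p
    · show Sum.inl _ = Sum.inl _
      congr 1
      apply Subtype.ext
      show D.s⁻¹ (D.s v.1) = v.1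
      rw [← Equiv.Perm.mul_apply, inv_mul_cancel]; rfl
    · show Sum.inr (p.1, p.2 + 1 - 1) = Sum.inr p
      rw [add_sub_cancel_right]
  right_inv x := by
    rcases x with v | p
    · show Sum.inl _ = Sum.inl _
      congr 1
      apply Subtype.ext
      show D.s (D.s⁻¹ v.1) = v.1
      rw [← Equiv.Perm.mul_apply, mul_inv_cancel]; rfl
    · show Sum.inr (p.1, p.2 - 1 + 1) = Sum.inr p
      rw [sub_add_cancel]

theorem τ_inl (k : ℤ) (v : V) (h : (D.s ^ m) v = v) :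
    ∃ h', ((D.τ m) ^ k) (Sum.inl ⟨v, h⟩) = Sum.inl ⟨(D.s ^ k) v, h'⟩ := by
  induction k using Int.induction_on generalizing v with
  | zero => exact ⟨h, rfl⟩
  | succ n ih =>
    obtain ⟨h', h1⟩ := ih (D.s v) (D.fix_s m h)
    have h2 : (D.s ^ (n : ℤ)) (D.s v) = (D.s ^ ((n : ℤ) + 1)) v := by
      rw [zpow_add_one, Equiv.Perm.mul_apply]
    refine ⟨h2 ▸ h', ?_⟩
    rw [zpow_add_one, Equiv.Perm.mul_apply]
    refine Eq.trans h1 ?_
    exact congrArg Sum.inl (Subtype.ext h2)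
  | pred n ih =>
    obtain ⟨h', h1⟩ := ih (D.s⁻¹ v) (D.fix_s' m h)
    have h2 : (D.s ^ (-(n : ℤ))) (D.s⁻¹ v) = (D.s ^ (-(n : ℤ) - 1)) v := by
      rw [zpow_sub_one, Equiv.Perm.mul_apply]
    refine ⟨h2 ▸ h', ?_⟩
    rw [zpow_sub_one, Equiv.Perm.mul_apply]
    refine Eq.trans h1 ?_
    exact congrArg Sum.inl (Subtype.ext h2)

theorem τ_inr (k : ℤ) (v : V) (j : ZMod m) :
    ((D.τ m) ^ k) (Sum.inr (v, j)) = Sum.inr (v, j + k) := by
  induction k using Int.induction_on generalizing j with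
  | zero => simp
  | succ n ih =>
    rw [zpow_add_one, Equiv.Perm.mul_apply]
    refine Eq.trans (ih (j + 1)) ?_
    have h1 : j + 1 + (((n : ℤ)) : ZMod m) = j + (((n : ℤ) + 1 : ℤ) : ZMod m) := by
      push_cast; ring
    rw [h1]
  | pred n ih =>
    rw [zpow_sub_one, Equiv.Perm.mul_apply]
    refine Eq.trans (ih (j - 1)) ?_
    have h1 : j - 1 + ((-(n : ℤ) : ℤ) : ZMod m) = j + ((-(n : ℤ) - 1 : ℤ) : ZMod m) := by
      push_cast; ring
    rw [h1]

open Classical in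
/-- the embedding of the vertices -/
noncomputable def ι (v : V) : D.T m :=
  if h : (D.s ^ m) v = v then Sum.inl ⟨v, h⟩ else Sum.inr (D.o v, (D.i v : ZMod m))

open Classical in
/-- the exponent -/
noncomputable def e (v : V) : ℤ := if (D.s ^ m) v = v then 0 else D.i v

theorem base_ι (v : V) : D.base m (D.ι m v) = (D.s ^ (-(D.e m v))) v := by
  by_cases h : (D.s ^ m) v = v
  · rw [ι, dif_pos h, e, if_pos h, neg_zero, zpow_zero]; rfl
  · rw [ι, dif_neg h, e, if_neg h, zpow_neg]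
    show D.o v = _
    rw [Equiv.Perm.eq_inv_iff_eq]
    exact D.i_spec v

variable (S : Finset V)

/-- `m` is suitable for the finite set `S` -/
structure Good (m : ℕ) (S : Finset V) : Prop where
  pos : 0 < m
  fin : ∀ v ∈ S, ¬ D.Inf v → (D.s ^ m) v = v
  big : ∀ v ∈ S, ∀ w ∈ S, 2 * |D.i v - D.i w| < m

theorem Good.inf {m : ℕ} {S : Finset V} (h : D.Good m S) {v : V} (hv : (D.s ^ m) v ≠ v)
    (hS : v ∈ S) : D.Inf v := by
  by_contra h1
  exact hv (h.fin v hS h1)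

theorem ninf {m : ℕ} (hm : 0 < m) {v : V} (hv : (D.s ^ m) v = v) : ¬ D.Inf v :=
  fun h => h m hm hv

theorem exists_good : ∃ m, D.Good m S := by
  classical
  have hc : ∀ v : V, ∃ c : ℕ, 0 < c ∧ (¬ D.Inf v → (D.s ^ c) v = v) := by
    intro v
    by_cases h : D.Inf v
    · exact ⟨1, one_pos, fun h' => absurd h h'⟩
    · unfold Inf at h
      push Not at h
      obtain ⟨c, hc, hcv⟩ := h
      exact ⟨c, hc, fun _ => hcv⟩
  choose c hc1 hc2 using hc
  let L : ℕ := ∑ v ∈ S, ∑ w ∈ S, (2 * |D.i v - D.i w|).toNat + 1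
  have hL : 0 < L := Nat.succ_pos _
  have hP : 0 < ∏ v ∈ S, c v := Finset.prod_pos (fun v _ => hc1 v)
  refine ⟨(∏ v ∈ S, c v) * L, Nat.mul_pos hP hL, ?_, ?_⟩
  · intro v hv hi
    have h1 := hc2 v hi
    obtain ⟨k, hk⟩ : c v ∣ (∏ v ∈ S, c v) * L := (Finset.dvd_prod_of_mem c hv).mul_right L
    rw [hk, pow_mul]
    have h2 : ∀ n : ℕ, ((D.s ^ c v) ^ n) v = v := by
      intro n
      induction n with
      | zero => rfl
      | succ n ih => rw [pow_succ, Equiv.Perm.mul_apply, h1, ih]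
    exact h2 k
  · intro v hv w hw
    have h1 : (2 * |D.i v - D.i w|).toNat ≤ ∑ w ∈ S, (2 * |D.i v - D.i w|).toNat :=
      Finset.single_le_sum (f := fun w => (2 * |D.i v - D.i w|).toNat) (fun _ _ => Nat.zero_le _) hw
    have h2 : ∑ w ∈ S, (2 * |D.i v - D.i w|).toNat ≤
        ∑ v ∈ S, ∑ w ∈ S, (2 * |D.i v - D.i w|).toNat :=
      Finset.single_le_sum (f := fun v => ∑ w ∈ S, (2 * |D.i v - D.i w|).toNat)
        (fun _ _ => Nat.zero_le _) hv
    have h3 : (2 * |D.i v - D.i w|).toNat < L := Nat.lt_succ_of_le (h1.trans h2)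
    have h4 : L ≤ (∏ v ∈ S, c v) * L := Nat.le_mul_of_pos_left L hP
    have h5 : 2 * |D.i v - D.i w| = ((2 * |D.i v - D.i w|).toNat : ℤ) :=
      (Int.toNat_of_nonneg (by positivity)).symm
    rw [h5]
    exact_mod_cast lt_of_lt_of_le h3 h4

/-- positions -/
theorem pos_eq {m : ℕ} {S : Finset V} (hg : D.Good m S) {a a' : V} (ha : a ∈ S) (ha' : a' ∈ S)
    (k : ℤ) (h : ((D.τ m) ^ k) (D.ι m a') = D.ι m a) :
    ((D.s ^ m) a' = a' ∧ (D.s ^ m) a = a ∧ a = (D.s ^ k) a') ∨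
    ((D.s ^ m) a' ≠ a' ∧ (D.s ^ m) a ≠ a ∧ ∃ l : ℤ, k + m * l = D.i a - D.i a' ∧
      a = (D.s ^ (k + m * l)) a') := by
  by_cases h1 : (D.s ^ m) a' = a'
  · left
    rw [ι, dif_pos h1] at h
    obtain ⟨h', h2⟩ := D.τ_inl m k a' h1
    rw [h2] at h
    by_cases h3 : (D.s ^ m) a = a
    · rw [ι, dif_pos h3] at h
      have h4 := Sum.inl_injective h
      exact ⟨h1, h3, (congrArg Subtype.val h4).symm⟩
    · rw [ι, dif_neg h3] at h
      exact absurd h (by simp)
  · right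
    rw [ι, dif_neg h1, τ_inr] at h
    by_cases h3 : (D.s ^ m) a = a
    · rw [ι, dif_pos h3] at h
      exact absurd h (by simp)
    · rw [ι, dif_neg h3] at h
      have h4 := Sum.inr_injective h
      have h5 : D.o a' = D.o a := congrArg Prod.fst h4
      have h6 : (D.i a' : ZMod m) + (k : ZMod m) = (D.i a : ZMod m) := congrArg Prod.snd h4
      have h7 : ((D.i a' + k : ℤ) : ZMod m) = (D.i a : ZMod m) := by push_cast; exact h6
      rw [ZMod.intCast_eq_intCast_iff_dvd_sub] at h7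
      obtain ⟨l, hl⟩ := h7
      have h8 : k + m * l = D.i a - D.i a' := by rw [← hl]; ring
      refine ⟨h1, h3, l, h8, ?_⟩
      have h9 := D.i_spec a
      have h10 := D.i_spec a'
      rw [h8, sub_eq_add_neg, zpow_add, Equiv.Perm.mul_apply, zpow_neg]
      have h11 : ((D.s ^ (D.i a'))⁻¹) a' = D.o a' := by
        rw [Equiv.Perm.inv_eq_iff_eq]; exact h10.symm
      rw [h11, h5, h9]

theorem pow_fix {m : ℕ} {b : V} (h : (D.s ^ m) b = b) (l : ℤ) : (D.s ^ ((m : ℤ) * l)) b = b := by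
  rw [zpow_mul, zpow_natCast]
  have h2 : ∀ n : ℕ, ((D.s ^ m) ^ n) b = b := by
    intro n
    induction n with
    | zero => rfl
    | succ n ih => rw [pow_succ, Equiv.Perm.mul_apply, h, ih]
  rcases Int.eq_nat_or_neg l with ⟨n, rfl | rfl⟩
  · rw [zpow_natCast]; exact h2 n
  · rw [zpow_neg, zpow_natCast, Equiv.Perm.inv_eq_iff_eq]; exact (h2 n).symm

theorem ι_inj {m : ℕ} {S : Finset V} (hg : D.Good m S) {a a' : V} (ha : a ∈ S) (ha' : a' ∈ S)
    (h : D.ι m a' = D.ι m a) : a = a' := by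
  rcases D.pos_eq hg ha ha' 0 (by rw [zpow_zero]; exact h) with ⟨_, _, h1⟩ | ⟨_, _, l, h1, h2⟩
  · simpa using h1
  · have h3 := hg.big a ha a' ha'
    have h4 : l = 0 := by
      by_contra hl
      have h5 : (m : ℤ) ≤ |D.i a - D.i a'| := by
        rw [← h1, zero_add, abs_mul, Nat.abs_cast]
        have : 1 ≤ |l| := Int.one_le_abs hl
        nlinarith [hg.pos]
      have h6 : (0 : ℤ) < m := by exact_mod_cast hg.pos
      linarith
    rw [h4] at h2
    simpa using h2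

theorem reflect {m : ℕ} {S : Finset V} (hg : D.Good m S) {a a' b b' : V} (ha : a ∈ S)
    (ha' : a' ∈ S) (hb : b ∈ S) (hb' : b' ∈ S) (k : ℤ) (h : Λ.Adj a' b')
    (h1 : ((D.τ m) ^ k) (D.ι m a') = D.ι m a) (h2 : ((D.τ m) ^ k) (D.ι m b') = D.ι m b) :
    Λ.Adj a b := by
  rcases D.pos_eq hg ha ha' k h1 with ⟨p1, p2, p3⟩ | ⟨p1, p2, l, p3, p4⟩
  · rcases D.pos_eq hg hb hb' k h2 with ⟨q1, q2, q3⟩ | ⟨q1, q2, l', q3, q4⟩
    · rw [p3, q3, D.hΛz]; exact h
    · have h3 : a = (D.s ^ (k + m * l')) a' := by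
        rw [zpow_add, Equiv.Perm.mul_apply, D.pow_fix p1, ← p3]
      rw [h3, q4, D.hΛz]; exact h
  · rcases D.pos_eq hg hb hb' k h2 with ⟨q1, q2, q3⟩ | ⟨q1, q2, l', q3, q4⟩
    · have h3 : b = (D.s ^ (k + m * l)) b' := by
        rw [zpow_add, Equiv.Perm.mul_apply, D.pow_fix q1, ← q3]
      rw [h3, p4, D.hΛz]; exact h
    · have h3 : l = l' := by
        by_contra hl
        have b1 := hg.big a ha a' ha'
        have b2 := hg.big b hb b' hb'
        rw [← p3] at b1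
        rw [← q3] at b2
        have h5 : (m : ℤ) ≤ |(k + m * l) - (k + m * l')| := by
          have h6 : (k + m * l) - (k + m * l') = (m : ℤ) * (l - l') := by ring
          rw [h6, abs_mul, Nat.abs_cast]
          have : 1 ≤ |l - l'| := Int.one_le_abs (sub_ne_zero.2 hl)
          nlinarith [hg.pos]
        have h7 := abs_sub (k + m * l) (k + m * l')
        linarith
      rw [p4, q4, h3, D.hΛz]; exact h

end Dat

end Pool.Agent.H65FJ
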