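import Pool.Agent.H65FJ.Tor

/-!
# Mapping tori of graph products
-/

set_option autoImplicit false

namespace Pool.Agent.H65FJ

open Pool.Agent.Y110.FJ
open Pool.Agent.Y462.SS (Closed)

variable {C : ∀ (G : Type) [Group G], Prop}

theorem GS_empty {G V : Type} [Group G] (A : V → Subgroup G) (t : G) :
    GS A t ∅ = Subgroup.zpowers t := by
  rw [GS, Subgroup.zpowers_eq_closure]
  congr 1
  ext x
  simp

open Classical in
/-- the vertex groups of a mapping torus of a graph product -/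
theorem vert (hC : Closed C) {V : Type} {Λ : SimpleGraph V} {A : V → Type} [∀ v, Group (A v)]
    (σ : MulAut (GrP Λ A)) (x : V) (H : Type) [Group H] (hH : C H) (f0 : A x →* H) (u : H)
    (h1 : ∀ v a, ∃ b, σ (GrP.of Λ A v a) = GrP.of Λ A v b)
    (h2 : ∀ v a, ∃ b, σ⁻¹ (GrP.of Λ A v a) = GrP.of Λ A v b)
    (hx : ∀ a, ∃ b, σ (GrP.of Λ A x a) = GrP.of Λ A x b ∧ f0 b = u * f0 a * u⁻¹)
    (hi : ∀ a (n : ℤ), f0 a * u ^ n = 1 → a = 1 ∧ n = 0) :
    C ↥(GS (VG σ) (st σ) {x}) := by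
  have hne : ∀ v, v ≠ x → Function.update (fun v => (1 : A v →* H)) x f0 v = 1 := fun v hv =>
    Function.update_of_ne hv _ _
  obtain ⟨k, hk⟩ := exists_lift (Λ := Λ) (A := A) (H := H)
    (Function.update (fun v => (1 : A v →* H)) x f0) (by
    intro v w hvw a b
    by_cases hv : v = x
    · have hw : w ≠ x := by
        rintro rfl
        rw [hv] at hvw
        exact Λ.loopless.irrefl _ hvw
      rw [hne w hw, MonoidHom.one_apply, mul_one, one_mul]
    · rw [hne v hv, MonoidHom.one_apply, mul_one, one_mul])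
  have hkx : ∀ a, k (GrP.of Λ A x a) = f0 a := by
    intro a
    rw [hk, Function.update_self]
  have hk1 : ∀ v, v ≠ x → ∀ a, k (GrP.of Λ A v a) = 1 := by
    intro v hv a
    rw [hk, hne v hv, MonoidHom.one_apply]
  have hku : ∀ y, k (σ y) = u * k y * u⁻¹ := by
    have h3 : k.comp σ.toMonoidHom = (MulAut.conj u).toMonoidHom.comp k := by
      apply grp_ext
      intro v a
      show k (σ (GrP.of Λ A v a)) = u * k (GrP.of Λ A v a) * u⁻¹
      by_cases hv : v = x
      · subst hv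
        obtain ⟨b, hb, hb'⟩ := hx a
        rw [hb, hkx, hkx, hb']
      · obtain ⟨b, hb⟩ := h1 v a
        rw [hb, hk1 v hv, hk1 v hv, mul_one, mul_inv_cancel]
    exact fun y => DFunLike.congr_fun h3 y
  obtain ⟨K, hK1, hK2⟩ := mt_lift σ k u hku
  refine hC.of_injective _ H (K.comp (Subgroup.subtype _)) ?_ hH
  rw [injective_iff_map_eq_one]
  rintro ⟨z, hz⟩ hz1
  have hz1' : K z = 1 := hz1
  have hz' : z ∈ GS (VG σ) (st σ) (insert x ∅) := by
    rwa [insert_empty_eq]
  obtain ⟨y, hy, a', ⟨a, rfl⟩, hza⟩ := decomp (grp_gz σ h1 h2) x ∅ (fun w hw => hw.elim) z hz'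
  rw [GS_empty] at hy
  obtain ⟨n, rfl⟩ := Subgroup.mem_zpowers_iff.1 hy
  have hza' : z = (st σ) ^ n * SemidirectProduct.inl (GrP.of Λ A x a) := hza
  rw [hza', map_mul, map_zpow, hK1, hK2, hkx] at hz1'
  have h3 : f0 a * u ^ n = 1 := by
    rw [mul_eq_one_iff_eq_inv] at hz1' ⊢
    rw [hz1', inv_inv]
  obtain ⟨h4, h5⟩ := hi a n h3
  apply Subtype.ext
  show z = 1
  rw [hza', h4, h5]
  simp

namespace Dat

variable {V : Type} {Λ : SimpleGraph V} {A : V → Type} [∀ v, Group (A v)] (D : Dat Λ A) (m : ℕ)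

/-- the graph of the finite model -/
def TG (S : Set V) : SimpleGraph (D.T m) where
  Adj x y := x ≠ y ∧ ∃ k : ℤ, ∃ a ∈ S, ∃ b ∈ S, Λ.Adj a b ∧
    ((D.τ m) ^ k) (D.ι m a) = x ∧ ((D.τ m) ^ k) (D.ι m b) = y
  symm := ⟨by
    rintro x y ⟨h, k, a, ha, b, hb, hab, h1, h2⟩
    exact ⟨h.symm, k, b, hb, a, ha, hab.symm, h2, h1⟩⟩
  loopless := ⟨fun x h => h.1 rfl⟩

theorem TG_τ (S : Set V) {x y : D.T m} (k : ℤ) (h : (D.TG m S).Adj x y) :
    (D.TG m S).Adj (((D.τ m) ^ k) x) (((D.τ m) ^ k) y) := by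
  obtain ⟨h, l, a, ha, b, hb, hab, h1, h2⟩ := h
  refine ⟨fun h' => h (((D.τ m) ^ k).injective h'), k + l, a, ha, b, hb, hab, ?_, ?_⟩
  · rw [zpow_add, Equiv.Perm.mul_apply, h1]
  · rw [zpow_add, Equiv.Perm.mul_apply, h2]

/-- the vertex groups of the finite model -/
abbrev Bv (x : D.T m) : Type := ↥(Ag Λ A (D.base m x))

theorem ofc (S : Set V) {x y : D.T m} (h : x = y) (a : D.Bv m x) (b : D.Bv m y)
    (hab : (a : GrP Λ A) = b) : GrP.of (D.TG m S) (D.Bv m) x a = GrP.of (D.TG m S) (D.Bv m) y b := by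
  subst h
  congr 1
  exact Subtype.ext hab

/-- the action on the vertex groups -/
def act : D.T m → MulAut (GrP Λ A)
  | Sum.inl _ => D.σ
  | Sum.inr _ => 1

theorem act_mem (x : D.T m) (a : GrP Λ A) (ha : a ∈ Ag Λ A (D.base m x)) :
    D.act m x a ∈ Ag Λ A (D.base m (D.τ m x)) := by
  rcases x with v | p
  · have h := D.z1 1 v.1 a ha
    rwa [zpow_one, zpow_one] at h
  · exact ha

theorem act_mem' (x : D.T m) (a : GrP Λ A) (ha : a ∈ Ag Λ A (D.base m x)) :
    (D.act m x)⁻¹ a ∈ Ag Λ A (D.base m ((D.τ m)⁻¹ x)) := by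
  rcases x with v | p
  · have h := D.z1 (-1) v.1 a ha
    rwa [zpow_neg_one, zpow_neg_one] at h
  · exact ha

theorem act_τ (x : D.T m) : D.act m (D.τ m x) = D.act m x := by
  rcases x with v | p <;> rfl

theorem act_τ' (x : D.T m) : D.act m ((D.τ m)⁻¹ x) = D.act m x := by
  rcases x with v | p <;> rfl

/-- the action on the vertex groups -/
def ex (x : D.T m) : D.Bv m x →* D.Bv m (D.τ m x) where
  toFun a := ⟨D.act m x a, D.act_mem m x a a.2⟩
  map_one' := Subtype.ext (map_one _)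
  map_mul' a b := Subtype.ext (map_mul _ _ _)

/-- the inverse action on the vertex groups -/
def ex' (x : D.T m) : D.Bv m x →* D.Bv m ((D.τ m)⁻¹ x) where
  toFun a := ⟨(D.act m x)⁻¹ a, D.act_mem' m x a a.2⟩
  map_one' := Subtype.ext (map_one _)
  map_mul' a b := Subtype.ext (map_mul _ _ _)

theorem exists_θ (S : Set V) : ∃ θ : MulAut (GrP (D.TG m S) (D.Bv m)),
    (∀ x a, θ (GrP.of _ _ x a) = GrP.of _ _ (D.τ m x) (D.ex m x a)) ∧
    (∀ x a, θ⁻¹ (GrP.of _ _ x a) = GrP.of _ _ ((D.τ m)⁻¹ x) (D.ex' m x a)) := by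
  obtain ⟨f, hf⟩ := exists_lift (Λ := D.TG m S) (A := D.Bv m) (H := GrP (D.TG m S) (D.Bv m))
    (fun x => (GrP.of (D.TG m S) (D.Bv m) (D.τ m x)).comp (D.ex m x)) (by
      intro x y hxy a b
      exact of_comm (by simpa using D.TG_τ m S 1 hxy) _ _)
  obtain ⟨g, hg⟩ := exists_lift (Λ := D.TG m S) (A := D.Bv m) (H := GrP (D.TG m S) (D.Bv m))
    (fun x => (GrP.of (D.TG m S) (D.Bv m) ((D.τ m)⁻¹ x)).comp (D.ex' m x)) (by
      intro x y hxy a b
      exact of_comm (by simpa only [zpow_neg_one] using D.TG_τ m S (-1) hxy) _ _)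
  have hf' : ∀ x a, f (GrP.of _ _ x a) = GrP.of _ _ (D.τ m x) (D.ex m x a) := hf
  have hg' : ∀ x a, g (GrP.of _ _ x a) = GrP.of _ _ ((D.τ m)⁻¹ x) (D.ex' m x a) := hg
  have h1 : g.comp f = MonoidHom.id _ := by
    apply grp_ext
    intro x a
    show g (f (GrP.of _ _ x a)) = _
    rw [hf', hg']
    apply D.ofc m S
    · show (D.τ m)⁻¹ ((D.τ m) x) = x
      rw [← Equiv.Perm.mul_apply, inv_mul_cancel]; rfl
    · show (D.act m (D.τ m x))⁻¹ (D.act m x a) = a
      rw [act_τ, MulAut.inv_apply_self]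
  have h2 : f.comp g = MonoidHom.id _ := by
    apply grp_ext
    intro x a
    show f (g (GrP.of _ _ x a)) = _
    rw [hg', hf']
    apply D.ofc m S
    · show (D.τ m) ((D.τ m)⁻¹ x) = x
      rw [← Equiv.Perm.mul_apply, mul_inv_cancel]; rfl
    · show (D.act m ((D.τ m)⁻¹ x)) ((D.act m x)⁻¹ a) = a
      rw [act_τ', MulAut.apply_inv_self]
  exact ⟨MonoidHom.toMulEquiv f g h1 h2, hf', hg'⟩

theorem θ_pow (S : Set V) (θ : MulAut (GrP (D.TG m S) (D.Bv m)))
    (h1 : ∀ x a, θ (GrP.of _ _ x a) = GrP.of _ _ (D.τ m x) (D.ex m x a))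
    (h2 : ∀ x a, θ⁻¹ (GrP.of _ _ x a) = GrP.of _ _ ((D.τ m)⁻¹ x) (D.ex' m x a))
    (k : ℤ) (x : D.T m) (a : D.Bv m x) : ∃ (y : D.T m) (b : D.Bv m y), y = ((D.τ m) ^ k) x ∧
      (b : GrP Λ A) = ((D.act m x) ^ k) (a : GrP Λ A) ∧
      (θ ^ k) (GrP.of _ _ x a) = GrP.of _ _ y b := by
  induction k using Int.induction_on generalizing x with
  | zero => exact ⟨x, a, rfl, rfl, rfl⟩
  | succ n ih =>
    obtain ⟨y, b, hy, hb, h⟩ := ih (D.τ m x) (D.ex m x a)
    refine ⟨y, b, ?_, ?_, ?_⟩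
    · rw [hy, zpow_add_one, Equiv.Perm.mul_apply]
    · rw [hb, act_τ, zpow_add_one, MulAut.mul_apply]; rfl
    · rw [zpow_add_one, MulAut.mul_apply, h1, h]
  | pred n ih =>
    obtain ⟨y, b, hy, hb, h⟩ := ih ((D.τ m)⁻¹ x) (D.ex' m x a)
    refine ⟨y, b, ?_, ?_, ?_⟩
    · rw [hy, zpow_sub_one, Equiv.Perm.mul_apply]
    · rw [hb, act_τ', zpow_sub_one, MulAut.mul_apply]; rfl
    · rw [zpow_sub_one, MulAut.mul_apply, h2, h]

theorem τ_m (x : D.T m) : ((D.τ m) ^ (m : ℤ)) x = x := by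
  rcases x with ⟨v, hv⟩ | ⟨v, j⟩
  · obtain ⟨h', h⟩ := D.τ_inl m m v hv
    rw [h]
    apply congrArg Sum.inl
    apply Subtype.ext
    show (D.s ^ (m : ℤ)) v = v
    rw [zpow_natCast]; exact hv
  · rw [τ_inr]
    simp

/-- the model is in `C` -/
theorem model (hC : ClosedE C) (hm : 0 < m) (S : Set V) (hA : ∀ v, C ↥(Ag Λ A v))
    (hs : ∀ v (c : ℕ), 0 < c → (D.s ^ c) v = v → C ↥(Subgroup.closure
      ((SemidirectProduct.inl '' (Ag Λ A v : Set (GrP Λ A))) ∪ {(st D.σ) ^ c} :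
        Set (MT (GrP Λ A) D.σ))))
    (θ : MulAut (GrP (D.TG m S) (D.Bv m)))
    (h1 : ∀ x a, θ (GrP.of _ _ x a) = GrP.of _ _ (D.τ m x) (D.ex m x a))
    (h2 : ∀ x a, θ⁻¹ (GrP.of _ _ x a) = GrP.of _ _ ((D.τ m)⁻¹ x) (D.ex' m x a)) :
    C (MT (GrP (D.TG m S) (D.Bv m)) θ) := by
  refine mt_pow θ hC.base m hm ?_
  have k1 : ∀ x (a : D.Bv m x), ∃ b : D.Bv m x, (b : GrP Λ A) = ((D.act m x) ^ m) (a : GrP Λ A) ∧
      (θ ^ m) (GrP.of _ _ x a) = GrP.of _ _ x b := by
    intro x a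
    obtain ⟨y, b, hy, hb, h⟩ := D.θ_pow m S θ h1 h2 m x a
    rw [τ_m] at hy
    subst hy
    rw [zpow_natCast] at h hb
    exact ⟨b, hb, h⟩
  have k2 : ∀ x (a : D.Bv m x), ∃ b : D.Bv m x, (θ ^ m)⁻¹ (GrP.of _ _ x a) = GrP.of _ _ x b := by
    intro x a
    obtain ⟨y, b, hy, hb, h⟩ := D.θ_pow m S θ h1 h2 (-m) x a
    rw [zpow_neg, Equiv.Perm.eq_inv_iff_eq, τ_m] at hy
    subst hy
    rw [zpow_neg, zpow_natCast] at h
    exact ⟨b, h⟩
  have k1' : ∀ x (a : D.Bv m x), ∃ b : D.Bv m x, (θ ^ m) (GrP.of _ _ x a) = GrP.of _ _ x b :=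
    fun x a => ⟨_, (k1 x a).choose_spec.2⟩
  refine gz hC (grp_gz (θ ^ m) k1' k2) ?_
  rintro (⟨v, hv⟩ | ⟨v, j⟩)
  · let Kv : Subgroup (MT (GrP Λ A) D.σ) := Subgroup.closure
      ((SemidirectProduct.inl '' (Ag Λ A v : Set (GrP Λ A))) ∪ {(st D.σ) ^ m})
    have e1 : ∀ a ∈ Ag Λ A v, (SemidirectProduct.inl a : MT (GrP Λ A) D.σ) ∈ Kv := fun a ha =>
      Subgroup.subset_closure (Or.inl ⟨a, ha, rfl⟩)
    have e2 : (st D.σ) ^ m ∈ Kv := Subgroup.subset_closure (Or.inr rfl)
    refine vert hC.base (θ ^ m) _ Kv (hs v m hm hv)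
      { toFun := fun a : Ag Λ A v => (⟨SemidirectProduct.inl a.1, e1 a a.2⟩ : Kv)
        map_one' := Subtype.ext (map_one _)
        map_mul' := fun a b => Subtype.ext (map_mul _ _ _) } ⟨(st D.σ) ^ m, e2⟩ k1' k2 ?_ ?_
    · intro a
      obtain ⟨b, hb, h⟩ := k1 _ a
      refine ⟨b, h, ?_⟩
      apply Subtype.ext
      show (SemidirectProduct.inl (b : GrP Λ A) : MT (GrP Λ A) D.σ) =
        (st D.σ) ^ m * SemidirectProduct.inl (a : GrP Λ A) * ((st D.σ) ^ m)⁻¹
      rw [hb]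
      have h3 := zp_pow D.σ (SemidirectProduct.inl : GrP Λ A →* MT (GrP Λ A) D.σ) (st D.σ)
        (fun x => (st_conj D.σ x).symm) m (a : GrP Λ A)
      rw [zpow_natCast, zpow_natCast] at h3
      exact h3
    · intro a n han
      have h3 : (SemidirectProduct.inl (a : GrP Λ A) : MT (GrP Λ A) D.σ) *
          SemidirectProduct.inr (Multiplicative.ofAdd ((m : ℤ) * n)) = 1 := by
        rw [← st_zpow, zpow_mul, zpow_natCast]
        exact congrArg Subtype.val han
      have h4 := congrArg (fun z => z.left) h3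
      have h5 := congrArg (fun z => z.right) h3
      simp only [SemidirectProduct.mul_left, SemidirectProduct.left_inl,
        SemidirectProduct.right_inl, SemidirectProduct.left_inr, map_one, mul_one,
        SemidirectProduct.one_left] at h4
      simp only [SemidirectProduct.mul_right, SemidirectProduct.right_inl,
        SemidirectProduct.right_inr, one_mul, SemidirectProduct.one_right] at h5
      refine ⟨Subtype.ext h4, ?_⟩
      have h6 : (m : ℤ) * n = 0 := h5
      rcases mul_eq_zero.1 h6 with h7 | h7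
      · exact absurd h7 (by exact_mod_cast hm.ne')
      · exact h7
  · refine vert hC.base (θ ^ m) _ (Ag Λ A v × Multiplicative ℤ)
      (hC.base.prod _ _ (hA v) hC.base.int)
      (MonoidHom.inl (Ag Λ A v) (Multiplicative ℤ)) (1, Multiplicative.ofAdd 1) k1' k2 ?_ ?_
    · intro a
      obtain ⟨b, hb, h⟩ := k1 _ a
      refine ⟨b, h, ?_⟩
      have hb' : b = a := by
        apply Subtype.ext
        rw [hb]
        show ((1 : MulAut (GrP Λ A)) ^ m) (a : GrP Λ A) = a
        rw [one_pow]; rfl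
      rw [hb']
      apply Prod.ext
      · show a = 1 * a * 1⁻¹
        simp
      · show (1 : Multiplicative ℤ) = Multiplicative.ofAdd 1 * 1 * (Multiplicative.ofAdd 1)⁻¹
        simp
    · intro (a : Ag Λ A v) n han
      have h4 : a * (1 : Ag Λ A v) ^ n = 1 := congrArg Prod.fst han
      have h5 : (1 : Multiplicative ℤ) * (Multiplicative.ofAdd (1 : ℤ)) ^ n = 1 :=
        congrArg Prod.snd han
      rw [one_mul, ← ofAdd_zsmul, smul_eq_mul, mul_one] at h5
      rw [one_zpow, mul_one] at h4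
      exact ⟨h4, h5⟩

variable (S : Finset V)

open Classical in
theorem exists_F (S : Finset V) (hg : D.Good m S) :
    ∃ F : GrP Λ A →* GrP (D.TG m S) (D.Bv m), ∀ v ∈ S, ∀ a, ∃ b : D.Bv m (D.ι m v),
      (b : GrP Λ A) = (D.σ ^ (-(D.e m v))) (GrP.of Λ A v a) ∧
      F (GrP.of Λ A v a) = GrP.of _ _ (D.ι m v) b := by
  have hm : ∀ v a, (D.σ ^ (-(D.e m v))) (GrP.of Λ A v a) ∈ Ag Λ A (D.base m (D.ι m v)) := by
    intro v a
    rw [base_ι]
    exact D.z1 _ v _ ⟨a, rfl⟩
  obtain ⟨F, hF⟩ := exists_lift (Λ := Λ) (A := A) (H := GrP (D.TG m S) (D.Bv m))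
    (fun v => if v ∈ S then (GrP.of (D.TG m S) (D.Bv m) (D.ι m v)).comp
      ({ toFun := fun a => ⟨(D.σ ^ (-(D.e m v))) (GrP.of Λ A v a), hm v a⟩
         map_one' := Subtype.ext (by
          show (D.σ ^ (-(D.e m v))) (GrP.of Λ A v 1) = 1
          rw [map_one, map_one])
         map_mul' := fun a b => Subtype.ext (by
          show (D.σ ^ (-(D.e m v))) (GrP.of Λ A v (a * b)) =
            (D.σ ^ (-(D.e m v))) (GrP.of Λ A v a) * (D.σ ^ (-(D.e m v))) (GrP.of Λ A v b)
          rw [map_mul, map_mul]) } :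
        A v →* D.Bv m (D.ι m v)) else 1) (by
      intro v w hvw a b
      by_cases hv : v ∈ S
      · by_cases hw : w ∈ S
        · simp only [if_pos hv, if_pos hw]
          refine of_comm (Λ := D.TG m S) ⟨?_, 0, v, hv, w, hw, hvw, rfl, rfl⟩ _ _
          intro h
          have := D.ι_inj hg hw hv h
          rw [this] at hvw
          exact Λ.loopless.irrefl _ hvw
        · rw [if_neg hw, MonoidHom.one_apply, mul_one, one_mul]
      · rw [if_neg hv, MonoidHom.one_apply, mul_one, one_mul])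
  refine ⟨F, fun v hv a => ⟨⟨_, hm v a⟩, rfl, ?_⟩⟩
  rw [hF, if_pos hv]
  rfl

open Classical in
theorem exists_r (S : Finset V) (hg : D.Good m S) :
    ∃ r : GrP (D.TG m S) (D.Bv m) →* GrP Λ A, ∀ v ∈ S, ∀ b : D.Bv m (D.ι m v),
      r (GrP.of _ _ (D.ι m v) b) = (D.σ ^ (D.e m v)) (b : GrP Λ A) := by
  have hch : ∀ v ∈ S, ∀ h : ∃ w ∈ S, D.ι m w = D.ι m v, h.choose = v := by
    intro v hv h
    exact (D.ι_inj hg hv h.choose_spec.1 h.choose_spec.2).symm
  obtain ⟨r, hr⟩ := exists_lift (Λ := D.TG m S) (A := D.Bv m) (H := GrP Λ A)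
    (fun x => if h : ∃ w ∈ S, D.ι m w = x then
      (D.σ ^ (D.e m h.choose)).toMonoidHom.comp (Subgroup.subtype _) else 1) (by
      intro x y hxy a b
      by_cases hx : ∃ w ∈ S, D.ι m w = x
      · by_cases hy : ∃ w ∈ S, D.ι m w = y
        · rw [dif_pos hx, dif_pos hy]
          obtain ⟨h, k, v', hv', w', hw', hadj, h1, h2⟩ := hxy
          have hv := hx.choose_spec
          have hw := hy.choose_spec
          have h3 := D.reflect hg hv.1 hv' hw.1 hw' k hadj (h1.trans hv.2.symm)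
            (h2.trans hw.2.symm)
          have e1 : ∀ (v : V) (x : D.T m), D.ι m v = x → ∀ a : D.Bv m x,
              (D.σ ^ (D.e m v)) (a : GrP Λ A) ∈ Ag Λ A v := by
            rintro v _ rfl ⟨a, ha⟩
            rw [base_ι] at ha
            have h4 := D.z1 (D.e m v) _ a ha
            rwa [← Equiv.Perm.mul_apply, ← zpow_add, add_neg_cancel, zpow_zero,
              Equiv.Perm.one_apply] at h4
          exact ag_comm h3 _ _ (e1 _ _ hv.2 a) (e1 _ _ hw.2 b)
        · rw [dif_neg hy, MonoidHom.one_apply, mul_one, one_mul]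
      · rw [dif_neg hx, MonoidHom.one_apply, mul_one, one_mul])
  refine ⟨r, fun v hv b => ?_⟩
  have h : ∃ w ∈ S, D.ι m w = D.ι m v := ⟨v, hv, rfl⟩
  rw [hr, dif_pos h]
  show (D.σ ^ (D.e m h.choose)) (b : GrP Λ A) = _
  rw [hch v hv h]

/-- the subgroup generated by some of the vertex groups -/
def NS (Λ : SimpleGraph V) (A : V → Type) [∀ v, Group (A v)] (S : Set V) : Subgroup (GrP Λ A) :=
  Subgroup.closure {x | ∃ v ∈ S, x ∈ Ag Λ A v}

theorem exists_NS (x : GrP Λ A) : ∃ S : Finset V, x ∈ NS Λ A (S : Set V) := by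
  classical
  refine grp_ind (P := fun x => ∃ S : Finset V, x ∈ NS Λ A (S : Set V)) ?_ ?_ ?_ x
  · exact ⟨∅, one_mem _⟩
  · rintro x y ⟨S, hS⟩ ⟨T, hT⟩
    refine ⟨S ∪ T, mul_mem ?_ ?_⟩
    · refine Subgroup.closure_mono ?_ hS
      rintro z ⟨v, hv, hz⟩
      exact ⟨v, by simp [Finset.mem_coe.1 hv], hz⟩
    · refine Subgroup.closure_mono ?_ hT
      rintro z ⟨v, hv, hz⟩
      exact ⟨v, by simp [Finset.mem_coe.1 hv], hz⟩
  · intro v a
    exact ⟨{v}, Subgroup.subset_closure ⟨v, by simp, a, rfl⟩⟩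

theorem NS_mono {S T : Set V} (h : S ⊆ T) : NS Λ A S ≤ NS Λ A T := by
  apply Subgroup.closure_mono
  rintro z ⟨v, hv, hz⟩
  exact ⟨v, h hv, hz⟩

theorem exists_NS' (E : Set (GrP Λ A)) (hE : E.Finite) :
    ∃ S : Finset V, E ⊆ NS Λ A (S : Set V) := by
  classical
  induction E, hE using Set.Finite.induction_on with
  | empty => exact ⟨∅, by simp⟩
  | @insert a s ha hs ih =>
    obtain ⟨S, hS⟩ := ih
    obtain ⟨T, hT⟩ := exists_NS a
    refine ⟨S ∪ T, ?_⟩
    rintro x (rfl | hx)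
    · exact NS_mono (by simp) hT
    · exact NS_mono (by simp) (hS hx)

theorem NS_ext {H : Type} [Group H] {S : Set V} {f g : GrP Λ A →* H}
    (h : ∀ v ∈ S, ∀ a, f (GrP.of Λ A v a) = g (GrP.of Λ A v a)) (x : GrP Λ A)
    (hx : x ∈ NS Λ A S) : f x = g x := by
  unfold NS at hx
  induction hx using Subgroup.closure_induction with
  | mem x hx =>
    obtain ⟨v, hv, a, rfl⟩ := hx
    exact h v hv a
  | one => rw [map_one, map_one]
  | mul x y _ _ hx hy => rw [map_mul, map_mul, hx, hy]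
  | inv x _ hx => rw [map_inv, map_inv, hx]

/-- **Mapping tori of graph products.** -/
theorem torus (hC : ClosedE C) (hA : ∀ v, C ↥(Ag Λ A v))
    (hs : ∀ v (c : ℕ), 0 < c → (D.s ^ c) v = v → C ↥(Subgroup.closure
      ((SemidirectProduct.inl '' (Ag Λ A v : Set (GrP Λ A))) ∪ {(st D.σ) ^ c} :
        Set (MT (GrP Λ A) D.σ)))) : C (MT (GrP Λ A) D.σ) := by
  classical
  let N : Subgroup (MT (GrP Λ A) D.σ) :=
    (SemidirectProduct.inl : GrP Λ A →* MT (GrP Λ A) D.σ).range
  have hNr : ∀ x : MT (GrP Λ A) D.σ, x ∈ N ↔ x.right = 1 := by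
    intro x
    constructor
    · rintro ⟨y, rfl⟩; rfl
    · intro h
      exact ⟨x.left, SemidirectProduct.ext rfl h.symm⟩
  have hNn : N.Normal := by
    constructor
    intro n hn g
    rw [hNr] at hn ⊢
    rw [SemidirectProduct.mul_right, SemidirectProduct.mul_right, hn, mul_one,
      SemidirectProduct.inv_right, mul_inv_cancel]
  have htop : N ⊔ Subgroup.zpowers (st D.σ) = ⊤ := by
    rw [eq_top_iff]
    intro x _
    rw [← SemidirectProduct.inl_left_mul_inr_right x]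
    refine mul_mem (Subgroup.mem_sup_left ⟨x.left, rfl⟩) (Subgroup.mem_sup_right ?_)
    refine Subgroup.mem_zpowers_iff.2 ⟨Multiplicative.toAdd x.right, ?_⟩
    rw [st_zpow]; rfl
  have key : C ↥(N ⊔ Subgroup.zpowers (st D.σ)) := by
    refine t_col C hC (MT (GrP Λ A) D.σ) N (st D.σ) ?_ ?_
    · intro k hk hk'
      rw [hNr, ← zpow_natCast, st_zpow] at hk'
      have : (k : ℤ) = 0 := hk'
      omega
    · intro E hE hEN
      obtain ⟨S0, hS0⟩ := exists_NS' (Λ := Λ) (A := A) ((fun x => x.left) '' E) (hE.image _)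
      let S : Finset V := S0 ∪ S0.image D.s
      have h0 : (S0 : Set V) ⊆ (S : Set V) := by
        intro v hv
        show v ∈ S0 ∪ S0.image D.s
        exact Finset.mem_union_left _ hv
      have h0s : ∀ v ∈ S0, D.s v ∈ S := fun v hv =>
        Finset.mem_union_right _ (Finset.mem_image_of_mem _ hv)
      obtain ⟨m, hg⟩ := D.exists_good S
      obtain ⟨θ, h1, h2⟩ := D.exists_θ m (S : Set V)
      obtain ⟨F, hF⟩ := D.exists_F m S hg
      obtain ⟨r, hr⟩ := D.exists_r m S hg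
      have hrF : ∀ x ∈ NS Λ A (S : Set V), r (F x) = x := by
        refine NS_ext (f := r.comp F) (g := MonoidHom.id _) ?_
        intro v hv a
        obtain ⟨b, hb, hb'⟩ := hF v hv a
        show r (F (GrP.of Λ A v a)) = _
        rw [hb', hr v hv, hb, ← MulAut.mul_apply, ← zpow_add, add_neg_cancel, zpow_zero]
        rfl
      have hFθ : ∀ x ∈ NS Λ A (S0 : Set V), F (D.σ x) = θ (F x) := by
        refine NS_ext (f := F.comp D.σ.toMonoidHom) (g := θ.toMonoidHom.comp F) ?_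
        intro v hv a
        show F (D.σ (GrP.of Λ A v a)) = θ (F (GrP.of Λ A v a))
        obtain ⟨a', ha'⟩ := D.hσ v a
        obtain ⟨b, hb, hb'⟩ := hF v (h0 hv) a
        obtain ⟨c, hc, hc'⟩ := hF (D.s v) (h0s v hv) a'
        rw [ha', hb', hc', h1]
        have hvS : v ∈ S := h0 hv
        by_cases hfix : (D.s ^ m) v = v
        · have hfix' : (D.s ^ m) (D.s v) = D.s v := D.fix_s m hfix
          have i1 : D.ι m v = Sum.inl ⟨v, hfix⟩ := by rw [ι, dif_pos hfix]
          have i2 : D.ι m (D.s v) = Sum.inl ⟨D.s v, hfix'⟩ := by rw [ι, dif_pos hfix']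
          have i3 : D.e m v = 0 := by rw [e, if_pos hfix]
          have i4 : D.e m (D.s v) = 0 := by rw [e, if_pos hfix']
          apply D.ofc m
          · rw [i1, i2]; rfl
          · show (c : GrP Λ A) = D.act m (D.ι m v) b
            rw [hc, hb, i1, i3, i4, neg_zero, zpow_zero, MulAut.one_apply, MulAut.one_apply]
            exact ha'.symm
        · have hfix' : (D.s ^ m) (D.s v) ≠ D.s v := by
            intro h
            apply hfix
            apply D.s.injective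
            rw [← Equiv.Perm.mul_apply, ← pow_succ', pow_succ, Equiv.Perm.mul_apply]
            exact h
          have hinf : D.Inf v := hg.inf D hfix hvS
          have i1 : D.ι m v = Sum.inr (D.o v, (D.i v : ZMod m)) := by rw [ι, dif_neg hfix]
          have i2 : D.ι m (D.s v) = Sum.inr (D.o v, ((D.i v + 1 : ℤ) : ZMod m)) := by
            rw [ι, dif_neg hfix', D.o_s, D.i_s v hinf]
          have i3 : D.e m v = D.i v := by rw [e, if_neg hfix]
          have i4 : D.e m (D.s v) = D.i v + 1 := by rw [e, if_neg hfix', D.i_s v hinf]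
          apply D.ofc m
          · rw [i1, i2]
            show _ = Sum.inr (D.o v, (D.i v : ZMod m) + 1)
            push_cast
            rfl
          · show (c : GrP Λ A) = D.act m (D.ι m v) b
            rw [hc, hb, i1, i3, i4]
            show (D.σ ^ (-(D.i v + 1))) (GrP.of Λ A (D.s v) a') = (D.σ ^ (-D.i v)) (GrP.of Λ A v a)
            have h3 : D.σ ^ (-(D.i v + 1)) * D.σ = D.σ ^ (-D.i v) := by
              rw [← zpow_add_one]; congr 1; ring
            rw [← ha', ← MulAut.mul_apply, h3]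
      have hle : ∀ x ∈ Subgroup.closure (E ∪ (fun x => st D.σ * x * (st D.σ)⁻¹) '' E),
          x ∈ N := by
        have : Subgroup.closure (E ∪ (fun x => st D.σ * x * (st D.σ)⁻¹) '' E) ≤ N := by
          rw [Subgroup.closure_le]
          rintro x (hx | ⟨x, hx, rfl⟩)
          · exact hEN hx
          · exact hNn.conj_mem x (hEN hx) _
        exact this
      have hinl : ∀ x : MT (GrP Λ A) D.σ, x ∈ N → x = SemidirectProduct.inl x.left := by
        rintro _ ⟨y, rfl⟩; rfl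
      have hNS : ∀ x ∈ NS Λ A (S0 : Set V), D.σ x ∈ NS Λ A (S : Set V) := by
        have : NS Λ A (S0 : Set V) ≤ (NS Λ A (S : Set V)).comap D.σ.toMonoidHom := by
          unfold NS
          rw [Subgroup.closure_le]
          rintro _ ⟨v, hv, a, rfl⟩
          obtain ⟨b, hb⟩ := D.hσ v a
          exact Subgroup.subset_closure ⟨D.s v, h0s v hv, b, hb.symm⟩
        exact this
      have hleft : ∀ x ∈ Subgroup.closure (E ∪ (fun x => st D.σ * x * (st D.σ)⁻¹) '' E),
          x.left ∈ NS Λ A (S : Set V) := by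
        have h3 : Subgroup.closure (E ∪ (fun x => st D.σ * x * (st D.σ)⁻¹) '' E) ≤
            (NS Λ A (S : Set V)).map SemidirectProduct.inl := by
          rw [Subgroup.closure_le]
          rintro x (hx | ⟨x, hx, rfl⟩)
          · exact ⟨x.left, NS_mono h0 (hS0 ⟨x, hx, rfl⟩), (hinl x (hEN hx)).symm⟩
          · refine ⟨D.σ x.left, hNS _ (hS0 ⟨x, hx, rfl⟩), ?_⟩
            show _ = st D.σ * x * (st D.σ)⁻¹
            rw [← st_conj, ← hinl x (hEN hx)]
        intro x hx
        obtain ⟨y, hy, hyx⟩ := h3 hx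
        rw [← hyx]
        exact hy
      refine ⟨MT (GrP (D.TG m S) (D.Bv m)) θ, inferInstance,
        { toFun := fun x => SemidirectProduct.inl (F x.1.left)
          map_one' := by
            show SemidirectProduct.inl (F (1 : MT (GrP Λ A) D.σ).left) = 1
            rw [SemidirectProduct.one_left, map_one, map_one]
          map_mul' := fun x y => by
            show SemidirectProduct.inl (F (x.1 * y.1).left) = _
            rw [SemidirectProduct.mul_left, (hNr _).1 (hle x.1 x.2), map_one, MulAut.one_apply,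
              map_mul, map_mul] }, st θ, D.model m hC hg.pos S hA hs θ h1 h2, ?_, ?_⟩
      · intro x y hxy
        have h3 : F x.1.left = F y.1.left := SemidirectProduct.inl_injective hxy
        have h4 : x.1.left = y.1.left := by
          rw [← hrF _ (hleft x.1 x.2), ← hrF _ (hleft y.1 y.2), h3]
        apply Subtype.ext
        apply SemidirectProduct.ext h4
        rw [(hNr _).1 (hle x.1 x.2), (hNr _).1 (hle y.1 y.2)]
      · intro x y hx hy
        show SemidirectProduct.inl (F y.1.left) = st θ * SemidirectProduct.inl (F x.1.left) * (st θ)⁻¹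
        rw [st_conj, ← hFθ _ (hS0 ⟨x.1, hx, rfl⟩)]
        have h3 : y.1 = SemidirectProduct.inl (D.σ x.1.left) := by
          rw [hy, ← st_conj, ← hinl x.1 (hEN hx)]
        rw [h3]
        rfl
  rw [htop] at key
  exact hC.base.of_injective _ _ (Subgroup.topEquiv (G := MT (GrP Λ A) D.σ)).symm.toMonoidHom
    (Subgroup.topEquiv (G := MT (GrP Λ A) D.σ)).symm.injective key

end Dat

end Pool.Agent.H65FJ
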